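import Pool.Agent.Zk7.FJ.Cmb

/-!
# Maximal invariant chains of submodules
-/

set_option autoImplicit false

namespace Pool.Agent.Zk7.FJ

/-- A set of submodules with an operator, invariant under an automorphism of the ordered set of all
submodules.  In the application `Dd` consists of the submodules invariant under a group `N`, `D X` is
generated by the differences `n x - x`, and `nak` is a form of Nakayama's lemma. -/
structure Sys (R V : Type) [Ring R] [AddCommGroup V] [Module R V] where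
  gm : Submodule R V ≃o Submodule R V
  γ : V → V
  gm_mem : ∀ X v, γ v ∈ gm X ↔ v ∈ X
  Dd : Set (Submodule R V)
  sup : ∀ A, A ⊆ Dd → sSup A ∈ Dd
  inf : ∀ A, A ⊆ Dd → sInf A ∈ Dd
  gmD : ∀ X, gm X ∈ Dd ↔ X ∈ Dd
  D : Submodule R V → Submodule R V
  D_le : ∀ X ∈ Dd, D X ≤ X
  D_mem : ∀ X, D X ∈ Dd
  D_mono : ∀ X Y, X ≤ Y → D X ≤ D Y
  D_sup : ∀ X ∈ Dd, ∀ Z ∈ Dd, D (X ⊔ Z) ≤ X ⊔ D Z
  D_gm : ∀ X, gm (D X) = D (gm X)
  D_el : ∀ X ∈ Dd, ∀ W ∈ Dd, (∀ x ∈ X, D (sInf {Y | Y ∈ Dd ∧ x ∈ Y}) ≤ W) → D X ≤ W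
  nak : ∀ X ∈ Dd, ∀ F : Set V, F.Finite →
    (∀ x ∈ F, x ∈ X ⊔ D (sInf {Y | Y ∈ Dd ∧ F ⊆ Y})) → ∀ x ∈ F, x ∈ X

namespace Sys

variable {R V : Type} [Ring R] [AddCommGroup V] [Module R V] (S : Sys R V)

theorem sup2 {X Y : Submodule R V} (hX : X ∈ S.Dd) (hY : Y ∈ S.Dd) : X ⊔ Y ∈ S.Dd := by
  rw [← sSup_pair]
  exact S.sup _ (by rintro Z (rfl | rfl); exacts [hX, hY])

/-- the generated submodule -/
def gen (F : Set V) : Submodule R V := sInf {Y | Y ∈ S.Dd ∧ F ⊆ Y}

theorem gen_mem (F : Set V) : S.gen F ∈ S.Dd := S.inf _ fun _ h => h.1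

theorem le_gen (F : Set V) : F ⊆ S.gen F := by
  intro x hx
  rw [gen, SetLike.mem_coe, Submodule.mem_sInf]
  exact fun Y hY => hY.2 hx

theorem gen_le {F : Set V} {X : Submodule R V} (hX : X ∈ S.Dd) (h : F ⊆ X) : S.gen F ≤ X :=
  sInf_le ⟨hX, h⟩

theorem gm_pow_mem (n : ℤ) (X : Submodule R V) : (S.gm ^ n) X ∈ S.Dd ↔ X ∈ S.Dd := by
  have h1 : ∀ (n : ℕ) (X : Submodule R V), (S.gm ^ n) X ∈ S.Dd ↔ X ∈ S.Dd := by
    intro n
    induction n with
    | zero => intro X; exact Iff.rfl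
    | succ n ih =>
      intro X
      rw [pow_succ']
      exact (S.gmD _).trans (ih X)
  obtain ⟨n, rfl | rfl⟩ := n.eq_nat_or_neg
  · rw [zpow_natCast]
    exact h1 n X
  · have h2 := h1 n ((S.gm ^ (-(n : ℤ))) X)
    have h3 : (S.gm ^ n) ((S.gm ^ (-(n : ℤ))) X) = X := by
      have h8 : S.gm ^ (n : ℤ) * S.gm ^ (-(n : ℤ)) = 1 := by
        rw [← zpow_add, add_neg_cancel, zpow_zero]
      rw [zpow_natCast] at h8
      exact DFunLike.congr_fun h8 X
    rw [h3] at h2
    exact h2.symm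

theorem zp (a b : ℤ) (X : Submodule R V) : (S.gm ^ a) ((S.gm ^ b) X) = (S.gm ^ (a + b)) X := by
  rw [zpow_add]
  rfl

theorem zp0 (X : Submodule R V) : (S.gm ^ (0 : ℤ)) X = X := by
  rw [zpow_zero]
  rfl

theorem zp1 (X : Submodule R V) : (S.gm ^ (1 : ℤ)) X = S.gm X := by
  rw [zpow_one]

/-- invariant chains -/
def IC (c : Set (Submodule R V)) : Prop :=
  c ⊆ S.Dd ∧ IsChain (· ≤ ·) c ∧ ∀ X ∈ c, ∀ n : ℤ, (S.gm ^ n) X ∈ c

theorem ex_max : ∃ c, Maximal S.IC c := by
  obtain ⟨c, -, hc⟩ := zorn_subset_nonempty {c | S.IC c} (fun d hd hch hne => by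
    refine ⟨⋃₀ d, ⟨?_, ?_, ?_⟩, fun s hs => Set.subset_sUnion_of_mem hs⟩
    · exact Set.sUnion_subset fun s hs => (hd hs).1
    · rintro X ⟨s, hs, hX⟩ Y ⟨t, ht, hY⟩ hne
      rcases hch.total hs ht with h | h
      · exact (hd ht).2.1 (h hX) hY hne
      · exact (hd hs).2.1 hX (h hY) hne
    · rintro X ⟨s, hs, hX⟩ n
      exact ⟨s, hs, (hd hs).2.2 X hX n⟩) ∅ ⟨Set.empty_subset _, by
        intro X hX; exact absurd hX (Set.notMem_empty _), by
        intro X hX; exact absurd hX (Set.notMem_empty _)⟩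
  exact ⟨c, hc⟩

variable {S} {c : Set (Submodule R V)}

/-- insertion -/
theorem ins (hc : Maximal S.IC c) {T : Submodule R V} (hT : T ∈ S.Dd)
    (h1 : ∀ Z ∈ c, Z ≤ T ∨ T ≤ Z) (h2 : ∀ n : ℤ, T ≤ (S.gm ^ n) T ∨ (S.gm ^ n) T ≤ T) : T ∈ c := by
  have h3 : ∀ Z ∈ c, ∀ n : ℤ, Z ≤ (S.gm ^ n) T ∨ (S.gm ^ n) T ≤ Z := by
    intro Z hZ n
    have h4 : (S.gm ^ n) ((S.gm ^ (-n)) Z) = Z := by rw [S.zp, add_neg_cancel, S.zp0]
    rcases h1 _ (hc.prop.2.2 Z hZ (-n)) with h | h
    · left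
      rw [← h4]
      exact (S.gm ^ n).monotone h
    · right
      rw [← h4]
      exact (S.gm ^ n).monotone h
  have h5 : ∀ n m : ℤ, (S.gm ^ n) T ≤ (S.gm ^ m) T ∨ (S.gm ^ m) T ≤ (S.gm ^ n) T := by
    intro n m
    have h6 : (S.gm ^ n) ((S.gm ^ (m - n)) T) = (S.gm ^ m) T := by
      rw [S.zp]; congr 2; ring
    rcases h2 (m - n) with h | h
    · left
      rw [← h6]
      exact (S.gm ^ n).monotone h
    · right
      rw [← h6]
      exact (S.gm ^ n).monotone h
  have h6 : S.IC (c ∪ {X | ∃ n : ℤ, X = (S.gm ^ n) T}) := by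
    refine ⟨?_, ?_, ?_⟩
    · rintro X (hX | ⟨n, rfl⟩)
      · exact hc.prop.1 hX
      · exact (S.gm_pow_mem n T).2 hT
    · rintro X (hX | ⟨n, rfl⟩) Y (hY | ⟨m, rfl⟩) hne
      · exact hc.prop.2.1 hX hY hne
      · exact h3 X hX m
      · exact (h3 Y hY n).symm
      · exact h5 n m
    · rintro X (hX | ⟨m, rfl⟩) n
      · exact Or.inl (hc.prop.2.2 X hX n)
      · exact Or.inr ⟨n + m, by rw [S.zp]⟩
  have h7 := hc.le_of_ge h6 Set.subset_union_left
  exact h7 (Or.inr ⟨0, (S.zp0 T).symm⟩)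

theorem tot (hc : Maximal S.IC c) {X Y : Submodule R V} (hX : X ∈ c) (hY : Y ∈ c) : X ≤ Y ∨ Y ≤ X :=
  hc.prop.2.1.total hX hY

theorem not_le (hc : Maximal S.IC c) {X Y : Submodule R V} (hX : X ∈ c) (hY : Y ∈ c)
    (h : ¬ X ≤ Y) : Y < X := by
  rcases tot hc hX hY with h' | h'
  · exact absurd h' h
  · exact lt_of_le_not_ge h' h

theorem sSup_mem (hc : Maximal S.IC c) {A : Set (Submodule R V)} (hA : A ⊆ c) : sSup A ∈ c := by
  have h1 : ∀ Z ∈ c, Z ≤ sSup A ∨ sSup A ≤ Z := by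
    intro Z hZ
    by_cases h : ∃ X ∈ A, Z ≤ X
    · obtain ⟨X, hX, hZX⟩ := h
      exact Or.inl (hZX.trans (le_sSup hX))
    · right
      refine sSup_le fun X hX => ?_
      rcases tot hc hZ (hA hX) with h' | h'
      · exact absurd ⟨X, hX, h'⟩ h
      · exact h'
  refine ins hc (S.sup A (hA.trans hc.prop.1)) h1 fun n => ?_
  have h2 : (S.gm ^ n) (sSup A) = ⨆ X ∈ A, (S.gm ^ n) X := (S.gm ^ n).map_sSup A
  by_cases h : ∃ X ∈ A, sSup A ≤ (S.gm ^ n) X
  · obtain ⟨X, hX, h'⟩ := h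
    left
    rw [h2]
    exact h'.trans (le_iSup₂_of_le X hX le_rfl)
  · right
    rw [h2]
    refine iSup₂_le fun X hX => ?_
    rcases h1 _ (hc.prop.2.2 X (hA hX) n) with h' | h'
    · exact h'
    · exact absurd ⟨X, hX, h'⟩ h

theorem sInf_mem (hc : Maximal S.IC c) {A : Set (Submodule R V)} (hA : A ⊆ c) : sInf A ∈ c := by
  have h1 : ∀ Z ∈ c, Z ≤ sInf A ∨ sInf A ≤ Z := by
    intro Z hZ
    by_cases h : ∃ X ∈ A, X ≤ Z
    · obtain ⟨X, hX, hZX⟩ := h
      exact Or.inr ((sInf_le hX).trans hZX)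
    · left
      refine le_sInf fun X hX => ?_
      rcases tot hc hZ (hA hX) with h' | h'
      · exact h'
      · exact absurd ⟨X, hX, h'⟩ h
  refine ins hc (S.inf A (hA.trans hc.prop.1)) h1 fun n => ?_
  have h2 : (S.gm ^ n) (sInf A) = ⨅ X ∈ A, (S.gm ^ n) X := (S.gm ^ n).map_sInf A
  by_cases h : ∃ X ∈ A, (S.gm ^ n) X ≤ sInf A
  · obtain ⟨X, hX, h'⟩ := h
    right
    rw [h2]
    exact (iInf₂_le_of_le X hX le_rfl).trans h'
  · left
    rw [h2]
    refine le_iInf₂ fun X hX => ?_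
    rcases h1 _ (hc.prop.2.2 X (hA hX) n) with h' | h'
    · exact absurd ⟨X, hX, h'⟩ h
    · exact h'

theorem bot_mem (hc : Maximal S.IC c) : (⊥ : Submodule R V) ∈ c := by
  rw [← sSup_empty]
  exact sSup_mem hc (Set.empty_subset _)

theorem top_mem (hc : Maximal S.IC c) : (⊤ : Submodule R V) ∈ c := by
  rw [← sInf_empty]
  exact sInf_mem hc (Set.empty_subset _)

/-- adjacent members of the chain -/
def Adj (c : Set (Submodule R V)) (X X' : Submodule R V) : Prop :=
  X ∈ c ∧ X' ∈ c ∧ X < X' ∧ ∀ Z ∈ c, Z ≤ X ∨ X' ≤ Z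

theorem adj_gm (hc : Maximal S.IC c) {X X' : Submodule R V} (h : Adj c X X') (n : ℤ) :
    Adj c ((S.gm ^ n) X) ((S.gm ^ n) X') := by
  refine ⟨hc.prop.2.2 X h.1 n, hc.prop.2.2 X' h.2.1 n, (S.gm ^ n).strictMono h.2.2.1,
    fun Z hZ => ?_⟩
  have h4 : (S.gm ^ n) ((S.gm ^ (-n)) Z) = Z := by rw [S.zp, add_neg_cancel, S.zp0]
  rw [← h4]
  rcases h.2.2.2 _ (hc.prop.2.2 Z hZ (-n)) with h' | h'
  · exact Or.inl ((S.gm ^ n).monotone h')
  · exact Or.inr ((S.gm ^ n).monotone h')

/-- nothing can be inserted between adjacent members -/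
theorem adj_ins (hc : Maximal S.IC c) {X X' T : Submodule R V} (h : Adj c X X') (hT : T ∈ S.Dd)
    (h1 : X ≤ T) (h2 : T ≤ X') (h3 : ∀ n : ℤ, T ≤ (S.gm ^ n) T ∨ (S.gm ^ n) T ≤ T) :
    T = X ∨ T = X' := by
  have h4 : T ∈ c := by
    refine ins hc hT (fun Z hZ => ?_) h3
    rcases h.2.2.2 Z hZ with h' | h'
    · exact Or.inl (h'.trans h1)
    · exact Or.inr (h2.trans h')
  rcases h.2.2.2 T h4 with h' | h'
  · exact Or.inl (le_antisymm h' h1)
  · exact Or.inr (le_antisymm h2 h')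

/-- **the jumps are trivial** -/
theorem jump (hc : Maximal S.IC c) {X X' : Submodule R V} (h : Adj c X X') : S.D X' ≤ X := by
  have hXD : X ∈ S.Dd := hc.prop.1 h.1
  have hXD' : X' ∈ S.Dd := hc.prop.1 h.2.1
  have hgen1 : ∀ x : V, S.gen {x} = sInf {Y | Y ∈ S.Dd ∧ x ∈ Y} := by
    intro x
    simp [gen]
  refine S.D_el X' hXD' X hXD fun x hx => ?_
  rw [← hgen1]
  have hgx : S.gen {x} ≤ X' := S.gen_le hXD' (by simpa using hx)
  by_cases hxX : x ∈ X
  · exact (S.D_le _ (S.gen_mem _)).trans (S.gen_le hXD (by simpa using hxX))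
  by_cases hgX : S.gm X' = X'
  · -- the second case
    have hgX' : S.gm X = X := by
      have h1 := adj_gm hc h 1
      rw [S.zp1, S.zp1, hgX] at h1
      refine le_antisymm ?_ ?_
      · rcases h.2.2.2 _ h1.1 with h2 | h2
        · exact h2
        · exact absurd h2 (not_le_of_gt h1.2.2.1)
      · rcases h1.2.2.2 _ h.1 with h2 | h2
        · exact h2
        · exact absurd h2 (not_le_of_gt h.2.2.1)
    have hgXn : ∀ n : ℤ, (S.gm ^ n) X' = X' ∧ (S.gm ^ n) X = X := by
      have h1 : ∀ (Y : Submodule R V), S.gm Y = Y → ∀ n : ℕ, (S.gm ^ n) Y = Y := by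
        intro Y hY n
        induction n with
        | zero => rfl
        | succ n ih =>
          rw [pow_succ']
          show S.gm ((S.gm ^ n) Y) = Y
          rw [ih, hY]
      have h2 : ∀ (Y : Submodule R V), S.gm Y = Y → ∀ n : ℤ, (S.gm ^ n) Y = Y := by
        intro Y hY n
        obtain ⟨n, rfl | rfl⟩ := n.eq_nat_or_neg
        · rw [zpow_natCast]
          exact h1 Y hY n
        · have h3 : (S.gm ^ (-(n : ℤ))) ((S.gm ^ (n : ℤ)) Y) = Y := by
            rw [S.zp, neg_add_cancel, S.zp0]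
          rw [zpow_natCast, h1 Y hY n] at h3
          exact h3
      exact fun n => ⟨h2 X' hgX n, h2 X hgX' n⟩
    have hgxn : ∀ n : ℤ, (S.gm ^ n) (S.gen {x}) ≤ X' := by
      intro n
      have := (S.gm ^ n).monotone hgx
      rwa [(hgXn n).1] at this
    have hgxm : ∀ n : ℤ, (S.gm ^ n) (S.gen {x}) ∈ S.Dd := fun n => (S.gm_pow_mem n _).2 (S.gen_mem _)
    -- the sums over sets of integers
    let M : Set ℤ → Submodule R V := fun I => X ⊔ ⨆ i ∈ I, (S.gm ^ i) (S.gen {x})
    have hMm : ∀ I, M I ∈ S.Dd := by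
      intro I
      refine S.sup2 hXD ?_
      rw [← sSup_image]
      refine S.sup _ ?_
      rintro _ ⟨i, -, rfl⟩
      exact hgxm i
    have hM1 : ∀ I, X ≤ M I := fun I => le_sup_left
    have hM2 : ∀ I, M I ≤ X' := fun I => sup_le h.2.2.1.le (iSup₂_le fun i _ => hgxn i)
    have hMle : ∀ I i, i ∈ I → (S.gm ^ i) (S.gen {x}) ≤ M I := by
      intro I i hi
      have h1 : (S.gm ^ i) (S.gen {x}) ≤ ⨆ i ∈ I, (S.gm ^ i) (S.gen {x}) :=
        le_iSup₂_of_le (f := fun i (_ : i ∈ I) => (S.gm ^ i) (S.gen {x})) i hi le_rfl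
      exact h1.trans le_sup_right
    have hMgm : ∀ I (n : ℤ), (S.gm ^ n) (M I) = M ((fun i => n + i) '' I) := by
      intro I n
      show (S.gm ^ n) (X ⊔ ⨆ i ∈ I, (S.gm ^ i) (S.gen {x})) = X ⊔ _
      rw [OrderIso.map_sup, (hgXn n).2, OrderIso.map_iSup₂, iSup_image]
      congr 1
      refine iSup_congr fun i => iSup_congr fun _ => ?_
      rw [S.zp]
    have hMmono : ∀ I J, I ⊆ J → M I ≤ M J := fun I J hIJ =>
      sup_le_sup le_rfl (biSup_mono fun i hi => hIJ hi)
    -- the element is in the sums over the positive and over the negative integers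
    have hx1 : ∀ I : Set ℤ, I.Nonempty → (∀ n : ℤ, M I ≤ (S.gm ^ n) (M I) ∨ (S.gm ^ n) (M I) ≤ M I) →
        M I = X' := by
      intro I ⟨i, hi⟩ hcomp
      rcases adj_ins hc h (hMm I) (hM1 I) (hM2 I) hcomp with h1 | h1
      · exfalso
        have h2 := hMle I i hi
        rw [h1, ← (hgXn i).2] at h2
        have h3 : S.gen {x} ≤ X := (S.gm ^ i).le_iff_le.1 h2
        exact hxX (h3 (S.le_gen {x} rfl))
      · exact h1
    have hfin : ∀ I : Set ℤ, x ∈ M I → ∃ J : Set ℤ, J.Finite ∧ J ⊆ I ∧ x ∈ M J := by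
      intro I hxI
      by_cases hI : I.Nonempty
      · -- directed union over the finite subsets
        have hne : Nonempty {J : Set ℤ // J.Finite ∧ J ⊆ I} := ⟨⟨∅, Set.finite_empty, Set.empty_subset _⟩⟩
        have hdir : Directed (· ≤ ·) (fun J : {J : Set ℤ // J.Finite ∧ J ⊆ I} => M J.1) := by
          intro J K
          exact ⟨⟨J.1 ∪ K.1, J.2.1.union K.2.1, Set.union_subset J.2.2 K.2.2⟩,
            hMmono _ _ Set.subset_union_left, hMmono _ _ Set.subset_union_right⟩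
        have h1 : M I ≤ ⨆ J : {J : Set ℤ // J.Finite ∧ J ⊆ I}, M J.1 := by
          refine sup_le ?_ (iSup₂_le fun i hi => ?_)
          · exact (hM1 ∅).trans (le_iSup (fun J : {J : Set ℤ // J.Finite ∧ J ⊆ I} => M J.1)
              ⟨∅, Set.finite_empty, Set.empty_subset _⟩)
          · exact (hMle {i} i rfl).trans (le_iSup (fun J : {J : Set ℤ // J.Finite ∧ J ⊆ I} => M J.1)
              ⟨{i}, Set.finite_singleton i, by simpa using hi⟩)
        obtain ⟨J, hJ⟩ := (Submodule.mem_iSup_of_directed _ hdir).1 (h1 hxI)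
        exact ⟨J.1, J.2.1, J.2.2, hJ⟩
      · rw [Set.not_nonempty_iff_eq_empty] at hI
        exact ⟨∅, Set.finite_empty, Set.empty_subset _, hI ▸ hxI⟩
    have hpos : x ∈ M (Set.Ici 1) := by
      rw [hx1 (Set.Ici 1) ⟨1, Set.mem_Ici.2 le_rfl⟩ ?_]
      · exact hx
      · intro n
        rw [hMgm]
        rcases le_total 0 n with hn | hn
        · right
          refine hMmono _ _ ?_
          rintro _ ⟨i, hi, rfl⟩
          have : (1 : ℤ) ≤ i := hi
          show (1 : ℤ) ≤ n + i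
          omega
        · left
          refine hMmono _ _ ?_
          intro i hi
          have : (1 : ℤ) ≤ i := hi
          exact ⟨i - n, by show (1 : ℤ) ≤ i - n; omega, by show n + (i - n) = i; omega⟩
    have hneg : x ∈ M (Set.Iic (-1)) := by
      rw [hx1 (Set.Iic (-1)) ⟨-1, Set.mem_Iic.2 le_rfl⟩ ?_]
      · exact hx
      · intro n
        rw [hMgm]
        rcases le_total 0 n with hn | hn
        · left
          refine hMmono _ _ ?_
          intro i hi
          have : i ≤ (-1 : ℤ) := hi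
          exact ⟨i - n, by show i - n ≤ (-1 : ℤ); omega, by show n + (i - n) = i; omega⟩
        · right
          refine hMmono _ _ ?_
          rintro _ ⟨i, hi, rfl⟩
          have : i ≤ (-1 : ℤ) := hi
          show n + i ≤ (-1 : ℤ)
          omega
    obtain ⟨J1, hJ1, hJ1', hxJ1⟩ := hfin _ hpos
    obtain ⟨J2, hJ2, hJ2', hxJ2⟩ := hfin _ hneg
    obtain ⟨b1, hb1⟩ := hJ1.bddAbove
    obtain ⟨b2, hb2⟩ := hJ2.bddBelow
    obtain ⟨m, hm1, hm2, hm3⟩ : ∃ m : ℤ, b1 ≤ m ∧ -m ≤ b2 ∧ 1 ≤ m := ⟨max (max b1 (-b2)) 1,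
      le_trans (le_max_left _ _) (le_max_left _ _), by
        have h5 : -b2 ≤ max (max b1 (-b2)) 1 := le_trans (le_max_right _ _) (le_max_left _ _)
        omega, le_max_right _ _⟩
    have hxa : x ∈ M (Set.Icc 1 m) :=
      hMmono J1 (Set.Icc 1 m) (fun i hi => ⟨hJ1' hi, (hb1 hi).trans hm1⟩) hxJ1
    have hxb : x ∈ M (Set.Icc (-m) (-1)) :=
      hMmono J2 (Set.Icc (-m) (-1)) (fun i hi => ⟨hm2.trans (hb2 hi), hJ2' hi⟩) hxJ2
    have hga : S.gen {x} ≤ M (Set.Icc 1 m) := S.gen_le (hMm _) (by simpa using hxa)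
    have hgb : S.gen {x} ≤ M (Set.Icc (-m) (-1)) := S.gen_le (hMm _) (by simpa using hxb)
    have h01 : M (Set.Icc 0 m) ≤ M (Set.Icc 1 m) := by
      refine sup_le (hM1 _) (iSup₂_le fun i hi => ?_)
      rcases eq_or_lt_of_le hi.1 with h0 | h0
      · rw [← h0, S.zp0]
        exact hga
      · exact hMle _ i ⟨by omega, hi.2⟩
    have h02 : M (Set.Icc 0 m) ≤ M (Set.Icc 0 (m - 1)) := by
      refine sup_le (hM1 _) (iSup₂_le fun i hi => ?_)
      rcases eq_or_lt_of_le hi.2 with h0 | h0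
      · rw [h0]
        have h3 := (S.gm ^ m).monotone hgb
        rw [hMgm] at h3
        refine h3.trans (hMmono _ _ ?_)
        rintro _ ⟨j, hj, rfl⟩
        exact ⟨by show 0 ≤ m + j; have := hj.1; omega, by show m + j ≤ m - 1; have := hj.2; omega⟩
      · exact hMle _ i ⟨hi.1, by omega⟩
    obtain ⟨I, hI⟩ : ∃ I : Set ℤ, I = Set.Icc 0 (m - 1) := ⟨_, rfl⟩
    have hIfin : I.Finite := hI ▸ Set.finite_Icc _ _
    have hgI : S.gm (M I) = M I := by
      rw [← S.zp1, hMgm]
      have h3 : (fun i => (1 : ℤ) + i) '' I = Set.Icc 1 m := by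
        rw [hI]
        ext i
        constructor
        · rintro ⟨j, hj, rfl⟩
          exact ⟨by show (1 : ℤ) ≤ 1 + j; have := hj.1; omega,
            by show 1 + j ≤ m; have := hj.2; omega⟩
        · intro hi
          exact ⟨i - 1, ⟨by have := hi.1; omega, by have := hi.2; omega⟩, by show 1 + (i - 1) = i; omega⟩
      rw [h3, hI]
      refine le_antisymm ?_ ?_
      · exact (hMmono _ _ (Set.Icc_subset_Icc_left (by norm_num))).trans h02
      · exact (hMmono _ _ (Set.Icc_subset_Icc_right (by omega))).trans h01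
    have hMI : M I = X' := by
      refine hx1 I ⟨0, by rw [hI]; exact ⟨le_rfl, by omega⟩⟩ fun n => Or.inl ?_
      have h1 : ∀ n : ℕ, (S.gm ^ n) (M I) = M I := by
        intro n
        induction n with
        | zero => rfl
        | succ n ih =>
          rw [pow_succ']
          show S.gm ((S.gm ^ n) (M I)) = M I
          rw [ih, hgI]
      obtain ⟨n, rfl | rfl⟩ := n.eq_nat_or_neg
      · rw [zpow_natCast, h1]
      · have h3 : (S.gm ^ (-(n : ℤ))) ((S.gm ^ (n : ℤ)) (M I)) = M I := by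
          rw [S.zp, neg_add_cancel, S.zp0]
        rw [zpow_natCast, h1] at h3
        rw [h3]
    -- the operator
    by_contra hcon
    have hU := adj_ins hc h (S.sup2 hXD (S.D_mem X')) le_sup_left
      (sup_le h.2.2.1.le (S.D_le X' hXD')) (fun n => by
        left
        rw [OrderIso.map_sup, (hgXn n).2]
        refine sup_le_sup le_rfl ?_
        have h4 : ∀ (n : ℕ) (Y : Submodule R V), (S.gm ^ n) (S.D Y) = S.D ((S.gm ^ n) Y) := by
          intro n
          induction n with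
          | zero => intro Y; rfl
          | succ n ih =>
            intro Y
            rw [pow_succ]
            show (S.gm ^ n) (S.gm (S.D Y)) = S.D ((S.gm ^ n) (S.gm Y))
            rw [S.D_gm, ih]
        obtain ⟨n, rfl | rfl⟩ := n.eq_nat_or_neg
        · rw [zpow_natCast, h4, ← zpow_natCast, (hgXn n).1]
        · have h5 : (S.gm ^ (n : ℤ)) (S.D ((S.gm ^ (-(n : ℤ))) X')) = S.D X' := by
            rw [zpow_natCast, h4, ← zpow_natCast, S.zp, add_neg_cancel, S.zp0]
          rw [(hgXn _).1] at h5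
          have h6 : (S.gm ^ (-(n : ℤ))) ((S.gm ^ (n : ℤ)) (S.D X')) = S.D X' := by
            rw [S.zp, neg_add_cancel, S.zp0]
          rw [h5] at h6
          rw [h6])
    rcases hU with hU | hU
    · apply hcon
      exact (S.D_mono _ _ hgx).trans (le_sup_right.trans hU.le)
    · -- Nakayama
      have h4 : ∀ y : V, S.gm (S.gen {y}) = S.gen {S.γ y} := by
        intro y
        refine le_antisymm ?_ ?_
        · have h5 : S.gen {y} ≤ S.gm.symm (S.gen {S.γ y}) := by
            refine S.gen_le ?_ ?_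
            · rw [← S.gmD, OrderIso.apply_symm_apply]
              exact S.gen_mem _
            · intro z hz
              have hz' : z = y := hz
              rw [hz']
              show y ∈ S.gm.symm (S.gen {S.γ y})
              rw [← S.gm_mem, OrderIso.apply_symm_apply]
              exact S.le_gen {S.γ y} rfl
          have h6 := S.gm.monotone h5
          rwa [OrderIso.apply_symm_apply] at h6
        · refine S.gen_le ((S.gmD _).2 (S.gen_mem _)) ?_
          intro z hz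
          have hz' : z = S.γ y := hz
          rw [hz']
          exact (S.gm_mem _ _).2 (S.le_gen {y} rfl)
      have h5 : ∀ n : ℕ, (S.gm ^ n) (S.gen {x}) = S.gen {S.γ^[n] x} := by
        intro n
        induction n with
        | zero => rfl
        | succ n ih =>
          rw [pow_succ', Function.iterate_succ_apply', ← h4, ← ih]
          rfl
      obtain ⟨F, hF⟩ : ∃ F : Set V, F = (fun n : ℕ => S.γ^[n] x) '' Set.Iio m.toNat := ⟨_, rfl⟩
      have hXF : X' ≤ X ⊔ S.gen F := by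
        rw [← hMI]
        refine sup_le le_sup_left (iSup₂_le fun i hi => ?_)
        rw [hI] at hi
        obtain ⟨n, rfl⟩ : ∃ n : ℕ, i = n := ⟨i.toNat, by have := hi.1; omega⟩
        rw [zpow_natCast, h5]
        refine le_trans (S.gen_le (S.gen_mem F) ?_) le_sup_right
        intro z hz
        have hz' : z = S.γ^[n] x := hz
        rw [hz']
        refine S.le_gen F ?_
        rw [hF]
        exact ⟨n, by show n < m.toNat; have := hi.2; omega, rfl⟩
      have hFX : ∀ z ∈ F, z ∈ X' := by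
        intro z hz
        rw [hF] at hz
        obtain ⟨n, -, rfl⟩ := hz
        have h6 := hgxn n
        rw [zpow_natCast, h5] at h6
        exact h6 (S.le_gen _ rfl)
      have hX2 : X' ≤ X ⊔ S.D (S.gen F) := by
        have h6 : S.D X' ≤ X ⊔ S.D (S.gen F) :=
          (S.D_mono _ _ hXF).trans (S.D_sup X hXD _ (S.gen_mem F))
        calc X' = X ⊔ S.D X' := hU.symm
          _ ≤ X ⊔ S.D (S.gen F) := sup_le le_sup_left h6
      apply hxX
      refine S.nak X hXD F (by rw [hF]; exact (Set.finite_Iio _).image _) ?_ x ?_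
      · intro z hz
        exact hX2 (hFX z hz)
      · rw [hF]
        exact ⟨0, by show 0 < m.toNat; omega, rfl⟩
  · -- the first case
    have hgn : ∀ n : ℤ, n ≠ 0 → (S.gm ^ n) X' ≠ X' := by
      intro n hn heq
      rcases tot hc h.2.1 (hc.prop.2.2 X' h.2.1 1) with h1 | h1
      · rw [S.zp1] at h1
        have h2 : X' < S.gm X' := lt_of_le_of_ne h1 (Ne.symm hgX)
        obtain ⟨n, rfl | rfl⟩ := n.eq_nat_or_neg
        · have h3 := iter_lt S.gm h2 n (by omega)
          rw [zpow_natCast] at heq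
          exact absurd heq h3.ne'
        · have h3 := iter_lt S.gm h2 n (by omega)
          have h4 : (S.gm ^ (n : ℤ)) ((S.gm ^ (-(n : ℤ))) X') = X' := by
            rw [S.zp, add_neg_cancel, S.zp0]
          rw [heq, zpow_natCast] at h4
          exact absurd h4 h3.ne'
      · rw [S.zp1] at h1
        have h2 : S.gm X' < X' := lt_of_le_of_ne h1 hgX
        have h2' : X' < S.gm⁻¹ X' := by
          have h5 : S.gm (S.gm⁻¹ X') = X' := S.gm.apply_symm_apply X'
          rw [← h5] at h2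
          have h6 : S.gm⁻¹ (S.gm (S.gm (S.gm⁻¹ X'))) < S.gm⁻¹ (S.gm (S.gm⁻¹ X')) :=
            (S.gm⁻¹).strictMono h2
          have h7 : ∀ Y, S.gm⁻¹ (S.gm Y) = Y := fun Y => S.gm.symm_apply_apply Y
          rwa [h7, h7, h5] at h6
        have e : ∀ z : ℤ, S.gm ^ z = (S.gm⁻¹) ^ (-z) := by
          intro z
          rw [inv_zpow, ← zpow_neg, neg_neg]
        rw [e] at heq
        obtain ⟨n, rfl | rfl⟩ := n.eq_nat_or_neg
        · have h3 := iter_lt _ h2' n (by omega)
          have h4 : ((S.gm⁻¹) ^ (n : ℤ)) (((S.gm⁻¹) ^ (-(n : ℤ))) X') = X' := by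
            have h8 : (S.gm⁻¹) ^ (n : ℤ) * (S.gm⁻¹) ^ (-(n : ℤ)) = 1 := by
              rw [← zpow_add, add_neg_cancel, zpow_zero]
            exact DFunLike.congr_fun h8 X'
          rw [heq, zpow_natCast] at h4
          exact absurd h4 h3.ne'
        · have h3 := iter_lt _ h2' n (by omega)
          rw [neg_neg, zpow_natCast] at heq
          exact absurd heq h3.ne'
    have hcomp : ∀ T : Submodule R V, X ≤ T → T ≤ X' → ∀ n : ℤ,
        T ≤ (S.gm ^ n) T ∨ (S.gm ^ n) T ≤ T := by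
      intro T h1 h2 n
      by_cases hn : n = 0
      · subst hn
        left
        rw [S.zp0]
      · have h3 := adj_gm hc h n
        rcases h.2.2.2 _ h3.2.1 with h4 | h4
        · right
          exact ((S.gm ^ n).monotone h2).trans (h4.trans h1)
        · left
          rcases h3.2.2.2 _ h.2.1 with h5 | h5
          · exact h2.trans (h5.trans ((S.gm ^ n).monotone h1))
          · exact absurd (le_antisymm h5 h4) (hgn n hn)
    have hT := adj_ins hc h (S.sup2 hXD (S.D_mem (S.gen {x}))) le_sup_left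
      (sup_le h.2.2.1.le ((S.D_le _ (S.gen_mem _)).trans hgx)) (hcomp _ le_sup_left
        (sup_le h.2.2.1.le ((S.D_le _ (S.gen_mem _)).trans hgx)))
    rcases hT with hT | hT
    · exact le_sup_right.trans hT.le
    · exfalso
      apply hxX
      refine S.nak X hXD {x} (Set.finite_singleton x) ?_ x rfl
      intro y hy
      have hy' : y = x := hy
      rw [hy']
      have h5 : x ∈ X ⊔ S.D (S.gen {x}) := by rw [hT]; exact hx
      exact h5

end Sys

end Pool.Agent.Zk7.FJ
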