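import Mathlib

/-!
# Orbits of an order automorphism, and finite preorders
-/

set_option autoImplicit false

namespace Pool.Agent.Zk7.FJ

section ord

variable {L : Type} [PartialOrder L]

theorem iter_le (σ : L ≃o L) {x : L} (h : x ≤ σ x) (n : ℕ) : x ≤ (σ ^ n) x := by
  induction n with
  | zero => exact le_rfl
  | succ n ih =>
    rw [pow_succ']
    exact h.trans (σ.monotone ih)

theorem iter_ge (σ : L ≃o L) {x : L} (h : σ x ≤ x) (n : ℕ) : (σ ^ n) x ≤ x := by
  induction n with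
  | zero => exact le_rfl
  | succ n ih =>
    rw [pow_succ']
    exact (σ.monotone ih).trans h

theorem iter_lt (σ : L ≃o L) {x : L} (h : x < σ x) (n : ℕ) (hn : 0 < n) : x < (σ ^ n) x := by
  obtain ⟨n, rfl⟩ : ∃ l, n = l + 1 := ⟨n - 1, by omega⟩
  rw [pow_succ']
  exact h.trans_le (σ.monotone (iter_le σ h.le n))

/-- the case `k > 0` -/
theorem core_pos (σ : L ≃o L) {a c : L} {n m : ℤ} (h1 : a ≤ (σ ^ n) a) (h2 : (σ ^ m) c ≤ c)
    (h3 : a < (σ ^ (m - n)) a) (h4 : c < (σ ^ (m - n)) c) (hk : 0 < m - n) : False := by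
  obtain ⟨k, hk'⟩ : ∃ k : ℕ, m - n = k := ⟨(m - n).toNat, by omega⟩
  have hk0 : 0 < k := by omega
  rw [hk'] at h3 h4
  rw [zpow_natCast] at h3 h4
  rcases lt_or_ge 0 m with hm | hm
  · obtain ⟨p, hp⟩ : ∃ p : ℕ, m = p := ⟨m.toNat, by omega⟩
    rw [hp, zpow_natCast] at h2
    have h5 := iter_ge _ h2 k
    have h6 := iter_lt _ h4 p (by omega)
    rw [← pow_mul] at h5 h6
    rw [mul_comm] at h6
    exact absurd (h6.trans_le h5) (lt_irrefl _)
  · obtain ⟨q, hq⟩ : ∃ q : ℕ, -n = q := ⟨(-n).toNat, by omega⟩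
    have h5 : (σ ^ q) a ≤ a := by
      have h6 := (σ ^ q).monotone h1
      have h7 : (σ ^ q) ((σ ^ n) a) = a := by
        have h8 : σ ^ (q : ℤ) * σ ^ n = 1 := by
          rw [← zpow_add, ← hq, neg_add_cancel, zpow_zero]
        rw [zpow_natCast] at h8
        exact DFunLike.congr_fun h8 a
      rwa [h7] at h6
    have h6 := iter_ge _ h5 k
    have h7 := iter_lt _ h3 q (by omega)
    rw [← pow_mul] at h6 h7
    rw [mul_comm] at h7
    exact absurd (h7.trans_le h6) (lt_irrefl _)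

/-- **the combinatorial lemma** -/
theorem core (σ : L ≃o L) {a c : L} {n m : ℤ} (h1 : a ≤ (σ ^ n) a) (h2 : (σ ^ m) c ≤ c)
    (h3 : a < (σ ^ (m - n)) a) (h4 : c < (σ ^ (m - n)) c) : False := by
  rcases lt_trichotomy 0 (m - n) with hk | hk | hk
  · exact core_pos σ h1 h2 h3 h4 hk
  · rw [← hk, zpow_zero] at h4
    exact absurd h4 (lt_irrefl _)
  · have e : ∀ z : ℤ, σ ^ z = (σ⁻¹) ^ (-z) := by
      intro z
      rw [inv_zpow, ← zpow_neg, neg_neg]
    rw [e] at h1 h2 h3 h4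
    rw [neg_sub] at h3 h4
    have e2 : n - m = -m - -n := by ring
    rw [e2] at h3 h4
    exact core_pos σ⁻¹ h1 h2 h3 h4 (by omega)

end ord

/-! ### counting in a finite preorder -/

section cnt

variable {T : Type} (Pf : Finset T) (R : T → T → Prop)

/-- the number of elements of `Pf` below an element -/
noncomputable def cnt (x : T) : ℕ := by
  classical
  exact (Pf.filter (fun y => R y x)).card

variable {Pf} {R}

theorem cnt_mono (htr : ∀ x y z, R x y → R y z → R x z) {x y : T} (h : R x y) :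
    cnt Pf R x ≤ cnt Pf R y := by
  classical
  refine Finset.card_le_card fun z hz => ?_
  rw [Finset.mem_filter] at hz ⊢
  exact ⟨hz.1, htr _ _ _ hz.2 h⟩

theorem cnt_lt (htr : ∀ x y z, R x y → R y z → R x z) (hrf : ∀ x, R x x) {x y : T} (hy : y ∈ Pf)
    (h : R x y) (h' : ¬ R y x) : cnt Pf R x < cnt Pf R y := by
  classical
  refine Finset.card_lt_card ?_
  rw [Finset.ssubset_iff_of_subset]
  · exact ⟨y, Finset.mem_filter.2 ⟨hy, hrf y⟩, fun h2 => h' (Finset.mem_filter.1 h2).2⟩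
  · intro z hz
    rw [Finset.mem_filter] at hz ⊢
    exact ⟨hz.1, htr _ _ _ hz.2 h⟩

theorem cnt_pos (hrf : ∀ x, R x x) {x : T} (hx : x ∈ Pf) : 0 < cnt Pf R x := by
  classical
  exact Finset.card_pos.2 ⟨x, Finset.mem_filter.2 ⟨hx, hrf x⟩⟩

theorem cnt_le (x : T) : cnt Pf R x ≤ Pf.card := by
  classical
  exact Finset.card_le_card (Finset.filter_subset _ _)

end cnt

end Pool.Agent.Zk7.FJ
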