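import Mathlib

/-!
# Crossed homomorphisms to groups of functions
-/

set_option autoImplicit false

namespace Pool.Agent.Zk7.FJ

/-! ### groups of functions on a group with the translations -/

section sh

variable {Q : Type} [Group Q] {D : Type} [Group D]

/-- translation of functions -/
def shE (q : Q) : (Q → D) ≃* (Q → D) where
  toFun F := fun ω => F (ω * q)
  invFun F := fun ω => F (ω * q⁻¹)
  left_inv F := by ext ω; simp
  right_inv F := by ext ω; simp
  map_mul' F G := rfl

/-- the translations act on the group of functions -/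
def sh : Q →* MulAut (Q → D) where
  toFun := shE
  map_one' := by
    apply MulEquiv.ext
    intro F
    funext ω
    show F (ω * 1) = F ω
    rw [mul_one]
  map_mul' p q := by
    apply MulEquiv.ext
    intro F
    funext ω
    show F (ω * (p * q)) = F (ω * p * q)
    rw [mul_assoc]

theorem sh_apply (q : Q) (F : Q → D) (ω : Q) : sh q F ω = F (ω * q) := rfl

theorem sh_mul_apply (p q : Q) (F : Q → D) : sh (p * q) F = sh p (sh q F) := by
  rw [map_mul]
  rfl

theorem sh_one_apply (F : Q → D) : sh (1 : Q) F = F := by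
  rw [map_one]
  rfl

end sh

/-! ### the crossed homomorphism of an extension -/

section cr

variable {P Q D : Type} [Group P] [Group Q] [Group D]

/-- **the crossed homomorphism** which extends a homomorphism on the kernel -/
theorem ex_cr (f : P →* Q) (ι : f.ker →* D) :
    ∃ δ : P → Q → D, (∀ p p', δ (p * p') = δ p * sh (f p) (δ p')) ∧
      ∀ ω : Q, ∃ s : P, ∀ m : f.ker, δ m ω =
        ι ⟨s * m * s⁻¹, f.normal_ker.conj_mem m m.2 s⟩ := by
  classical
  have h1 : ∀ ω : Q, ∃ s : P, f s = ((QuotientGroup.mk ω : Q ⧸ f.range).out)⁻¹ * ω := by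
    intro ω
    have h2 : (QuotientGroup.mk ((QuotientGroup.mk ω : Q ⧸ f.range).out) : Q ⧸ f.range) =
        QuotientGroup.mk ω := Quotient.out_eq _
    exact QuotientGroup.eq.1 h2
  choose s hs using h1
  have hrep : ∀ (ω : Q) (p : P), (QuotientGroup.mk (ω * f p) : Q ⧸ f.range) =
      QuotientGroup.mk ω := by
    intro ω p
    rw [eq_comm, QuotientGroup.eq, inv_mul_cancel_left]
    exact ⟨p, rfl⟩
  have hk : ∀ (ω : Q) (p : P), s ω * p * (s (ω * f p))⁻¹ ∈ f.ker := by
    intro ω p
    rw [MonoidHom.mem_ker, map_mul, map_mul, map_inv, hs, hs, hrep]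
    group
  refine ⟨fun p ω => ι ⟨s ω * p * (s (ω * f p))⁻¹, hk ω p⟩, ?_, ?_⟩
  · intro p p'
    funext ω
    rw [Pi.mul_apply, sh_apply]
    show ι _ = ι _ * ι _
    rw [← map_mul]
    congr 1
    apply Subtype.ext
    show s ω * (p * p') * (s (ω * f (p * p')))⁻¹ = (s ω * p * (s (ω * f p))⁻¹) *
      (s (ω * f p) * p' * (s (ω * f p * f p'))⁻¹)
    rw [map_mul, ← mul_assoc ω]
    group
  · intro ω
    refine ⟨s ω, fun m => ?_⟩
    have h2 : f (m : P) = 1 := m.2
    show ι ⟨s ω * m * (s (ω * f m))⁻¹, hk ω m⟩ = _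
    congr 1
    apply Subtype.ext
    show s ω * (m : P) * (s (ω * f m))⁻¹ = s ω * (m : P) * (s ω)⁻¹
    rw [h2, mul_one]

end cr

/-! ### divisible groups of coefficients -/

/-- homomorphisms from subgroups of commutative groups extend -/
def EP (D : Type) [CommGroup D] : Prop :=
  ∀ (S A : Type) [Group S] [CommGroup A] (α : S →* A) (β : S →* D), α.ker ≤ β.ker →
    ∃ e : A →* D, ∀ s, e (α s) = β s

theorem ep_mul (D : Type) [AddCommGroup D] [DivisibleBy D ℤ] : EP (Multiplicative D) := by
  intro S A _ _ α β h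
  -- the homomorphism on the range
  let β' : α.range →* Multiplicative D :=
    (QuotientGroup.lift α.ker β (fun x hx => h hx)).comp
      (QuotientGroup.quotientKerEquivRange α).symm.toMonoidHom
  have hβ' : ∀ s, β' ⟨α s, s, rfl⟩ = β s := by
    intro s
    have h1 : (QuotientGroup.quotientKerEquivRange α).symm ⟨α s, s, rfl⟩ =
        (QuotientGroup.mk s : S ⧸ α.ker) := by
      rw [MulEquiv.symm_apply_eq]
      rfl
    show QuotientGroup.lift α.ker β (fun x hx => h hx)
      ((QuotientGroup.quotientKerEquivRange α).symm ⟨α s, s, rfl⟩) = β s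
    rw [h1]
    rfl
  obtain ⟨e, he⟩ := (Module.Baer.of_divisible D).extension_property_addMonoidHom
    (MonoidHom.toAdditive α.range.subtype) (fun x y hxy => Subtype.ext hxy)
    (MonoidHom.toAdditive β' : Additive α.range →+ D)
  refine ⟨AddMonoidHom.toMultiplicative e, fun s => ?_⟩
  rw [← hβ']
  have h2 := DFunLike.congr_fun he (Additive.ofMul (⟨α s, s, rfl⟩ : α.range))
  exact h2

/-- every commutative quotient embeds in a group of coefficients -/
theorem ex_coeff (M : Type) [Group M] (M' : Subgroup M) [M'.Normal]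
    (hab : ∀ a b : M, a * b * a⁻¹ * b⁻¹ ∈ M') :
    ∃ (D : Type) (_ : CommGroup D) (ι : M →* D), EP D ∧ ι.ker = M' := by
  let _ : CommGroup (M ⧸ M') :=
    { (inferInstance : Group (M ⧸ M')) with
      mul_comm := by
        intro a b
        obtain ⟨a, rfl⟩ := QuotientGroup.mk_surjective a
        obtain ⟨b, rfl⟩ := QuotientGroup.mk_surjective b
        rw [← QuotientGroup.mk_mul, ← QuotientGroup.mk_mul, QuotientGroup.eq]
        have := hab b⁻¹ a⁻¹
        simpa [mul_assoc] using this }
  let X : Type := Additive (M ⧸ M')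
  let ev : X →+ (CharacterModule X → AddCircle (1 : ℚ)) :=
    { toFun := fun x c => c x
      map_zero' := by ext c; exact map_zero c
      map_add' := fun x y => by ext c; exact map_add c x y }
  have hev : ∀ x, ev x = 0 → x = 0 := by
    intro x hx
    exact CharacterModule.eq_zero_of_character_apply fun c => congrFun hx c
  refine ⟨Multiplicative (CharacterModule X → AddCircle (1 : ℚ)), inferInstance,
    (AddMonoidHom.toMultiplicative ev).comp (QuotientGroup.mk' M'), ep_mul _, ?_⟩
  ext m
  rw [MonoidHom.mem_ker]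
  constructor
  · intro h
    have h1 : ev (Additive.ofMul (QuotientGroup.mk m : M ⧸ M')) = 0 := h
    exact (QuotientGroup.eq_one_iff m).1 (hev _ h1)
  · intro h
    have h1 : (QuotientGroup.mk m : M ⧸ M') = 1 := (QuotientGroup.eq_one_iff m).2 h
    have h2 : ev (Additive.ofMul (QuotientGroup.mk m : M ⧸ M')) = 0 := by
      rw [h1]
      exact map_zero ev
    exact h2

/-! ### equivariant extensions and cocycles -/

section eq

variable {Q D : Type} [Group Q] [CommGroup D]

/-- equivariant homomorphisms to groups of functions extend -/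
theorem ex_equi (hD : EP D) (L : Subgroup Q) {S : Type} [Group S] (α β : S →* (Q → D))
    (hker : α.ker ≤ β.ker)
    (hst : ∀ l ∈ L, ∀ s, ∃ s', sh l (α s) = α s' ∧ sh l (β s) = β s') :
    ∃ F : (Q → D) →* (Q → D), (∀ l ∈ L, ∀ a, F (sh l a) = sh l (F a)) ∧ ∀ s, F (α s) = β s := by
  classical
  have h1 : ∀ r : Q, ∃ e : (Q → D) →* D, ∀ s, e (α s) = β s r := by
    intro r
    refine hD S (Q → D) α ((Pi.evalMonoidHom (fun _ : Q => D) r).comp β) fun x hx => ?_
    have h2 : β x = 1 := hker hx
    show β x r = 1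
    rw [h2]
    rfl
  choose e he using h1
  let r : Q → Q := fun ω => (QuotientGroup.mk ω : Q ⧸ L).out
  have hr : ∀ ω, (r ω)⁻¹ * ω ∈ L := by
    intro ω
    have h2 : (QuotientGroup.mk (r ω) : Q ⧸ L) = QuotientGroup.mk ω := Quotient.out_eq _
    exact QuotientGroup.eq.1 h2
  have hrl : ∀ ω, ∀ l ∈ L, r (ω * l) = r ω := by
    intro ω l hl
    have h2 : (QuotientGroup.mk (ω * l) : Q ⧸ L) = QuotientGroup.mk ω := by
      rw [eq_comm, QuotientGroup.eq, inv_mul_cancel_left]
      exact hl
    show (QuotientGroup.mk (ω * l) : Q ⧸ L).out = (QuotientGroup.mk ω : Q ⧸ L).out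
    rw [h2]
  refine ⟨{ toFun := fun a ω => e (r ω) (sh ((r ω)⁻¹ * ω) a)
            map_one' := by ext ω; simp
            map_mul' := fun a b => by ext ω; simp }, ?_, ?_⟩
  · intro l hl a
    funext ω
    show e (r ω) (sh ((r ω)⁻¹ * ω) (sh l a)) = e (r (ω * l)) (sh ((r (ω * l))⁻¹ * (ω * l)) a)
    rw [hrl ω l hl, ← sh_mul_apply, mul_assoc]
  · intro s
    funext ω
    show e (r ω) (sh ((r ω)⁻¹ * ω) (α s)) = β s ω
    obtain ⟨s', h1, h2⟩ := hst _ (hr ω) s
    rw [h1, he, ← h2, sh_apply, mul_inv_cancel_left]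

/-- crossed homomorphisms to groups of functions are principal -/
theorem ex_prin {H : Type} [Group H] (f : H →* Q) (c : H → Q → D)
    (hc : ∀ h h', c (h * h') = c h * sh (f h) (c h')) (h1 : ∀ h, f h = 1 → c h = 1) :
    ∃ v : Q → D, ∀ h, c h = v * (sh (f h) v)⁻¹ := by
  classical
  let L : Subgroup Q := f.range
  let r : Q → Q := fun ω => (QuotientGroup.mk ω : Q ⧸ L).out
  have hr : ∀ ω, ∃ x : H, f x = (r ω)⁻¹ * ω := by
    intro ω
    have h2 : (QuotientGroup.mk (r ω) : Q ⧸ L) = QuotientGroup.mk ω := Quotient.out_eq _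
    exact QuotientGroup.eq.1 h2
  choose x hx using hr
  have hrl : ∀ ω h, r (ω * f h) = r ω := by
    intro ω h
    have h2 : (QuotientGroup.mk (ω * f h) : Q ⧸ L) = QuotientGroup.mk ω := by
      rw [eq_comm, QuotientGroup.eq, inv_mul_cancel_left]
      exact ⟨h, rfl⟩
    show (QuotientGroup.mk (ω * f h) : Q ⧸ L).out = (QuotientGroup.mk ω : Q ⧸ L).out
    rw [h2]
  have hdep : ∀ a b : H, f a = f b → c a = c b := by
    intro a b hab
    have h2 : c (a * (a⁻¹ * b)) = c a * sh (f a) (c (a⁻¹ * b)) := hc _ _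
    rw [mul_inv_cancel_left, h1 (a⁻¹ * b) (by rw [map_mul, map_inv, hab, inv_mul_cancel]),
      map_one, mul_one] at h2
    exact h2.symm
  refine ⟨fun ω => (c (x ω) (r ω))⁻¹, fun h => ?_⟩
  funext ω
  rw [Pi.mul_apply, Pi.inv_apply, sh_apply, hrl, inv_inv]
  have h2 : c (x (ω * f h)) = c (x ω * h) := by
    apply hdep
    rw [hx, hrl, map_mul, hx, mul_assoc]
  rw [h2, hc, Pi.mul_apply, sh_apply, hx, mul_inv_cancel_left, inv_mul_cancel_left]

end eq

end Pool.Agent.Zk7.FJ
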