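import Pool.Agent.Zk7.FJ.Fin

/-!
# The criterion for kernels with invariant series
-/

set_option autoImplicit false

namespace Pool.Agent.Zk7.FJ

open Pool.Agent.Y110.FJ
open Pool.Agent.Y462.SS (Closed)

variable {C : ∀ (G : Type) [Group G], Prop}

section crit

variable {G : Type} [Group G]

/-- the subgroup generated by `E` and `g E g⁻¹` -/
abbrev Win (g : G) (E : Set G) : Subgroup G :=
  Subgroup.closure (E ∪ (fun x => g * x * g⁻¹) '' E)

/-- An increasing sequence of subgroups `S 0 ≤ S 1 ≤ ...`, which are invariant under the conjugations by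
`g` and by the elements of `E`, *resolves* the subgroup `P` generated by `E` and `g E g⁻¹` in `k` steps,
if `S 0` meets `P` trivially, `S k` contains `P`, and for all `i < k` the group
`(P ∩ S (i+1)) / (P ∩ S i)` is commutative or finite. -/
structure Resolves (g : G) (E : Set G) (k : ℕ) (S : ℕ → Subgroup G) : Prop where
  mono : ∀ i, S i ≤ S (i + 1)
  top : E ⊆ S k
  conj : ∀ i, ∀ x ∈ S i, g * x * g⁻¹ ∈ S i ∧ g⁻¹ * x * g ∈ S i
  conjE : ∀ i, ∀ e ∈ E, ∀ x ∈ S i, e * x * e⁻¹ ∈ S i ∧ e⁻¹ * x * e ∈ S i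
  bot : ∀ x ∈ Win g E, x ∈ S 0 → x = 1
  step : ∀ i < k, (∀ x ∈ Win g E, ∀ y ∈ Win g E, x ∈ S (i + 1) → y ∈ S (i + 1) →
      x * y * x⁻¹ * y⁻¹ ∈ S i) ∨
    (S i).relIndex (Win g E ⊓ S (i + 1)) ≠ 0

variable {g : G} {E : Set G} {k : ℕ} {S : ℕ → Subgroup G}

theorem Resolves.conj_iff (h : Resolves g E k S) (i : ℕ) (x : G) : g * x * g⁻¹ ∈ S i ↔ x ∈ S i := by
  constructor
  · intro hx
    have h1 := (h.conj i _ hx).2
    have h2 : g⁻¹ * (g * x * g⁻¹) * g = x := by group
    rwa [h2] at h1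
  · intro hx
    exact (h.conj i x hx).1

theorem Resolves.norm (h : Resolves g E k S) (i : ℕ) : Win g E ≤ Subgroup.normalizer (S i : Set G) := by
  have h0 : ∀ e ∈ E, ∀ x, x ∈ S i ↔ e * x * e⁻¹ ∈ S i := by
    intro e he x
    constructor
    · intro hx
      exact (h.conjE i e he x hx).1
    · intro hx
      have h1 := (h.conjE i e he _ hx).2
      have h2 : e⁻¹ * (e * x * e⁻¹) * e = x := by group
      rwa [h2] at h1
  rw [Subgroup.closure_le]
  rintro e (he | ⟨e, he, rfl⟩)
  · exact Subgroup.mem_normalizer_iff.2 (h0 e he)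
  · refine Subgroup.mem_normalizer_iff.2 fun x => ?_
    have h1 : x ∈ S i ↔ g⁻¹ * x * g ∈ S i := by
      rw [← h.conj_iff i (g⁻¹ * x * g)]
      have h2 : g * (g⁻¹ * x * g) * g⁻¹ = x := by group
      rw [h2]
    show x ∈ S i ↔ g * e * g⁻¹ * x * (g * e * g⁻¹)⁻¹ ∈ S i
    rw [h1, h0 e he, ← h.conj_iff i (e * (g⁻¹ * x * g) * e⁻¹)]
    have h3 : g * (e * (g⁻¹ * x * g) * e⁻¹) * g⁻¹ = g * e * g⁻¹ * x * (g * e * g⁻¹)⁻¹ := by group
    rw [h3]

/-- **the criterion** -/
theorem crit (hC : ClosedE C)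
    (hmet : ∀ (S : Type) [Group S], (∀ a ∈ commutator S, ∀ b ∈ commutator S, a * b = b * a) → C S)
    (N : Subgroup G) [N.Normal] (hQ : C (G ⧸ N))
    (h : ∀ (g : G) (E : Set G), E.Finite → E ⊆ N →
      ∃ (k : ℕ) (S : ℕ → Subgroup G), Resolves g E k S) : C G := by
  refine Pool.Agent.R779.FJ.t_crit Pool.Agent.Y529.FJ.t_ext
    (Pool.Agent.Y961.FJ.t_perm Pool.Agent.Y529.FJ.t_ext) C hC G N hQ ?_
  intro g E hE hEN
  obtain ⟨k, S, hS⟩ := h g E hE hEN
  have hcl : ∀ x ∈ Subgroup.closure E, g * x * g⁻¹ ∈ Win g E := by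
    intro x hx
    have h1 : (Subgroup.closure E).map (MulAut.conj g).toMonoidHom ≤ Win g E := by
      rw [MonoidHom.map_closure]
      exact Subgroup.closure_mono Set.subset_union_right
    exact h1 ⟨x, hx, rfl⟩
  let H : Subgroup (Win g E) := (Subgroup.closure E).subgroupOf (Win g E)
  let φ : H →* Win g E :=
    { toFun := fun h => ⟨g * ((h : Win g E) : G) * g⁻¹, hcl _ h.2⟩
      map_one' := by
        apply Subtype.ext
        show g * (((1 : H) : Win g E) : G) * g⁻¹ = 1
        rw [Subgroup.coe_one, Subgroup.coe_one]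
        group
      map_mul' := fun a b => by
        apply Subtype.ext
        show g * (((a * b : H) : Win g E) : G) * g⁻¹ =
          (g * ((a : Win g E) : G) * g⁻¹) * (g * ((b : Win g E) : G) * g⁻¹)
        rw [Subgroup.coe_mul, Subgroup.coe_mul]
        group }
  have hnor : ∀ i, ((S i).subgroupOf (Win g E)).Normal := by
    intro i
    refine ⟨fun n hn x => ?_⟩
    have h1 := Subgroup.mem_normalizer_iff.1 (hS.norm i x.2) (n : G)
    exact h1.1 hn
  have hcompat : ∀ i, ∀ h : H, (h : Win g E) ∈ (S i).subgroupOf (Win g E) ↔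
      φ h ∈ (S i).subgroupOf (Win g E) := by
    intro i h
    exact (hS.conj_iff i _).symm
  have htop : (S k).subgroupOf (Win g E) = ⊤ := by
    rw [Subgroup.subgroupOf_eq_top, Subgroup.closure_le]
    rintro x (hx | ⟨x, hx, rfl⟩)
    · exact hS.top hx
    · exact (hS.conj k x (hS.top hx)).1
  have key : ∀ j ≤ k, Rz C H φ ((S (k - j)).subgroupOf (Win g E)) := by
    intro j
    induction j with
    | zero =>
      intro _
      rw [Nat.sub_zero, htop]
      refine ⟨PUnit, inferInstance, 1, 1, Pool.Agent.Y430.SS.of_finite hC.base _ inferInstance, ?_,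
        fun h => rfl⟩
      rw [MonoidHom.ker_one]
    | succ j ih =>
      intro hj
      have h1 := ih (by omega)
      obtain ⟨i, hi⟩ : ∃ i, i = k - (j + 1) := ⟨_, rfl⟩
      have h2 : k - j = i + 1 := by omega
      rw [← hi]
      rw [h2] at h1
      have hle : (S i).subgroupOf (Win g E) ≤ (S (i + 1)).subgroupOf (Win g E) :=
        Subgroup.comap_mono (hS.mono i)
      have hn := hnor i
      rcases hS.step i (by omega) with h3 | h3
      · refine step_ab hC hmet hle ?_ (hcompat i) h1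
        intro x hx y hy
        exact h3 x x.2 y y.2 hx hy
      · refine step_fin hC hle ?_ (hcompat i) h1
        have h4 : (((S i).subgroupOf (Win g E)).relIndex ((S (i + 1)).subgroupOf (Win g E))) =
            (S i).relIndex (Win g E ⊓ S (i + 1)) := by
          show ((S i).comap (Win g E).subtype).relIndex _ = _
          rw [Subgroup.relIndex_comap, Subgroup.subgroupOf_map_subtype, inf_comm]
        rw [h4]
        exact h3
  obtain ⟨Q, _, f, t, hCQ, hf, hft⟩ := key k le_rfl
  rw [Nat.sub_self] at hf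
  have hinj : Function.Injective f := by
    rw [injective_iff_map_eq_one]
    intro x hx
    have h1 : x ∈ f.ker := hx
    rw [hf] at h1
    exact Subtype.ext (hS.bot x x.2 h1)
  refine ⟨Q, inferInstance, f, t, hCQ, hinj, ?_⟩
  intro x y hx hy
  have h1 := hft ⟨x, Subgroup.subset_closure hx⟩
  have h2 : φ ⟨x, Subgroup.subset_closure hx⟩ = y := Subtype.ext hy.symm
  rw [h2] at h1
  exact h1

end crit

end Pool.Agent.Zk7.FJ
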