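import Pool.Agent.Zk7.FJ.Step

/-!
# Realization of partial automorphisms: steps with finite kernel
-/

set_option autoImplicit false

namespace Pool.Agent.Zk7.FJ

open Pool.Agent.Y110.FJ
open Pool.Agent.Y462.SS (Closed)

variable {C : ∀ (G : Type) [Group G], Prop}

/-- the right regular representation -/
def rreg (K : Type) [Group K] : K →* Equiv.Perm K where
  toFun k := Equiv.mulRight k⁻¹
  map_one' := by ext x; simp
  map_mul' k l := by ext x; simp [mul_assoc]

theorem rreg_apply {K : Type} [Group K] (k x : K) : rreg K k x = x * k⁻¹ := rfl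

theorem rreg_injective (K : Type) [Group K] : Function.Injective (rreg K) := by
  intro k l hkl
  have h1 : rreg K k 1 = rreg K l 1 := by rw [hkl]
  simpa [rreg_apply] using h1

/-- isomorphic subgroups are conjugate in the regular representation -/
theorem rreg_conj' {K : Type} [Group K] [Finite K] (A B : Subgroup K) (φ : A ≃* B) :
    ∃ p : Equiv.Perm K, ∀ a : A, rreg K (φ a : K) = p * rreg K a * p⁻¹ := by
  classical
  have hcard : Nat.card (K ⧸ A) = Nat.card (K ⧸ B) := by
    have h1 := Subgroup.card_eq_card_quotient_mul_card_subgroup A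
    have h2 := Subgroup.card_eq_card_quotient_mul_card_subgroup B
    have h3 : Nat.card A = Nat.card B := Nat.card_congr φ.toEquiv
    have h4 : 0 < Nat.card B := Nat.card_pos
    rw [h3] at h1
    exact Nat.eq_of_mul_eq_mul_right h4 (h1.symm.trans h2)
  let e : K ⧸ A ≃ K ⧸ B := (Finite.equivFinOfCardEq hcard).trans (Finite.equivFin _).symm
  have hout : ∀ x : K, ((QuotientGroup.mk x : K ⧸ A).out)⁻¹ * x ∈ A := by
    intro x
    have h1 : (QuotientGroup.mk ((QuotientGroup.mk x : K ⧸ A).out) : K ⧸ A) = QuotientGroup.mk x :=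
      Quotient.out_eq _
    exact QuotientGroup.eq.1 h1
  let r : K → A := fun x => ⟨((QuotientGroup.mk x : K ⧸ A).out)⁻¹ * x, hout x⟩
  have hr : ∀ x, x = (QuotientGroup.mk x : K ⧸ A).out * (r x : K) := fun x => by
    show x = _ * (_⁻¹ * x)
    group
  let p0 : K → K := fun x => (e (QuotientGroup.mk x)).out * (φ (r x) : K)
  have hp1 : ∀ x, (QuotientGroup.mk (p0 x) : K ⧸ B) = e (QuotientGroup.mk x) := by
    intro x
    have h1 : (QuotientGroup.mk (p0 x) : K ⧸ B) =
        QuotientGroup.mk ((e (QuotientGroup.mk x)).out) := by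
      rw [QuotientGroup.eq]
      show ((e (QuotientGroup.mk x)).out * (φ (r x) : K))⁻¹ * (e (QuotientGroup.mk x)).out ∈ B
      rw [mul_inv_rev, mul_assoc, inv_mul_cancel, mul_one]
      exact inv_mem (φ (r x)).2
    rw [h1]
    exact Quotient.out_eq _
  have hinj : Function.Injective p0 := by
    intro x y hxy
    have h1 : (QuotientGroup.mk x : K ⧸ A) = QuotientGroup.mk y :=
      e.injective (by rw [← hp1 x, ← hp1 y, hxy])
    have h2 : (φ (r x) : K) = φ (r y) := by
      have h3 : p0 x = p0 y := hxy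
      simp only [p0, h1] at h3
      exact mul_left_cancel h3
    have h4 : r x = r y := φ.injective (Subtype.ext h2)
    rw [hr x, hr y, h1, h4]
  let p : Equiv.Perm K := Equiv.ofBijective p0 (Finite.injective_iff_bijective.1 hinj)
  have hp : ∀ x, p x = p0 x := fun x => rfl
  refine ⟨p, fun a => ?_⟩
  rw [eq_mul_inv_iff_mul_eq]
  ext x
  show rreg K (φ a : K) (p x) = p (rreg K a x)
  rw [rreg_apply, rreg_apply, hp, hp]
  have h1 : (QuotientGroup.mk (x * (a : K)⁻¹) : K ⧸ A) = QuotientGroup.mk x := by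
    rw [QuotientGroup.eq]
    simp
  have h2 : r (x * (a : K)⁻¹) = r x * a⁻¹ := by
    apply Subtype.ext
    show ((QuotientGroup.mk (x * (a : K)⁻¹) : K ⧸ A).out)⁻¹ * (x * (a : K)⁻¹) =
      ((QuotientGroup.mk x : K ⧸ A).out)⁻¹ * x * (a : K)⁻¹
    rw [h1, mul_assoc]
  show (e (QuotientGroup.mk x)).out * (φ (r x) : K) * (φ a : K)⁻¹ =
    (e (QuotientGroup.mk (x * (a : K)⁻¹))).out * (φ (r (x * (a : K)⁻¹)) : K)
  rw [h1, h2, map_mul, map_inv]
  push_cast
  rw [mul_assoc]

/-- homomorphisms to a finite group with equal kernels are conjugate in its regular representation -/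
theorem rreg_conj {K X : Type} [Group K] [Finite K] [Group X] (a b : X →* K) (h : b.ker = a.ker) :
    ∃ p : Equiv.Perm K, ∀ x, rreg K (a x) = p * rreg K (b x) * p⁻¹ := by
  let φ : b.range ≃* a.range := (QuotientGroup.quotientKerEquivRange b).symm.trans
    ((QuotientGroup.quotientMulEquivOfEq h).trans (QuotientGroup.quotientKerEquivRange a))
  have hφ : ∀ x, ((φ ⟨b x, x, rfl⟩ : a.range) : K) = a x := by
    intro x
    have h1 : (QuotientGroup.quotientKerEquivRange b).symm ⟨b x, x, rfl⟩ =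
        (QuotientGroup.mk x : X ⧸ b.ker) := by
      rw [MulEquiv.symm_apply_eq]
      rfl
    show (((QuotientGroup.quotientKerEquivRange a) ((QuotientGroup.quotientMulEquivOfEq h)
      ((QuotientGroup.quotientKerEquivRange b).symm ⟨b x, x, rfl⟩)) : a.range) : K) = a x
    rw [h1]
    rfl
  obtain ⟨p, hp⟩ := rreg_conj' b.range a.range φ
  refine ⟨p, fun x => ?_⟩
  have h1 := hp ⟨b x, x, rfl⟩
  rw [hφ] at h1
  exact h1

/-- finitely many functions with finitely many values generate a finite group -/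
theorem finite_closure {Ω S : Type} [Group S] [Finite S] (E : Set (Ω → S)) (hE : E.Finite) :
    ∃ R : Subgroup (Ω → S), Finite R ∧ E ⊆ R := by
  have : Finite E := hE
  let κ : Ω → (E → S) := fun ω e => (e : Ω → S) ω
  let c : ((E → S) → S) →* (Ω → S) :=
    { toFun := fun F => fun ω => F (κ ω)
      map_one' := rfl
      map_mul' := fun _ _ => rfl }
  refine ⟨c.range, ?_, ?_⟩
  · exact Set.finite_range c
  · intro e he
    exact ⟨fun u => u ⟨e, he⟩, rfl⟩

/-- semidirect products with groups of functions with values in a finite group -/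
theorem C_semi_fin (hC : ClosedE C) {Ω S Γ : Type} [Group S] [Finite S] [Group Γ]
    (a : Γ →* MulAut (Ω → S)) (hΓ : C Γ) : C ((Ω → S) ⋊[a] Γ) := by
  refine Pool.Agent.R941.FJ.lfk hC (SemidirectProduct.rightHom : (Ω → S) ⋊[a] Γ →* Γ).ker ?_ ?_
  · intro E hE hEN
    obtain ⟨R, hR, hER⟩ := finite_closure ((fun x : (Ω → S) ⋊[a] Γ => x.left) '' E) (hE.image _)
    have h1 : Subgroup.closure E ≤ R.map (SemidirectProduct.inl : (Ω → S) →* (Ω → S) ⋊[a] Γ) := by
      rw [Subgroup.closure_le]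
      intro x hx
      refine ⟨x.left, hER ⟨x, hx, rfl⟩, ?_⟩
      have h2 : x.right = 1 := hEN hx
      apply SemidirectProduct.ext
      · rfl
      · rw [h2]
        rfl
    have h2 : Finite ↥(R.map (SemidirectProduct.inl : (Ω → S) →* (Ω → S) ⋊[a] Γ)) :=
      Set.Finite.image _ (Set.toFinite (R : Set (Ω → S)))
    exact Finite.of_injective (Subgroup.inclusion h1) (Subgroup.inclusion_injective h1)
  · exact Pool.Agent.R941.FJ.C_equiv hC.base
      (QuotientGroup.quotientKerEquivOfSurjective _ SemidirectProduct.rightHom_surjective) hΓ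

/-- **the step with finite kernel** -/
theorem step_fin (hC : ClosedE C) {P : Type} [Group P] {H : Subgroup P} {φ : H →* P}
    {M M' : Subgroup P} [hM' : M'.Normal] (hle : M' ≤ M) (hfi : M'.relIndex M ≠ 0)
    (hφ : ∀ h : H, (h : P) ∈ M' ↔ φ h ∈ M') (hR : Rz C H φ M) : Rz C H φ M' := by
  classical
  obtain ⟨Q, _, f, t, hCQ, rfl, hft⟩ := hR
  have hfi' : (M'.subgroupOf f.ker).FiniteIndex := ⟨hfi⟩
  have hfin : Finite (f.ker ⧸ M'.subgroupOf f.ker) := inferInstance
  obtain ⟨κ, hκ⟩ : ∃ κ : f.ker →* f.ker ⧸ M'.subgroupOf f.ker,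
    κ = QuotientGroup.mk' (M'.subgroupOf f.ker) := ⟨_, rfl⟩
  have hκk : ∀ m : f.ker, κ m = 1 ↔ (m : P) ∈ M' := by
    intro m
    rw [hκ]
    exact QuotientGroup.eq_one_iff m
  obtain ⟨δ, hδ, hδk⟩ := ex_cr f ((rreg (f.ker ⧸ M'.subgroupOf f.ker)).comp κ)
  have hδ1 : ∀ m : P, f m = 1 → (δ m = 1 ↔ m ∈ M') := by
    intro m hm
    constructor
    · intro h
      obtain ⟨s, hs⟩ := hδk 1
      have h1 : δ m 1 = 1 := by rw [h]; rfl
      have h2 : κ ⟨s * m * s⁻¹, f.normal_ker.conj_mem m hm s⟩ = 1 := by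
        apply rreg_injective
        rw [map_one]
        exact (hs ⟨m, hm⟩).symm.trans h1
      rw [hκk] at h2
      have h4 := hM'.conj_mem _ h2 s⁻¹
      have h5 : s⁻¹ * (s * m * s⁻¹) * s⁻¹⁻¹ = m := by group
      rwa [h5] at h4
    · intro h
      funext ω
      obtain ⟨s, hs⟩ := hδk ω
      have h2 : κ ⟨s * m * s⁻¹, f.normal_ker.conj_mem m hm s⟩ = 1 := by
        rw [hκk]
        exact hM'.conj_mem _ h s
      refine (hs ⟨m, hm⟩).trans ?_
      rw [MonoidHom.comp_apply, h2, map_one]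
      rfl
  have hδ11 : δ 1 = 1 := (hδ1 1 (map_one f)).2 M'.one_mem
  have hφ1 : ∀ h : H, f (h : P) = 1 ↔ f (φ h) = 1 := by
    intro h
    rw [hft]
    constructor
    · intro hh
      rw [hh, mul_one, mul_inv_cancel]
    · intro hh
      rwa [mul_inv_eq_one, mul_eq_left] at hh
  -- the conjugations at the points
  let S : Subgroup H := f.ker.comap H.subtype
  have hS : ∀ s : S, f ((s : H) : P) = 1 := fun s => s.2
  have hw0 : ∀ r : Q, ∃ w : Equiv.Perm (f.ker ⧸ M'.subgroupOf f.ker), ∀ s : S,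
      δ (φ (s : H)) r = w * δ ((s : H) : P) (r * t) * w⁻¹ := by
    intro r
    obtain ⟨u, hu⟩ := hδk r
    obtain ⟨u', hu'⟩ := hδk (r * t)
    let a : S →* f.ker :=
      { toFun := fun s => ⟨u * φ (s : H) * u⁻¹,
          f.normal_ker.conj_mem _ ((hφ1 _).1 (hS s)) u⟩
        map_one' := by
          apply Subtype.ext
          show u * φ ((1 : S) : H) * u⁻¹ = 1
          rw [Subgroup.coe_one, map_one]
          group
        map_mul' := fun x y => by
          apply Subtype.ext
          show u * φ ((x * y : S) : H) * u⁻¹ = (u * φ (x : H) * u⁻¹) * (u * φ (y : H) * u⁻¹)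
          rw [Subgroup.coe_mul, map_mul]
          group }
    let b : S →* f.ker :=
      { toFun := fun s => ⟨u' * ((s : H) : P) * u'⁻¹, f.normal_ker.conj_mem _ (hS s) u'⟩
        map_one' := by
          apply Subtype.ext
          show u' * (((1 : S) : H) : P) * u'⁻¹ = 1
          rw [Subgroup.coe_one, Subgroup.coe_one]
          group
        map_mul' := fun x y => by
          apply Subtype.ext
          show u' * (((x * y : S) : H) : P) * u'⁻¹ =
            (u' * ((x : H) : P) * u'⁻¹) * (u' * ((y : H) : P) * u'⁻¹)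
          rw [Subgroup.coe_mul, Subgroup.coe_mul]
          group }
    have hconj : ∀ (v x : P), v * x * v⁻¹ ∈ M' ↔ x ∈ M' := by
      intro v x
      constructor
      · intro h
        have h4 := hM'.conj_mem _ h v⁻¹
        have h5 : v⁻¹ * (v * x * v⁻¹) * v⁻¹⁻¹ = x := by group
        rwa [h5] at h4
      · intro h
        exact hM'.conj_mem _ h v
    have hker : (κ.comp b).ker = (κ.comp a).ker := by
      ext s
      rw [MonoidHom.mem_ker, MonoidHom.mem_ker, MonoidHom.comp_apply, MonoidHom.comp_apply, hκk,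
        hκk]
      show u' * ((s : H) : P) * u'⁻¹ ∈ M' ↔ u * φ (s : H) * u⁻¹ ∈ M'
      rw [hconj, hconj, hφ]
    obtain ⟨p, hp⟩ := rreg_conj (κ.comp a) (κ.comp b) hker
    refine ⟨p, fun s => ?_⟩
    have h1 := hu ⟨φ (s : H), (hφ1 _).1 (hS s)⟩
    have h2 := hu' ⟨((s : H) : P), hS s⟩
    rw [h1, h2]
    exact hp s
  choose w0 hw0 using hw0
  -- the conjugating function
  let fφ : H →* Q := f.comp φ
  let L : Subgroup Q := fφ.range
  let r : Q → Q := fun ω => (QuotientGroup.mk ω : Q ⧸ L).out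
  have hr : ∀ ω, ∃ x : H, f (φ x) = (r ω)⁻¹ * ω := by
    intro ω
    have h2 : (QuotientGroup.mk (r ω) : Q ⧸ L) = QuotientGroup.mk ω := Quotient.out_eq _
    exact QuotientGroup.eq.1 h2
  choose x hx using hr
  have hrl : ∀ ω h, r (ω * f (φ h)) = r ω := by
    intro ω h
    have h2 : (QuotientGroup.mk (ω * f (φ h)) : Q ⧸ L) = QuotientGroup.mk ω := by
      rw [eq_comm, QuotientGroup.eq, inv_mul_cancel_left]
      exact ⟨h, rfl⟩
    show (QuotientGroup.mk (ω * f (φ h)) : Q ⧸ L).out = (QuotientGroup.mk ω : Q ⧸ L).out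
    rw [h2]
  let u : Q → H → Equiv.Perm (f.ker ⧸ M'.subgroupOf f.ker) := fun ρ y =>
    (δ (φ y) ρ)⁻¹ * w0 ρ * δ (y : P) (ρ * t)
  have hu : ∀ (ρ : Q) (y : H) (m : H), f (m : P) = 1 → u ρ (m * y) = u ρ y := by
    intro ρ y m hm
    show (δ (φ (m * y)) ρ)⁻¹ * w0 ρ * δ ((m * y : H) : P) (ρ * t) =
      (δ (φ y) ρ)⁻¹ * w0 ρ * δ (y : P) (ρ * t)
    have h1 := hw0 ρ ⟨m, hm⟩
    have h2 : δ (φ m) ρ = w0 ρ * δ (m : P) (ρ * t) * (w0 ρ)⁻¹ := h1
    rw [map_mul φ, Subgroup.coe_mul, hδ, hδ, (hφ1 m).1 hm, hm, sh_one_apply, sh_one_apply,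
      Pi.mul_apply, Pi.mul_apply, h2]
    group
  have hu2 : ∀ (ρ : Q) (y z : H), f (φ y) = f (φ z) → u ρ y = u ρ z := by
    intro ρ y z hyz
    have h1 : f ((z * y⁻¹ : H) : P) = 1 := by
      rw [hφ1, map_mul φ, map_inv φ, map_mul, map_inv, hyz, mul_inv_cancel]
    have h2 := hu ρ y (z * y⁻¹) h1
    rw [inv_mul_cancel_right] at h2
    exact h2.symm
  let w : Q → Equiv.Perm (f.ker ⧸ M'.subgroupOf f.ker) := fun ω => u (r ω) (x ω)
  have hw : ∀ h : H, δ (φ h) * sh (f (φ h)) w = w * sh t (δ (h : P)) := by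
    intro h
    funext ω
    show δ (φ h) ω * u (r (ω * f (φ h))) (x (ω * f (φ h))) = u (r ω) (x ω) * δ (h : P) (ω * t)
    have h1 : u (r (ω * f (φ h))) (x (ω * f (φ h))) = u (r ω) (x ω * h) := by
      rw [hrl]
      apply hu2
      rw [hx, hrl, map_mul φ, map_mul, hx, mul_assoc]
    rw [h1]
    show δ (φ h) ω * ((δ (φ (x ω * h)) (r ω))⁻¹ * w0 (r ω) * δ ((x ω * h : H) : P) (r ω * t)) =
      (δ (φ (x ω)) (r ω))⁻¹ * w0 (r ω) * δ (x ω : P) (r ω * t) * δ (h : P) (ω * t)
    have h3 : r ω * f (φ (x ω)) = ω := by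
      rw [hx, mul_inv_cancel_left]
    have h2 : r ω * t * f (x ω : P) = ω * t := by
      calc r ω * t * f (x ω : P) = (r ω * (t * f (x ω : P) * t⁻¹)) * t := by group
        _ = ω * t := by rw [← hft, h3]
    have h4 : δ (φ (x ω * h)) (r ω) = δ (φ (x ω)) (r ω) * δ (φ h) ω := by
      rw [map_mul φ, hδ, Pi.mul_apply, sh_apply, h3]
    have h5 : δ ((x ω * h : H) : P) (r ω * t) = δ (x ω : P) (r ω * t) * δ (h : P) (ω * t) := by
      rw [Subgroup.coe_mul, hδ, Pi.mul_apply, sh_apply, h2]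
    rw [h4, h5]
    group
  refine ⟨(Q → Equiv.Perm (f.ker ⧸ M'.subgroupOf f.ker)) ⋊[sh] Q, inferInstance,
    { toFun := fun p => ⟨δ p, f p⟩
      map_one' := by
        apply SemidirectProduct.ext
        · exact hδ11
        · exact map_one f
      map_mul' := fun p q => by
        apply SemidirectProduct.ext
        · exact hδ p q
        · exact map_mul f p q },
    ⟨w, t⟩, C_semi_fin hC _ hCQ, ?_, ?_⟩
  · ext p
    rw [MonoidHom.mem_ker]
    constructor
    · intro hp
      have h1 : f p = 1 := congrArg SemidirectProduct.right hp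
      have h2 : δ p = 1 := congrArg SemidirectProduct.left hp
      exact (hδ1 p h1).1 h2
    · intro hp
      have h3 : f p = 1 := hle hp
      apply SemidirectProduct.ext
      · exact (hδ1 p h3).2 hp
      · exact h3
  · intro h
    rw [eq_mul_inv_iff_mul_eq]
    apply SemidirectProduct.ext
    · exact hw h
    · show f (φ h) * t = t * f (h : P)
      rw [hft, inv_mul_cancel_right]

end Pool.Agent.Zk7.FJ
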