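import Pool.Agent.Zk7.FJ.Ring
import Pool.Agent.Zk7.FJ.Cmb

/-!
# Finitary unitriangular groups over partially ordered sets
-/

set_option autoImplicit false

namespace Pool.Agent.Zk7.FJ

open Pool.Agent.Y110.FJ
open Pool.Agent.Y462.SS (Closed)

variable {C : ∀ (G : Type) [Group G], Prop}

section mcl

variable {Λ : Type} [DecidableEq Λ] {V : Λ → Type} [∀ i, AddCommGroup (V i)]

theorem entry (x : AddMonoid.End (Π₀ i, V i)) (w : Π₀ i, V i) (k : Λ) (h : x w k ≠ 0) :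
    ∃ l, w l ≠ 0 ∧ x (DFinsupp.single l (w l)) k ≠ 0 := by
  classical
  by_contra hcon
  push Not at hcon
  apply h
  have h1 : w = w.sum fun l v => DFinsupp.single l v := (DFinsupp.sum_single (f := w)).symm
  have h2 : x w = w.sum fun l v => x (DFinsupp.single l v) := by
    conv_lhs => rw [h1]
    rw [DFinsupp.sum, DFinsupp.sum, map_sum]
  rw [h2, DFinsupp.sum, DFinsupp.finsetSum_apply]
  refine Finset.sum_eq_zero fun l hl => ?_
  exact hcon l (DFinsupp.mem_support_iff.1 hl)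

/-- the endomorphisms whose nonzero entries are at the places of the relation `U` -/
def Ju (V : Λ → Type) [∀ i, AddCommGroup (V i)] (U : Λ → Λ → Prop) :
    AddSubgroup (AddMonoid.End (Π₀ i, V i)) where
  carrier := {x | ∀ l (v : V l) k, x (DFinsupp.single l v) k ≠ 0 → U k l}
  zero_mem' := fun l v k h => absurd rfl h
  add_mem' := by
    intro x y hx hy l v k h
    by_contra hU
    apply h
    have h1 : x (DFinsupp.single l v) k = 0 := by
      by_contra h2; exact hU (hx l v k h2)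
    have h2 : y (DFinsupp.single l v) k = 0 := by
      by_contra h2; exact hU (hy l v k h2)
    show (x (DFinsupp.single l v) + y (DFinsupp.single l v)) k = 0
    rw [DFinsupp.add_apply, h1, h2, add_zero]
  neg_mem' := by
    intro x hx l v k h
    apply hx l v k
    intro h1
    apply h
    show (-x (DFinsupp.single l v)) k = 0
    rw [DFinsupp.neg_apply, h1, neg_zero]

theorem Ju_mul {U T R : Λ → Λ → Prop} {x y : AddMonoid.End (Π₀ i, V i)} (hx : x ∈ Ju V U)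
    (hy : y ∈ Ju V T) (h : ∀ k l m, U k l → T l m → R k m) : x * y ∈ Ju V R := by
  intro m v k hk
  obtain ⟨l, hl, hkl⟩ := entry x (y (DFinsupp.single m v)) k hk
  exact h k l m (hx _ _ _ hkl) (hy _ _ _ hl)

theorem Ju_mono {U R : Λ → Λ → Prop} (h : ∀ k l, U k l → R k l) : Ju V U ≤ Ju V R :=
  fun _ hx l v k hk => h _ _ (hx l v k hk)

theorem Ju_inf {U R : Λ → Λ → Prop} {x : AddMonoid.End (Π₀ i, V i)} (h1 : x ∈ Ju V U)
    (h2 : x ∈ Ju V R) : x ∈ Ju V (fun k l => U k l ∧ R k l) :=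
  fun l v k hk => ⟨h1 l v k hk, h2 l v k hk⟩

theorem Ju_bot {U : Λ → Λ → Prop} (h : ∀ k l, ¬ U k l) {x : AddMonoid.End (Π₀ i, V i)}
    (hx : x ∈ Ju V U) : x = 0 := by
  classical
  apply AddMonoidHom.ext
  intro w
  ext k
  by_contra hk
  obtain ⟨l, -, hl⟩ := entry x w k hk
  exact h _ _ (hx _ _ _ hl)

end mcl

theorem ring_id {A : Type} [Ring A] (a b : A) : a * b - 1 = (a - 1) * (b - 1) + ((a - 1) + (b - 1)) := by
  simp only [sub_mul, mul_sub, one_mul, mul_one]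
  abel

section main

variable {Λ : Type} [PartialOrder Λ]

/-- the relation between pairs -/
def Rp (σ : Λ ≃o Λ) (p q : Λ × Λ) : Prop := ∃ n : ℤ, p.1 ≤ (σ ^ n) q.1 ∧ (σ ^ n) q.2 ≤ p.2

theorem Rp_refl (σ : Λ ≃o Λ) (p : Λ × Λ) : Rp σ p p := ⟨0, by simp, by simp⟩

theorem zp_add (σ : Λ ≃o Λ) (a b : ℤ) (x : Λ) : (σ ^ a) ((σ ^ b) x) = (σ ^ (a + b)) x := by
  rw [zpow_add]
  rfl

theorem Rp_trans (σ : Λ ≃o Λ) (p q r : Λ × Λ) (h1 : Rp σ p q) (h2 : Rp σ q r) : Rp σ p r := by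
  obtain ⟨n, h3, h4⟩ := h1
  obtain ⟨m, h5, h6⟩ := h2
  refine ⟨n + m, ?_, ?_⟩
  · rw [← zp_add]
    exact h3.trans ((σ ^ n).monotone h5)
  · rw [← zp_add]
    exact ((σ ^ n).monotone h6).trans h4

/-- composable pairs are not both above their composition -/
theorem Rp_comp (σ : Λ ≃o Λ) {a b c : Λ} (hab : a < b) (hbc : b < c) (h1 : Rp σ (a, b) (a, c))
    (h2 : Rp σ (b, c) (a, c)) : False := by
  obtain ⟨n, h3, h4⟩ := h1
  obtain ⟨m, h5, h6⟩ := h2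
  have h3' : a ≤ (σ ^ n) a := h3
  have h4' : (σ ^ n) c ≤ b := h4
  have h5' : b ≤ (σ ^ m) a := h5
  have h6' : (σ ^ m) c ≤ c := h6
  have hac : a < c := hab.trans hbc
  have h7 : c ≤ (σ ^ (m - n)) a := by
    have h8 := (σ ^ (-n)).monotone (h4'.trans h5')
    rw [zp_add, zp_add, neg_add_cancel, zpow_zero] at h8
    have e : -n + m = m - n := by ring
    rwa [e] at h8
  have h8 : (σ ^ (m - n)) a < (σ ^ (m - n)) c := (σ ^ (m - n)).strictMono hac
  exact core σ h3' h6' (hac.trans_le h7) (h7.trans_lt h8)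

variable [DecidableEq Λ] {V : Λ → Type} [∀ i, AddCommGroup (V i)]

/-- **finitary unitriangular kernels** -/
theorem mclain (hC : ClosedE C)
    (hmet : ∀ (S : Type) [Group S], (∀ a ∈ commutator S, ∀ b ∈ commutator S, a * b = b * a) → C S)
    {G : Type} [Group G] (N : Subgroup G) [hN : N.Normal] (hQ : C (G ⧸ N))
    (ρ : G →* AddMonoid.End (Π₀ i, V i)) (hinj : ∀ n ∈ N, ρ n = 1 → n = 1)
    (hG : ∀ g : G, ∃ σ : Λ ≃o Λ, ρ g ∈ Ju V (fun k l => k ≤ σ l) ∧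
      ρ g⁻¹ ∈ Ju V (fun k l => k ≤ σ.symm l))
    (hU : ∀ n ∈ N, ∃ S : Finset Λ, ρ n - 1 ∈ Ju V (fun k l => k < l ∧ k ∈ S ∧ l ∈ S)) : C G := by
  classical
  refine crit_ring hC hmet N hQ ρ.toHomUnits (fun n hn h => hinj n hn ?_) ?_
  · have := congrArg Units.val h
    exact this
  intro g E hE hEN
  obtain ⟨σ, hσ, hσ'⟩ := hG g
  -- the finite set of places
  have h1 : ∀ x : G, ∃ S : Finset Λ, x ∈ N →
      ρ x - 1 ∈ Ju V (fun k l => k < l ∧ k ∈ S ∧ l ∈ S) := by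
    intro x
    by_cases hx : x ∈ N
    · obtain ⟨S, hS⟩ := hU x hx
      exact ⟨S, fun _ => hS⟩
    · exact ⟨∅, fun h => absurd h hx⟩
  choose T hT using h1
  let S : Finset Λ := hE.toFinset.biUnion fun e =>
    (T e ∪ T e⁻¹) ∪ (T (g * e * g⁻¹) ∪ T (g * e * g⁻¹)⁻¹)
  have hTS : ∀ e ∈ E, T e ⊆ S ∧ T e⁻¹ ⊆ S ∧ T (g * e * g⁻¹) ⊆ S ∧ T (g * e * g⁻¹)⁻¹ ⊆ S := by
    intro e he
    have h2 : ((T e ∪ T e⁻¹) ∪ (T (g * e * g⁻¹) ∪ T (g * e * g⁻¹)⁻¹)) ⊆ S :=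
      Finset.subset_biUnion_of_mem
        (fun e => (T e ∪ T e⁻¹) ∪ (T (g * e * g⁻¹) ∪ T (g * e * g⁻¹)⁻¹)) (hE.mem_toFinset.2 he)
    refine ⟨?_, ?_, ?_, ?_⟩ <;>
    · refine Finset.Subset.trans ?_ h2
      intro z hz
      simp only [Finset.mem_union]
      tauto
  let RS : Λ → Λ → Prop := fun k l => k < l ∧ k ∈ S ∧ l ∈ S
  have hRS : ∀ x : G, T x ⊆ S → x ∈ N → ρ x - 1 ∈ Ju V RS := by
    intro x hx hxN
    exact Ju_mono (fun k l h => ⟨h.1, hx h.2.1, hx h.2.2⟩) (hT x hxN)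
  have hmul1 : ∀ x y : G, ρ x - 1 ∈ Ju V RS → ρ y - 1 ∈ Ju V RS → ρ (x * y) - 1 ∈ Ju V RS := by
    intro x y hx hy
    rw [map_mul, ring_id]
    refine (Ju V RS).add_mem ?_ ((Ju V RS).add_mem hx hy)
    exact Ju_mul hx hy fun k l m h3 h4 => ⟨h3.1.trans h4.1, h3.2.1, h4.2.2⟩
  have hW : ∀ x ∈ Win g E, ρ x - 1 ∈ Ju V RS ∧ ρ x⁻¹ - 1 ∈ Ju V RS := by
    intro x hx
    induction hx using Subgroup.closure_induction with
    | mem x hx =>
      rcases hx with hx | ⟨e, he, rfl⟩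
      · exact ⟨hRS x (hTS x hx).1 (hEN hx), hRS _ (hTS x hx).2.1 (N.inv_mem (hEN hx))⟩
      · exact ⟨hRS _ (hTS e he).2.2.1 (hN.conj_mem e (hEN he) g),
          hRS _ (hTS e he).2.2.2 (N.inv_mem (hN.conj_mem e (hEN he) g))⟩
    | one =>
      rw [inv_one, map_one, sub_self]
      exact ⟨(Ju V RS).zero_mem, (Ju V RS).zero_mem⟩
    | mul x y _ _ hx hy =>
      rw [mul_inv_rev]
      exact ⟨hmul1 _ _ hx.1 hy.1, hmul1 _ _ hy.2 hx.2⟩
    | inv x _ hx =>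
      rw [inv_inv]
      exact ⟨hx.2, hx.1⟩
  -- the pairs
  let Pi : Finset (Λ × Λ) := (S ×ˢ S).filter (fun p => p.1 < p.2)
  have hPi : ∀ k l, RS k l → (k, l) ∈ Pi := by
    intro k l h
    exact Finset.mem_filter.2 ⟨Finset.mem_product.2 ⟨h.2.1, h.2.2⟩, h.1⟩
  let c : Λ × Λ → ℕ := cnt Pi (Rp σ)
  let U : ℕ → Λ → Λ → Prop := fun t k l => ∃ p ∈ Pi, c p ≤ t ∧ Rp σ (k, l) p
  have hUle : ∀ t k l k' l', k' ≤ k → l ≤ l' → U t k l → U t k' l' := by
    rintro t k l k' l' hk hl ⟨p, hp, hc, n, h1, h2⟩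
    exact ⟨p, hp, hc, n, hk.trans h1, le_trans h2 hl⟩
  have hUσ : ∀ t (n : ℤ) k l, U t k l → U t ((σ ^ n) k) ((σ ^ n) l) := by
    rintro t n k l ⟨p, hp, hc, m, h1, h2⟩
    refine ⟨p, hp, hc, n + m, ?_, ?_⟩
    · rw [← zp_add]
      exact (σ ^ n).monotone h1
    · rw [← zp_add]
      exact (σ ^ n).monotone h2
  have hUσ1 : ∀ t k l, U t k l → U t (σ k) (σ l) := by
    intro t k l h
    have := hUσ t 1 k l h
    rwa [zpow_one] at this
  have hUσ2 : ∀ t k l, U t k l → U t (σ.symm k) (σ.symm l) := by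
    intro t k l h
    have := hUσ t (-1) k l h
    rw [zpow_neg_one] at this
    exact this
  have hle1 : (1 : AddMonoid.End (Π₀ i, V i)) ∈ Ju V (fun k l => k ≤ l) := by
    intro l v k hk
    have h2 : (DFinsupp.single l v : Π₀ i, V i) k ≠ 0 := hk
    rw [DFinsupp.single_apply] at h2
    by_cases h3 : l = k
    · exact le_of_eq h3.symm
    · rw [dif_neg h3] at h2
      exact absurd rfl h2
  have hle : ∀ x ∈ Win g E, ρ x ∈ Ju V (fun k l => k ≤ l) := by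
    intro x hx
    rw [← sub_add_cancel (ρ x) 1]
    exact (Ju V _).add_mem (Ju_mono (fun k l h => h.1.le) (hW x hx).1) hle1
  have hEW : ∀ e ∈ E, e ∈ Win g E := fun e he => Subgroup.subset_closure (Or.inl he)
  refine ⟨Pi.card, fun t => Ju V (U t), ?_⟩
  refine ⟨?_, ?_, ?_, ?_, ?_, ?_, ?_⟩
  · intro t
    exact Ju_mono fun k l ⟨p, hp, hc, h⟩ => ⟨p, hp, hc.trans (Nat.le_succ t), h⟩
  · intro e he
    refine Ju_mono (fun k l h => ?_) (hW e (hEW e he)).1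
    exact ⟨(k, l), hPi k l h, cnt_le _, Rp_refl σ _⟩
  · intro t a ha
    constructor
    · refine Ju_mul (Ju_mul hσ ha (R := fun k l => ∃ k', U t k' l ∧ k ≤ σ k')
        (fun k l m h3 h4 => ⟨l, h4, h3⟩)) hσ' ?_
      rintro k l m ⟨k', h3, h4⟩ h5
      have h6 := hUσ1 t _ _ h3
      refine hUle t _ _ _ _ h4 ?_ h6
      have h7 := σ.monotone h5
      rwa [OrderIso.apply_symm_apply] at h7
    · refine Ju_mul (Ju_mul hσ' ha (R := fun k l => ∃ k', U t k' l ∧ k ≤ σ.symm k')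
        (fun k l m h3 h4 => ⟨l, h4, h3⟩)) hσ ?_
      rintro k l m ⟨k', h3, h4⟩ h5
      have h6 := hUσ2 t _ _ h3
      refine hUle t _ _ _ _ h4 ?_ h6
      have h7 := σ.symm.monotone h5
      rwa [OrderIso.symm_apply_apply] at h7
  · intro t e he a ha
    have h2 := hle e (hEW e he)
    have h3 := hle e⁻¹ (Subgroup.inv_mem _ (hEW e he))
    exact ⟨Ju_mul h2 ha fun k l m h4 h5 => hUle t _ _ _ _ h4 le_rfl h5,
      Ju_mul h3 ha fun k l m h4 h5 => hUle t _ _ _ _ h4 le_rfl h5⟩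
  · intro t e he a ha
    have h2 := hle e (hEW e he)
    have h3 := hle e⁻¹ (Subgroup.inv_mem _ (hEW e he))
    exact ⟨Ju_mul ha h2 fun k l m h4 h5 => hUle t _ _ _ _ le_rfl h5 h4,
      Ju_mul ha h3 fun k l m h4 h5 => hUle t _ _ _ _ le_rfl h5 h4⟩
  · intro x hx h2
    have h3 : ρ x - 1 = 0 := by
      refine Ju_bot (U := U 0) ?_ h2
      rintro k l ⟨p, hp, hc, h⟩
      have h4 : 0 < c p := cnt_pos (Rp_refl σ) hp
      omega
    exact Units.ext (sub_eq_zero.1 h3)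
  · intro t ht x hx y hy h2 h3
    refine Ju_mul (Ju_inf h2 (hW x hx).1) (Ju_inf h3 (hW y hy).1) ?_
    rintro k l m ⟨⟨p, hp, hc, h4⟩, h5⟩ ⟨⟨q, hq, hc', h6⟩, h7⟩
    have hkm : RS k m := ⟨h5.1.trans h7.1, h5.2.1, h7.2.2⟩
    have e1 : Rp σ (k, m) (k, l) := ⟨0, by simp, by simpa using h7.1.le⟩
    have e2 : Rp σ (k, m) (l, m) := ⟨0, by simpa using h5.1.le, by simp⟩
    have c1 : c (k, l) ≤ t + 1 := (cnt_mono (Rp_trans σ) h4).trans hc
    have c2 : c (l, m) ≤ t + 1 := (cnt_mono (Rp_trans σ) h6).trans hc'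
    refine ⟨(k, m), hPi k m hkm, ?_, Rp_refl σ _⟩
    by_cases h8 : Rp σ (k, l) (k, m)
    · have h9 : ¬ Rp σ (l, m) (k, m) := fun h9 => Rp_comp σ h5.1 h7.1 h8 h9
      have := cnt_lt (Rp_trans σ) (Rp_refl σ) (hPi l m h7) e2 h9
      have c3 : c (k, m) < c (l, m) := this
      omega
    · have := cnt_lt (Rp_trans σ) (Rp_refl σ) (hPi k l h5) e1 h8
      have c3 : c (k, m) < c (k, l) := this
      omega

end main

end Pool.Agent.Zk7.FJ
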