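import Pool.Agent.Zk7.FJ.Chn

/-!
# Positions in a maximal invariant chain
-/

set_option autoImplicit false

namespace Pool.Agent.Zk7.FJ

namespace Sys

variable {R V : Type} [Ring R] [AddCommGroup V] [Module R V] {S : Sys R V}
  {c : Set (Submodule R V)}

/-! ### the position of a vector -/

/-- the smallest member of the chain that contains `y` -/
def Bp (c : Set (Submodule R V)) (y : V) : Submodule R V := sInf {X | X ∈ c ∧ y ∈ X}

theorem Bp_mem (hc : Maximal S.IC c) (y : V) : Bp c y ∈ c := sInf_mem hc fun _ h => h.1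

theorem mem_Bp (y : V) : y ∈ Bp c y := by
  rw [Bp, Submodule.mem_sInf]
  exact fun X hX => hX.2

theorem Bp_le {y : V} {X : Submodule R V} (hX : X ∈ c) (h : y ∈ X) : Bp c y ≤ X := sInf_le ⟨hX, h⟩

/-! ### the position of a submodule modulo `F0` -/

/-- the largest member of the chain which is smaller modulo `F0` -/
def Ap (c : Set (Submodule R V)) (F0 W : Submodule R V) : Submodule R V :=
  sSup {A | A ∈ c ∧ A ⊔ F0 < W}

variable {F0 : Submodule R V}

theorem Ap_mem (hc : Maximal S.IC c) (W : Submodule R V) : Ap c F0 W ∈ c :=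
  sSup_mem hc fun _ h => h.1

theorem Ap_sup_lt (hc : Maximal S.IC c) (hfin : {W | ∃ X ∈ c, W = X ⊔ F0}.Finite)
    {X : Submodule R V} (hX : ¬ X ≤ F0) : Ap c F0 (X ⊔ F0) ⊔ F0 < X ⊔ F0 := by
  have h1 : {W | ∃ A ∈ {A | A ∈ c ∧ A ⊔ F0 < X ⊔ F0}, W = A ⊔ F0}.Finite :=
    hfin.subset fun W ⟨A, hA, hW⟩ => ⟨A, hA.1, hW⟩
  have hbot : (⊥ : Submodule R V) ∈ {A | A ∈ c ∧ A ⊔ F0 < X ⊔ F0} := by
    refine ⟨bot_mem hc, ?_⟩
    rw [bot_sup_eq]
    exact lt_of_le_of_ne le_sup_right fun h => hX (by rw [h]; exact le_sup_left)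
  obtain ⟨W, hW⟩ := h1.exists_maximal ⟨_, ⊥, hbot, rfl⟩
  obtain ⟨A, hA, hWA⟩ := hW.prop
  have h2 : ∀ Z ∈ {A | A ∈ c ∧ A ⊔ F0 < X ⊔ F0}, Z ⊔ F0 ≤ A ⊔ F0 := by
    intro Z hZ
    rcases tot hc hZ.1 hA.1 with h | h
    · exact sup_le_sup h le_rfl
    · have h3 : W ≤ Z ⊔ F0 := by rw [hWA]; exact sup_le_sup h le_rfl
      have h4 := hW.le_of_ge ⟨Z, hZ, rfl⟩ h3
      rwa [hWA] at h4
  refine lt_of_le_of_lt (sup_le (sSup_le fun Z hZ => ?_) le_sup_right) hA.2
  exact le_sup_left.trans (h2 Z hZ)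

theorem Ap_lt (hc : Maximal S.IC c) (hfin : {W | ∃ X ∈ c, W = X ⊔ F0}.Finite)
    {X : Submodule R V} (hXc : X ∈ c) (hX : ¬ X ≤ F0) : Ap c F0 (X ⊔ F0) < X := by
  have h1 := Ap_sup_lt hc hfin hX
  rcases tot hc (Ap_mem hc (X ⊔ F0)) hXc with h | h
  · exact lt_of_le_of_ne h fun h2 => absurd h1 (by rw [h2]; exact lt_irrefl _)
  · exact absurd h1 (not_lt_of_ge (sup_le_sup h le_rfl))

theorem Ap_sup_eq (hc : Maximal S.IC c) {X X' : Submodule R V} (hXc' : X' ∈ c)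
    (h1 : Ap c F0 (X ⊔ F0) < X') (h2 : X' ≤ X) : X' ⊔ F0 = X ⊔ F0 := by
  by_contra h
  have h3 : X' ⊔ F0 < X ⊔ F0 := lt_of_le_of_ne (sup_le_sup h2 le_rfl) h
  exact absurd h1 (not_lt_of_ge (le_sSup ⟨hXc', h3⟩))

/-- operators which vanish on `F0` have equal values on the members between -/
theorem ex_val (hc : Maximal S.IC c) {x : AddMonoid.End V} (hx0 : ∀ v ∈ F0, x v = 0)
    {X X' : Submodule R V} (hXc' : X' ∈ c) (h1 : Ap c F0 (X ⊔ F0) < X') (h2 : X' ≤ X) {v : V}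
    (hv : v ∈ X) : ∃ v' ∈ X', x v = x v' := by
  have h3 : v ∈ X' ⊔ F0 := by
    rw [Ap_sup_eq hc hXc' h1 h2]
    exact Submodule.mem_sup_left hv
  obtain ⟨v', hv', f, hf, rfl⟩ := Submodule.mem_sup.1 h3
  exact ⟨v', hv', by rw [map_add, hx0 f hf, add_zero]⟩

/-- values of operators at a member of the chain -/
theorem val_Ap (hc : Maximal S.IC c) (hfin : {W | ∃ X ∈ c, W = X ⊔ F0}.Finite)
    {x : AddMonoid.End V} (hx0 : ∀ v ∈ F0, x v = 0) (hxD : ∀ X ∈ S.Dd, ∀ v ∈ X, x v ∈ S.D X)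
    {X : Submodule R V} (hXc : X ∈ c) (hX : ¬ X ≤ F0) {v : V} (hv : v ∈ X) :
    x v ∈ Ap c F0 (X ⊔ F0) := by
  have hxc : ∀ Z ∈ c, ∀ v ∈ Z, x v ∈ Z := fun Z hZ v hv =>
    S.D_le Z (hc.prop.1 hZ) (hxD Z (hc.prop.1 hZ) v hv)
  obtain ⟨A, hA⟩ : ∃ A, A = Ap c F0 (X ⊔ F0) := ⟨_, rfl⟩
  have hAc : A ∈ c := hA ▸ Ap_mem hc _
  have hAX : A < X := hA ▸ Ap_lt hc hfin hXc hX
  obtain ⟨N, hN⟩ : ∃ N, N = sInf {Z | Z ∈ c ∧ A < Z} := ⟨_, rfl⟩
  have hNc : N ∈ c := hN ▸ sInf_mem hc fun _ h => h.1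
  have hAN : A ≤ N := by
    rw [hN]
    exact le_sInf fun Z hZ => hZ.2.le
  have hNX : N ≤ X := by
    rw [hN]
    exact sInf_le ⟨hXc, hAX⟩
  rw [← hA]
  rcases eq_or_lt_of_le hAN with h | h
  · rw [h, hN, Submodule.mem_sInf]
    intro Z hZ
    rcases tot hc hZ.1 hXc with h' | h'
    · obtain ⟨v', hv', he⟩ := ex_val hc hx0 hZ.1 (hA ▸ hZ.2) h' hv
      rw [he]
      exact hxc Z hZ.1 v' hv'
    · exact h' (hxc X hXc v hv)
  · obtain ⟨v', hv', he⟩ := ex_val hc hx0 hNc (hA ▸ h) hNX hv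
    have hadj : Adj c A N := by
      refine ⟨hAc, hNc, h, fun Z hZ => ?_⟩
      rcases tot hc hZ hAc with h' | h'
      · exact Or.inl h'
      · rcases eq_or_lt_of_le h' with h'' | h''
        · exact Or.inl h''.ge
        · right
          rw [hN]
          exact sInf_le ⟨hZ, h''⟩
    rw [he]
    exact jump hc hadj (hxD N (hc.prop.1 hNc) v' hv')

/-! ### pairs -/

/-- the relation between pairs -/
def Rc (S : Sys R V) (c : Set (Submodule R V)) (p q : Submodule R V × Submodule R V) : Prop :=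
  ∀ X ∈ c, p.2 < X → ∃ n : ℤ, p.1 ≤ (S.gm ^ n) q.1 ∧ (S.gm ^ n) q.2 < X

theorem Rc_refl (p : Submodule R V × Submodule R V) : Rc S c p p := by
  intro X _ hX
  exact ⟨0, by rw [S.zp0], by rw [S.zp0]; exact hX⟩

theorem Rc_trans (hc : Maximal S.IC c) (p q r : Submodule R V × Submodule R V) (h1 : Rc S c p q)
    (h2 : Rc S c q r) : Rc S c p r := by
  intro X hX hpX
  obtain ⟨n, h3, h4⟩ := h1 X hX hpX
  have h5 : q.2 < (S.gm ^ (-n)) X := by
    have := (S.gm ^ (-n)).strictMono h4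
    rwa [S.zp, neg_add_cancel, S.zp0] at this
  obtain ⟨m, h6, h7⟩ := h2 _ (hc.prop.2.2 X hX (-n)) h5
  refine ⟨n + m, ?_, ?_⟩
  · rw [← S.zp]
    exact h3.trans ((S.gm ^ n).monotone h6)
  · have := (S.gm ^ n).strictMono h7
    rwa [S.zp, S.zp, add_neg_cancel, S.zp0] at this

/-- composable pairs are not both above their composition -/
theorem Rc_comp (hc : Maximal S.IC c) {a b b' d X0 : Submodule R V} (hb' : b' ∈ c)
    (hd : d ∈ c) (hX0 : X0 ∈ c) (h1 : a ≤ b) (h2 : b < b') (h3 : b' ≤ d) (h4 : d < X0)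
    (h5 : Rc S c (a, b) (a, d)) (h6 : Rc S c (b', d) (a, d)) : False := by
  obtain ⟨n, h7, h8⟩ := h5 b' hb' h2
  have h7' : a ≤ (S.gm ^ n) a := h7
  have h8' : (S.gm ^ n) d < b' := h8
  have had : a ≤ d := h1.trans (h2.le.trans h3)
  have key : ∀ m : ℤ, b' ≤ (S.gm ^ m) a → d < (S.gm ^ (m - n)) a := by
    intro m hm
    have := (S.gm ^ (-n)).strictMono (h8'.trans_le hm)
    rw [S.zp, S.zp, neg_add_cancel, S.zp0] at this
    have e : -n + m = m - n := by ring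
    rwa [e] at this
  have key2 : ∀ m : ℤ, b' ≤ (S.gm ^ m) a → d < (S.gm ^ (m - n)) d := fun m hm =>
    (key m hm).trans_le ((S.gm ^ (m - n)).monotone had)
  obtain ⟨m0, h9, -⟩ := h6 X0 hX0 h4
  have hk0 := key2 m0 h9
  have hex : ∃ m : ℤ, b' ≤ (S.gm ^ m) a ∧ (S.gm ^ m) d ≤ d := by
    rcases tot hc hd (hc.prop.2.2 d hd 1) with h10 | h10
    · -- the orbit increases
      rw [S.zp1] at h10
      have h11 : d < S.gm d := by
        refine lt_of_le_of_ne h10 fun h => ?_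
        have h12 : ∀ k : ℕ, (S.gm ^ k) d = d := by
          intro k
          induction k with
          | zero => rfl
          | succ k ih =>
            rw [pow_succ']
            show S.gm ((S.gm ^ k) d) = d
            rw [ih, ← h]
        obtain ⟨k, hk | hk⟩ := (m0 - n).eq_nat_or_neg
        · rw [hk, zpow_natCast, h12] at hk0
          exact absurd hk0 (lt_irrefl _)
        · have h13 : (S.gm ^ (-(k : ℤ))) ((S.gm ^ (k : ℤ)) d) = d := by
            rw [S.zp, neg_add_cancel, S.zp0]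
          rw [zpow_natCast, h12] at h13
          rw [hk, h13] at hk0
          exact absurd hk0 (lt_irrefl _)
      obtain ⟨m, h12, h13⟩ := h6 (S.gm d) (by rw [← S.zp1]; exact hc.prop.2.2 d hd 1) h11
      refine ⟨m, h12, ?_⟩
      have h13' : (S.gm ^ m) d < S.gm d := h13
      rcases lt_or_ge 0 m with hm | hm
      · exfalso
        obtain ⟨k, rfl⟩ : ∃ k : ℕ, m = k + 1 := ⟨(m - 1).toNat, by omega⟩
        have h14 : (S.gm ^ ((k : ℤ) + 1)) d = S.gm ((S.gm ^ k) d) := by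
          have e : (k : ℤ) + 1 = 1 + k := by ring
          rw [e, ← S.zp, S.zp1, zpow_natCast]
        rw [h14] at h13'
        have h15 := iter_le S.gm h11.le k
        exact absurd h13' (not_lt_of_ge (S.gm.monotone h15))
      · obtain ⟨k, hk⟩ : ∃ k : ℕ, m = -k := ⟨(-m).toNat, by omega⟩
        have h15 := iter_le S.gm h11.le k
        have h16 := (S.gm ^ (-(k : ℤ))).monotone h15
        have h17 : (S.gm ^ (-(k : ℤ))) ((S.gm ^ k) d) = d := by
          have := S.zp (-(k : ℤ)) k d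
          rw [neg_add_cancel, S.zp0, zpow_natCast] at this
          exact this
        rw [h17] at h16
        rw [hk]
        exact h16
    · -- the orbit decreases
      rw [S.zp1] at h10
      have h11 : S.gm d < d := by
        refine lt_of_le_of_ne h10 fun h => ?_
        have h12 : ∀ k : ℕ, (S.gm ^ k) d = d := by
          intro k
          induction k with
          | zero => rfl
          | succ k ih =>
            rw [pow_succ']
            show S.gm ((S.gm ^ k) d) = d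
            rw [ih, h]
        obtain ⟨k, hk | hk⟩ := (m0 - n).eq_nat_or_neg
        · rw [hk, zpow_natCast, h12] at hk0
          exact absurd hk0 (lt_irrefl _)
        · have h13 : (S.gm ^ (-(k : ℤ))) ((S.gm ^ (k : ℤ)) d) = d := by
            rw [S.zp, neg_add_cancel, S.zp0]
          rw [zpow_natCast, h12] at h13
          rw [hk, h13] at hk0
          exact absurd hk0 (lt_irrefl _)
      have h11' : d < (S.gm ^ (-1 : ℤ)) d := by
        have := (S.gm ^ (-1 : ℤ)).strictMono h11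
        rw [← S.zp1, S.zp, neg_add_cancel, S.zp0] at this
        exact this
      obtain ⟨m, h12, h13⟩ := h6 _ (hc.prop.2.2 d hd (-1)) h11'
      refine ⟨m, h12, ?_⟩
      have h13' : (S.gm ^ m) d < (S.gm ^ (-1 : ℤ)) d := h13
      rcases lt_or_ge m 0 with hm | hm
      · exfalso
        obtain ⟨k, rfl⟩ : ∃ k : ℕ, m = -1 + -k := ⟨(-m - 1).toNat, by omega⟩
        rw [← S.zp] at h13'
        have h14 : (S.gm ^ (-(k : ℤ))) d < d := (S.gm ^ (-1 : ℤ)).lt_iff_lt.1 h13'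
        have h15 := iter_ge S.gm h10 k
        have h16 := (S.gm ^ (k : ℤ)).strictMono h14
        rw [S.zp, add_neg_cancel, S.zp0, zpow_natCast] at h16
        exact absurd (h16.trans_le h15) (lt_irrefl _)
      · obtain ⟨k, hk⟩ : ∃ k : ℕ, m = k := ⟨m.toNat, by omega⟩
        rw [hk, zpow_natCast]
        exact iter_ge S.gm h10 k
  obtain ⟨m, hm1, hm2⟩ := hex
  exact core S.gm h7' hm2 (had.trans_lt (key m hm1)) (key2 m hm1)

/-- finitely many pairs: one of them works for all members of the chain -/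
theorem pigeon (hc : Maximal S.IC c) (Pf : Finset (Submodule R V × Submodule R V)) {b A X0 : Submodule R V}
    (hX0 : X0 ∈ c) (hA : A < X0)
    (h : ∀ X ∈ c, A < X → ∃ p ∈ Pf, ∃ n : ℤ, b ≤ (S.gm ^ n) p.1 ∧ (S.gm ^ n) p.2 < X) :
    ∃ p ∈ Pf, Rc S c (b, A) p := by
  classical
  by_contra hcon
  push Not at hcon
  have h1 : ∀ p : Submodule R V × Submodule R V, ∃ X, p ∈ Pf → X ∈ c ∧ A < X ∧
      ∀ n : ℤ, b ≤ (S.gm ^ n) p.1 → ¬ (S.gm ^ n) p.2 < X := by
    intro p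
    by_cases hp : p ∈ Pf
    · have h2 := hcon p hp
      unfold Rc at h2
      push Not at h2
      obtain ⟨X, hX, hAX, h3⟩ := h2
      exact ⟨X, fun _ => ⟨hX, hAX, h3⟩⟩
    · exact ⟨⊥, fun h => absurd h hp⟩
  choose Xp hXp using h1
  have h2 : ∀ T : Finset (Submodule R V × Submodule R V), T ⊆ Pf →
      ∃ X ∈ c, A < X ∧ ∀ p ∈ T, X ≤ Xp p := by
    intro T
    induction T using Finset.induction_on with
    | empty => exact fun _ => ⟨X0, hX0, hA, fun p hp => absurd hp (Finset.notMem_empty _)⟩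
    | insert p T hp ih =>
      intro hT
      obtain ⟨X, hX, hAX, h3⟩ := ih ((Finset.subset_insert _ _).trans hT)
      obtain ⟨h4, h5, -⟩ := hXp p (hT (Finset.mem_insert_self _ _))
      rcases tot hc hX h4 with h6 | h6
      · refine ⟨X, hX, hAX, fun q hq => ?_⟩
        rcases Finset.mem_insert.1 hq with rfl | hq
        · exact h6
        · exact h3 q hq
      · refine ⟨Xp p, h4, h5, fun q hq => ?_⟩
        rcases Finset.mem_insert.1 hq with rfl | hq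
        · exact le_rfl
        · exact h6.trans (h3 q hq)
  obtain ⟨X, hX, hAX, h3⟩ := h2 Pf Finset.Subset.rfl
  obtain ⟨p, hp, n, h4, h5⟩ := h X hX hAX
  exact (hXp p hp).2.2 n h4 (h5.trans_le (h3 p hp))

/-! ### the ideals -/

/-- the operators that factor through the first `t` pairs -/
def Jt (hc : Maximal S.IC c) (Pf : Finset (Submodule R V × Submodule R V))
    (hPf : ∀ p ∈ Pf, p.1 ∈ c) (t : ℕ) : AddSubgroup (AddMonoid.End V) where
  carrier := {z | ∀ X ∈ c, ∀ v ∈ X, z v = 0 ∨ ∃ p ∈ Pf, cnt Pf (Rc S c) p ≤ t ∧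
    ∃ n : ℤ, (S.gm ^ n) p.2 < X ∧ z v ∈ (S.gm ^ n) p.1}
  zero_mem' := fun X _ v _ => Or.inl rfl
  add_mem' := by
    intro z w hz hw X hX v hv
    have e : (z + w) v = z v + w v := rfl
    rw [e]
    rcases hz X hX v hv with h1 | ⟨p, hp, hpt, n, hn, h1⟩
    · rw [h1, zero_add]
      exact hw X hX v hv
    · rcases hw X hX v hv with h2 | ⟨q, hq, hqt, m, hm, h2⟩
      · rw [h2, add_zero]
        exact Or.inr ⟨p, hp, hpt, n, hn, h1⟩
      · right
        rcases tot hc (hc.prop.2.2 _ (hPf p hp) n) (hc.prop.2.2 _ (hPf q hq) m) with h3 | h3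
        · exact ⟨q, hq, hqt, m, hm, Submodule.add_mem _ (h3 h1) h2⟩
        · exact ⟨p, hp, hpt, n, hn, Submodule.add_mem _ h1 (h3 h2)⟩
  neg_mem' := by
    intro z hz X hX v hv
    have e : (-z) v = -(z v) := rfl
    rw [e]
    rcases hz X hX v hv with h1 | ⟨p, hp, hpt, n, hn, h1⟩
    · rw [h1, neg_zero]
      exact Or.inl rfl
    · exact Or.inr ⟨p, hp, hpt, n, hn, Submodule.neg_mem _ h1⟩

/-- **the window theorem** -/
theorem window (hc : Maximal S.IC c) (Y : Submodule R V)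
    (hfY : {W | ∃ X ∈ c, W = Y ⊓ X}.Finite) (hfF : {W | ∃ X ∈ c, W = X ⊔ F0}.Finite)
    (Pp : Set (AddMonoid.End V)) (hPD : ∀ x ∈ Pp, ∀ X ∈ S.Dd, ∀ v ∈ X, x v ∈ S.D X)
    (hPY : ∀ x ∈ Pp, ∀ v, x v ∈ Y) (hPF : ∀ x ∈ Pp, ∀ v ∈ F0, x v = 0) :
    ∃ (k : ℕ) (J : ℕ → AddSubgroup (AddMonoid.End V)), (∀ t, J t ≤ J (t + 1)) ∧
      (∀ x ∈ Pp, x ∈ J k) ∧ (∀ x ∈ J 0, x = 0) ∧
      (∀ t, ∀ x ∈ Pp, ∀ y ∈ Pp, x ∈ J (t + 1) → y ∈ J (t + 1) → x * y ∈ J t) ∧
      (∀ t, ∀ u : AddMonoid.End V, (∀ X ∈ c, ∀ v ∈ X, u v ∈ X) → ∀ z ∈ J t,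
        u * z ∈ J t ∧ z * u ∈ J t) ∧
      (∀ t, ∀ u u' : AddMonoid.End V, (∀ v, u v = S.γ v) → u * u' = 1 → u' * u = 1 → ∀ z ∈ J t,
        u * z * u' ∈ J t ∧ u' * z * u ∈ J t) := by
  classical
  -- the pairs
  have hB : {B | ∃ y ∈ Y, B = Bp c y}.Finite := by
    refine Set.Finite.of_finite_image (f := fun X => Y ⊓ X) (hfY.subset ?_) ?_
    · rintro _ ⟨_, ⟨y, -, rfl⟩, rfl⟩
      exact ⟨_, Bp_mem hc y, rfl⟩
    · rintro _ ⟨y, hy, rfl⟩ _ ⟨y', hy', rfl⟩ heq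
      have heq' : Y ⊓ Bp c y = Y ⊓ Bp c y' := heq
      refine le_antisymm (Bp_le (Bp_mem hc y') ?_) (Bp_le (Bp_mem hc y) ?_)
      · have : y ∈ Y ⊓ Bp c y := ⟨hy, mem_Bp y⟩
        rw [heq'] at this
        exact this.2
      · have : y' ∈ Y ⊓ Bp c y' := ⟨hy', mem_Bp y'⟩
        rw [← heq'] at this
        exact this.2
  have hA : {A | ∃ X ∈ c, A = Ap c F0 (X ⊔ F0)}.Finite := by
    refine (hfF.image (fun W => Ap c F0 W)).subset ?_
    rintro _ ⟨X, hX, rfl⟩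
    exact ⟨_, ⟨X, hX, rfl⟩, rfl⟩
  let Pf : Finset (Submodule R V × Submodule R V) :=
    (hB.toFinset ×ˢ hA.toFinset).filter (fun p => p.1 ≤ p.2)
  have hPf : ∀ p, p ∈ Pf ↔ (∃ y ∈ Y, p.1 = Bp c y) ∧ (∃ X ∈ c, p.2 = Ap c F0 (X ⊔ F0)) ∧
      p.1 ≤ p.2 := by
    intro p
    rw [Finset.mem_filter, Finset.mem_product, Set.Finite.mem_toFinset, Set.Finite.mem_toFinset,
      and_assoc]
    rfl
  have hPfc : ∀ p ∈ Pf, p.1 ∈ c := by
    intro p hp
    obtain ⟨⟨y, -, h⟩, -, -⟩ := (hPf p).1 hp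
    rw [h]
    exact Bp_mem hc y
  have hnF : ∀ x ∈ Pp, ∀ X : Submodule R V, ∀ v ∈ X, x v ≠ 0 → ¬ X ≤ F0 := by
    intro x hx X v hv hne h
    exact hne (hPF x hx v (h hv))
  have hpair : ∀ x ∈ Pp, ∀ X ∈ c, ∀ v ∈ X, x v ≠ 0 → (Bp c (x v), Ap c F0 (X ⊔ F0)) ∈ Pf := by
    intro x hx X hX v hv hne
    refine (hPf _).2 ⟨⟨x v, hPY x hx v, rfl⟩, ⟨X, hX, rfl⟩, ?_⟩
    exact Bp_le (Ap_mem hc _) (val_Ap hc hfF (hPF x hx) (hPD x hx) hX (hnF x hx X v hv hne) hv)
  -- the position of a value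
  have hpos : ∀ t, ∀ x ∈ Pp, x ∈ Jt hc Pf hPfc t → ∀ X ∈ c, ∀ v ∈ X, x v ≠ 0 →
      cnt Pf (Rc S c) (Bp c (x v), Ap c F0 (X ⊔ F0)) ≤ t := by
    intro t x hx hxt X hX v hv hne
    have hXF := hnF x hx X v hv hne
    have hlt := Ap_lt hc hfF hX hXF
    obtain ⟨p, hp, hR⟩ := pigeon hc (Pf.filter (fun p => cnt Pf (Rc S c) p ≤ t)) hX hlt
      (b := Bp c (x v)) (by
        intro Z hZ hAZ
        have h1 : ∃ Z' ∈ c, Ap c F0 (X ⊔ F0) < Z' ∧ Z' ≤ X ∧ Z' ≤ Z := by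
          rcases tot hc hX hZ with h | h
          · exact ⟨X, hX, hlt, le_rfl, h⟩
          · exact ⟨Z, hZ, hAZ, h, le_rfl⟩
        obtain ⟨Z', hZ', h2, h3, h4⟩ := h1
        obtain ⟨v', hv', he⟩ := ex_val hc (hPF x hx) hZ' h2 h3 hv
        rcases hxt Z' hZ' v' hv' with h5 | ⟨p, hp, hpt, n, hn, h5⟩
        · rw [he] at hne
          exact absurd h5 hne
        · refine ⟨p, Finset.mem_filter.2 ⟨hp, hpt⟩, n, ?_, hn.trans_le h4⟩
          refine Bp_le (hc.prop.2.2 _ (hPfc p hp) n) ?_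
          rw [he]
          exact h5)
    exact (cnt_mono (Rc_trans hc) hR).trans (Finset.mem_filter.1 hp).2
  refine ⟨Pf.card, Jt hc Pf hPfc, ?_, ?_, ?_, ?_, ?_, ?_⟩
  · intro t z hz X hX v hv
    rcases hz X hX v hv with h | ⟨p, hp, hpt, h⟩
    · exact Or.inl h
    · exact Or.inr ⟨p, hp, hpt.trans (Nat.le_succ t), h⟩
  · intro x hx X hX v hv
    by_cases hne : x v = 0
    · exact Or.inl hne
    · right
      refine ⟨_, hpair x hx X hX v hv hne, cnt_le _, 0, ?_, ?_⟩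
      · rw [S.zp0]
        exact Ap_lt hc hfF hX (hnF x hx X v hv hne)
      · rw [S.zp0]
        exact mem_Bp _
  · intro x hx
    apply AddMonoidHom.ext
    intro v
    rcases hx ⊤ (top_mem hc) v trivial with h | ⟨p, hp, hpt, -⟩
    · exact h
    · exfalso
      have h4 : 0 < cnt Pf (Rc S c) p := cnt_pos Rc_refl hp
      omega
  · -- products
    intro t x hx y hy hxt hyt X hX v hv
    by_cases hne : x (y v) = 0
    · exact Or.inl hne
    right
    have hyv : y v ≠ 0 := fun h => hne (by rw [h, map_zero])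
    have hXF := hnF y hy X v hv hyv
    obtain ⟨w, hw⟩ : ∃ w, w = y v := ⟨_, rfl⟩
    have hwB : w ∈ Bp c w := mem_Bp w
    have hBc : Bp c w ∈ c := Bp_mem hc w
    have hne' : x w ≠ 0 := by rw [hw]; exact hne
    have hBF := hnF x hx (Bp c w) w hwB hne'
    have c1 : cnt Pf (Rc S c) (Bp c w, Ap c F0 (X ⊔ F0)) ≤ t + 1 := by
      rw [hw]
      exact hpos (t + 1) y hy hyt X hX v hv hyv
    have c2 : cnt Pf (Rc S c) (Bp c (x w), Ap c F0 (Bp c w ⊔ F0)) ≤ t + 1 :=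
      hpos (t + 1) x hx hxt _ hBc w hwB hne'
    have m1 : (Bp c w, Ap c F0 (X ⊔ F0)) ∈ Pf := by
      rw [hw]
      exact hpair y hy X hX v hv hyv
    have m2 : (Bp c (x w), Ap c F0 (Bp c w ⊔ F0)) ∈ Pf := hpair x hx _ hBc w hwB hne'
    have l1 : Bp c w ≤ Ap c F0 (X ⊔ F0) := ((hPf _).1 m1).2.2
    have l2 : Bp c (x w) ≤ Ap c F0 (Bp c w ⊔ F0) := ((hPf _).1 m2).2.2
    have l3 : Ap c F0 (Bp c w ⊔ F0) < Bp c w := Ap_lt hc hfF hBc hBF
    have l4 : Ap c F0 (X ⊔ F0) < X := Ap_lt hc hfF hX hXF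
    have m3 : (Bp c (x w), Ap c F0 (X ⊔ F0)) ∈ Pf :=
      (hPf _).2 ⟨⟨x w, hPY x hx w, rfl⟩, ⟨X, hX, rfl⟩, l2.trans (l3.le.trans l1)⟩
    have e1 : Rc S c (Bp c (x w), Ap c F0 (X ⊔ F0)) (Bp c (x w), Ap c F0 (Bp c w ⊔ F0)) := by
      intro Z _ hZ'
      refine ⟨0, by rw [S.zp0], ?_⟩
      rw [S.zp0]
      exact (l3.trans_le l1).trans hZ'
    have e2 : Rc S c (Bp c (x w), Ap c F0 (X ⊔ F0)) (Bp c w, Ap c F0 (X ⊔ F0)) := by
      intro Z _ hZ'
      refine ⟨0, ?_, ?_⟩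
      · rw [S.zp0]
        exact l2.trans l3.le
      · rw [S.zp0]
        exact hZ'
    refine ⟨_, m3, ?_, 0, ?_, ?_⟩
    · by_cases h8 : Rc S c (Bp c (x w), Ap c F0 (Bp c w ⊔ F0)) (Bp c (x w), Ap c F0 (X ⊔ F0))
      · have h9 : ¬ Rc S c (Bp c w, Ap c F0 (X ⊔ F0)) (Bp c (x w), Ap c F0 (X ⊔ F0)) := fun h9 =>
          Rc_comp hc hBc (Ap_mem hc _) hX l2 l3 l1 l4 h8 h9
        have := cnt_lt (Rc_trans hc) Rc_refl m1 e2 h9
        omega
      · have := cnt_lt (Rc_trans hc) Rc_refl m2 e1 h8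
        omega
    · rw [S.zp0]
      exact l4
    · rw [S.zp0]
      have e3 : (x * y) v = x w := by rw [hw]; rfl
      rw [e3]
      exact mem_Bp _
  · -- operators which preserve the chain
    intro t u hu z hz
    constructor
    · intro X hX v hv
      have e : (u * z) v = u (z v) := rfl
      rw [e]
      rcases hz X hX v hv with h | ⟨p, hp, hpt, n, hn, h⟩
      · left
        rw [h, map_zero]
      · right
        exact ⟨p, hp, hpt, n, hn, hu _ (hc.prop.2.2 _ (hPfc p hp) n) _ h⟩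
    · intro X hX v hv
      exact hz X hX (u v) (hu X hX v hv)
  · -- the automorphism
    intro t u u' hu h1 h2 z hz
    have h1' : ∀ v, u (u' v) = v := fun v => DFunLike.congr_fun h1 v
    have h2' : ∀ v, u' (u v) = v := fun v => DFunLike.congr_fun h2 v
    have hmem : ∀ (X : Submodule R V) v, u v ∈ S.gm X ↔ v ∈ X := by
      intro X v
      rw [hu]
      exact S.gm_mem X v
    have hmem2 : ∀ (X : Submodule R V) (n : ℤ) v, u v ∈ (S.gm ^ (1 + n)) X ↔ v ∈ (S.gm ^ n) X := by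
      intro X n v
      rw [← S.zp, S.zp1]
      exact hmem _ _
    constructor
    · intro X hX v hv
      have h3 : u' v ∈ (S.gm ^ (-1 : ℤ)) X := by
        rw [← hmem2, h1', add_neg_cancel, S.zp0]
        exact hv
      have e : (u * z * u') v = u (z (u' v)) := rfl
      rw [e]
      rcases hz _ (hc.prop.2.2 X hX (-1)) _ h3 with h | ⟨p, hp, hpt, n, hn, h⟩
      · left
        rw [h, map_zero]
      · right
        refine ⟨p, hp, hpt, 1 + n, ?_, ?_⟩
        · have := (S.gm ^ (1 : ℤ)).strictMono hn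
          rwa [S.zp, S.zp, add_neg_cancel, S.zp0] at this
        · rw [hmem2]
          exact h
    · intro X hX v hv
      have h3 : u v ∈ (S.gm ^ (1 : ℤ)) X := by
        rw [S.zp1, hmem]
        exact hv
      have e : (u' * z * u) v = u' (z (u v)) := rfl
      rw [e]
      rcases hz _ (hc.prop.2.2 X hX 1) _ h3 with h | ⟨p, hp, hpt, n, hn, h⟩
      · left
        rw [h, map_zero]
      · right
        refine ⟨p, hp, hpt, -1 + n, ?_, ?_⟩
        · have := (S.gm ^ (-1 : ℤ)).strictMono hn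
          rwa [S.zp, S.zp, neg_add_cancel, S.zp0] at this
        · rw [← hmem2, h1']
          have e2 : 1 + (-1 + n) = n := by ring
          rw [e2]
          exact h

end Sys

end Pool.Agent.Zk7.FJ
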