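import Pool.Agent.Zk7.FJ.Crit

/-!
# The criterion for groups of units of rings
-/

set_option autoImplicit false

namespace Pool.Agent.Zk7.FJ

open Pool.Agent.Y110.FJ
open Pool.Agent.Y462.SS (Closed)

variable {C : ∀ (G : Type) [Group G], Prop}

section ring

variable {G A : Type} [Group G] [Ring A]

/-- an increasing sequence of additive subgroups of the ring which resolves `P = ⟨E, g E g⁻¹⟩` -/
structure RRes (ρ : G →* Aˣ) (g : G) (E : Set G) (k : ℕ) (J : ℕ → AddSubgroup A) : Prop where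
  mono : ∀ i, J i ≤ J (i + 1)
  top : ∀ e ∈ E, (ρ e : A) - 1 ∈ J k
  conj : ∀ i, ∀ a ∈ J i, (ρ g : A) * a * (ρ g⁻¹ : A) ∈ J i ∧ (ρ g⁻¹ : A) * a * (ρ g : A) ∈ J i
  left : ∀ i, ∀ e ∈ E, ∀ a ∈ J i, (ρ e : A) * a ∈ J i ∧ (ρ e⁻¹ : A) * a ∈ J i
  right : ∀ i, ∀ e ∈ E, ∀ a ∈ J i, a * (ρ e : A) ∈ J i ∧ a * (ρ e⁻¹ : A) ∈ J i
  bot : ∀ x ∈ Win g E, (ρ x : A) - 1 ∈ J 0 → ρ x = 1
  step : ∀ i < k, ∀ x ∈ Win g E, ∀ y ∈ Win g E, (ρ x : A) - 1 ∈ J (i + 1) →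
    (ρ y : A) - 1 ∈ J (i + 1) → ((ρ x : A) - 1) * ((ρ y : A) - 1) ∈ J i

variable (ρ : G →* Aˣ)

theorem rho_inv_mul (x : G) : (ρ x⁻¹ : A) * (ρ x : A) = 1 := by
  rw [← Units.val_mul, ← map_mul, inv_mul_cancel, map_one, Units.val_one]

theorem rho_mul_inv (x : G) : (ρ x : A) * (ρ x⁻¹ : A) = 1 := by
  rw [← Units.val_mul, ← map_mul, mul_inv_cancel, map_one, Units.val_one]

theorem rho_mul (x y : G) : (ρ (x * y) : A) = (ρ x : A) * (ρ y : A) := by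
  rw [map_mul, Units.val_mul]

/-- the elements which leave all the additive subgroups invariant on both sides -/
def Stb (J : ℕ → AddSubgroup A) : Subgroup G where
  carrier := {x | ∀ i, ∀ a ∈ J i, (ρ x : A) * a ∈ J i ∧ (ρ x⁻¹ : A) * a ∈ J i ∧
    a * (ρ x : A) ∈ J i ∧ a * (ρ x⁻¹ : A) ∈ J i}
  one_mem' := by
    intro i a ha
    rw [inv_one, map_one, Units.val_one, one_mul, mul_one]
    exact ⟨ha, ha, ha, ha⟩
  mul_mem' := by
    intro x y hx hy i a ha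
    refine ⟨?_, ?_, ?_, ?_⟩
    · rw [rho_mul, mul_assoc]
      exact (hx i _ (hy i a ha).1).1
    · rw [mul_inv_rev, rho_mul, mul_assoc]
      exact (hy i _ (hx i a ha).2.1).2.1
    · rw [rho_mul, ← mul_assoc]
      exact (hy i _ (hx i a ha).2.2.1).2.2.1
    · rw [mul_inv_rev, rho_mul, ← mul_assoc]
      exact (hx i _ (hy i a ha).2.2.2).2.2.2
  inv_mem' := by
    intro x hx i a ha
    obtain ⟨h1, h2, h3, h4⟩ := hx i a ha
    rw [inv_inv]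
    exact ⟨h2, h1, h4, h3⟩

theorem mem_Stb {J : ℕ → AddSubgroup A} {x : G} : x ∈ Stb ρ J ↔ ∀ i, ∀ a ∈ J i,
    (ρ x : A) * a ∈ J i ∧ (ρ x⁻¹ : A) * a ∈ J i ∧ a * (ρ x : A) ∈ J i ∧ a * (ρ x⁻¹ : A) ∈ J i :=
  Iff.rfl

/-- the subgroup given by an additive subgroup -/
def Sg (N : Subgroup G) (J : ℕ → AddSubgroup A) (i : ℕ) : Subgroup G where
  carrier := {x | x ∈ N ∧ x ∈ Stb ρ J ∧ (ρ x : A) - 1 ∈ J i}
  one_mem' := ⟨N.one_mem, Subgroup.one_mem _, by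
    rw [map_one, Units.val_one, sub_self]
    exact (J i).zero_mem⟩
  mul_mem' := by
    rintro x y ⟨h1, h2, h3⟩ ⟨h1', h2', h3'⟩
    refine ⟨N.mul_mem h1 h1', Subgroup.mul_mem _ h2 h2', ?_⟩
    have h4 : (ρ (x * y) : A) - 1 = ((ρ x : A) - 1) * (ρ y : A) + ((ρ y : A) - 1) := by
      rw [rho_mul]; noncomm_ring
    rw [h4]
    exact (J i).add_mem (h2' i _ h3).2.2.1 h3'
  inv_mem' := by
    rintro x ⟨h1, h2, h3⟩
    refine ⟨N.inv_mem h1, Subgroup.inv_mem _ h2, ?_⟩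
    have h4 : (ρ x⁻¹ : A) - 1 = -(((ρ x : A) - 1) * (ρ x⁻¹ : A)) := by
      rw [sub_mul, rho_mul_inv]; noncomm_ring
    rw [h4]
    exact (J i).neg_mem (h2 i _ h3).2.2.2

theorem mem_Sg {N : Subgroup G} {J : ℕ → AddSubgroup A} {i : ℕ} {x : G} :
    x ∈ Sg ρ N J i ↔ x ∈ N ∧ x ∈ Stb ρ J ∧ (ρ x : A) - 1 ∈ J i := Iff.rfl

variable {ρ} {g : G} {E : Set G} {k : ℕ} {J : ℕ → AddSubgroup A}

theorem RRes.mem_Stb (h : RRes ρ g E k J) {e : G} (he : e ∈ E) : e ∈ Stb ρ J := by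
  intro i a ha
  exact ⟨(h.left i e he a ha).1, (h.left i e he a ha).2, (h.right i e he a ha).1,
    (h.right i e he a ha).2⟩

theorem RRes.conj_Stb (h : RRes ρ g E k J) {x : G} (hx : x ∈ Stb ρ J) :
    g * x * g⁻¹ ∈ Stb ρ J ∧ g⁻¹ * x * g ∈ Stb ρ J := by
  have e1 : ∀ y : G, ∀ a : A, (ρ (g * y * g⁻¹) : A) * a =
      (ρ g : A) * ((ρ y : A) * ((ρ g⁻¹ : A) * a * (ρ g : A))) * (ρ g⁻¹ : A) := by
    intro y a
    rw [rho_mul, rho_mul]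
    simp only [mul_assoc]
    rw [rho_mul_inv, mul_one]
  have e2 : ∀ y : G, ∀ a : A, a * (ρ (g * y * g⁻¹) : A) =
      (ρ g : A) * (((ρ g⁻¹ : A) * a * (ρ g : A)) * (ρ y : A)) * (ρ g⁻¹ : A) := by
    intro y a
    rw [rho_mul, rho_mul]
    simp only [← mul_assoc]
    rw [rho_mul_inv, one_mul]
  have e3 : ∀ y : G, ∀ a : A, (ρ (g⁻¹ * y * g) : A) * a =
      (ρ g⁻¹ : A) * ((ρ y : A) * ((ρ g : A) * a * (ρ g⁻¹ : A))) * (ρ g : A) := by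
    intro y a
    rw [rho_mul, rho_mul]
    simp only [mul_assoc]
    rw [rho_inv_mul, mul_one]
  have e4 : ∀ y : G, ∀ a : A, a * (ρ (g⁻¹ * y * g) : A) =
      (ρ g⁻¹ : A) * (((ρ g : A) * a * (ρ g⁻¹ : A)) * (ρ y : A)) * (ρ g : A) := by
    intro y a
    rw [rho_mul, rho_mul]
    simp only [← mul_assoc]
    rw [rho_inv_mul, one_mul]
  have f1 : (g * x * g⁻¹)⁻¹ = g * x⁻¹ * g⁻¹ := by group
  have f2 : (g⁻¹ * x * g)⁻¹ = g⁻¹ * x⁻¹ * g := by group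
  constructor
  · intro i a ha
    obtain ⟨h1, h2, h3, h4⟩ := hx i _ (h.conj i a ha).2
    rw [f1, e1, e1, e2, e2]
    exact ⟨(h.conj i _ h1).1, (h.conj i _ h2).1, (h.conj i _ h3).1, (h.conj i _ h4).1⟩
  · intro i a ha
    obtain ⟨h1, h2, h3, h4⟩ := hx i _ (h.conj i a ha).1
    rw [f2, e3, e3, e4, e4]
    exact ⟨(h.conj i _ h1).2, (h.conj i _ h2).2, (h.conj i _ h3).2, (h.conj i _ h4).2⟩

theorem RRes.resolves (h : RRes ρ g E k J) (N : Subgroup G) [hN : N.Normal] (hEN : E ⊆ N)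
    (hinj : ∀ n ∈ N, ρ n = 1 → n = 1) : Resolves g E k (Sg ρ N J) := by
  have hWN : Win g E ≤ N := by
    rw [Subgroup.closure_le]
    rintro x (hx | ⟨x, hx, rfl⟩)
    · exact hEN hx
    · exact hN.conj_mem x (hEN hx) g
  refine ⟨?_, ?_, ?_, ?_, ?_, ?_⟩
  · rintro i x ⟨h1, h2, h3⟩
    exact ⟨h1, h2, h.mono i h3⟩
  · intro e he
    exact ⟨hEN he, h.mem_Stb he, h.top e he⟩
  · rintro i x ⟨h1, h2, h3⟩
    have h4 : (ρ (g * x * g⁻¹) : A) - 1 = (ρ g : A) * ((ρ x : A) - 1) * (ρ g⁻¹ : A) := by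
      rw [rho_mul, rho_mul, mul_sub, mul_one, sub_mul, rho_mul_inv]
    have h5 : (ρ (g⁻¹ * x * g) : A) - 1 = (ρ g⁻¹ : A) * ((ρ x : A) - 1) * (ρ g : A) := by
      rw [rho_mul, rho_mul, mul_sub, mul_one, sub_mul, rho_inv_mul]
    have h6 : g⁻¹ * x * g ∈ N := by
      have := hN.conj_mem x h1 g⁻¹
      rwa [inv_inv] at this
    exact ⟨⟨hN.conj_mem x h1 g, (h.conj_Stb h2).1, by rw [h4]; exact (h.conj i _ h3).1⟩,
      ⟨h6, (h.conj_Stb h2).2, by rw [h5]; exact (h.conj i _ h3).2⟩⟩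
  · rintro i e he x ⟨h1, h2, h3⟩
    have he' := h.mem_Stb he
    have h4 : (ρ (e * x * e⁻¹) : A) - 1 = (ρ e : A) * ((ρ x : A) - 1) * (ρ e⁻¹ : A) := by
      rw [rho_mul, rho_mul, mul_sub, mul_one, sub_mul, rho_mul_inv]
    have h5 : (ρ (e⁻¹ * x * e) : A) - 1 = (ρ e⁻¹ : A) * ((ρ x : A) - 1) * (ρ e : A) := by
      rw [rho_mul, rho_mul, mul_sub, mul_one, sub_mul, rho_inv_mul]
    refine ⟨⟨hN.conj_mem x h1 e, ?_, ?_⟩, ⟨?_, ?_, ?_⟩⟩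
    · exact Subgroup.mul_mem _ (Subgroup.mul_mem _ he' h2) (Subgroup.inv_mem _ he')
    · rw [h4]
      exact (he' i _ (he' i _ h3).1).2.2.2
    · have := hN.conj_mem x h1 e⁻¹
      rwa [inv_inv] at this
    · exact Subgroup.mul_mem _ (Subgroup.mul_mem _ (Subgroup.inv_mem _ he') h2) he'
    · rw [h5]
      exact (he' i _ (he' i _ h3).2.1).2.2.1
  · rintro x hx ⟨h1, h2, h3⟩
    exact hinj x h1 (h.bot x hx h3)
  · intro i hi
    left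
    rintro x hx y hy ⟨h1, h2, h3⟩ ⟨h1', h2', h3'⟩
    refine ⟨?_, ?_, ?_⟩
    · exact N.mul_mem (N.mul_mem (N.mul_mem h1 h1') (N.inv_mem h1)) (N.inv_mem h1')
    · exact Subgroup.mul_mem _ (Subgroup.mul_mem _ (Subgroup.mul_mem _ h2 h2')
        (Subgroup.inv_mem _ h2)) (Subgroup.inv_mem _ h2')
    · have h4 : (ρ (x * y * x⁻¹ * y⁻¹) : A) - 1 =
          ((((ρ x : A) - 1) * ((ρ y : A) - 1)) - (((ρ y : A) - 1) * ((ρ x : A) - 1))) *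
            (ρ x⁻¹ : A) * (ρ y⁻¹ : A) := by
        have h5 : ((ρ x : A) - 1) * ((ρ y : A) - 1) - ((ρ y : A) - 1) * ((ρ x : A) - 1) =
            (ρ x : A) * (ρ y : A) - (ρ y : A) * (ρ x : A) := by noncomm_ring
        rw [h5, rho_mul, rho_mul, rho_mul, sub_mul, sub_mul]
        congr 1
        rw [mul_assoc (ρ y : A), rho_mul_inv, mul_one, rho_mul_inv]
      rw [h4]
      have h6 := h.step i hi x hx y hy h3 h3'
      have h7 := h.step i hi y hy x hx h3' h3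
      exact (h2' i _ (h2 i _ ((J i).sub_mem h6 h7)).2.2.2).2.2.2

/-- **the criterion for groups of units** -/
theorem crit_ring (hC : ClosedE C)
    (hmet : ∀ (S : Type) [Group S], (∀ a ∈ commutator S, ∀ b ∈ commutator S, a * b = b * a) → C S)
    (N : Subgroup G) [hN : N.Normal] (hQ : C (G ⧸ N)) (ρ : G →* Aˣ)
    (hinj : ∀ n ∈ N, ρ n = 1 → n = 1)
    (h : ∀ (g : G) (E : Set G), E.Finite → E ⊆ N →
      ∃ (k : ℕ) (J : ℕ → AddSubgroup A), RRes ρ g E k J) : C G := by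
  refine crit hC hmet N hQ fun g E hE hEN => ?_
  obtain ⟨k, J, hJ⟩ := h g E hE hEN
  exact ⟨k, Sg ρ N J, hJ.resolves N hEN hinj⟩

end ring

end Pool.Agent.Zk7.FJ
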