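import Pool.Agent.Zk7.FJ.Coc
import Pool.Agent.R941.FJ.Hyper

/-!
# Realization of partial automorphisms: steps with commutative kernel
-/

set_option autoImplicit false

namespace Pool.Agent.Zk7.FJ

open Pool.Agent.Y110.FJ
open Pool.Agent.Y462.SS (Closed)

variable {C : ∀ (G : Type) [Group G], Prop}

/-- the partial automorphism `φ : H → P` induced on `P / M` is realized by an inner automorphism of a
group in the class which contains `P / M` -/
def Rz (C : ∀ (G : Type) [Group G], Prop) {P : Type} [Group P] (H : Subgroup P) (φ : H →* P)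
    (M : Subgroup P) : Prop :=
  ∃ (Q : Type) (_ : Group Q) (f : P →* Q) (t : Q), C Q ∧ f.ker = M ∧
    ∀ h : H, f (φ h) = t * f h * t⁻¹

/-- the automorphism of the square given by two endomorphisms -/
def th {A : Type} [CommGroup A] (F F' : A →* A) : (A × A) ≃* (A × A) where
  toFun x := (x.2 * F x.1, x.1 * (F' (x.2 * F x.1))⁻¹)
  invFun y := (y.2 * F' y.1, y.1 * (F (y.2 * F' y.1))⁻¹)
  left_inv x := by
    ext
    · show x.1 * (F' (x.2 * F x.1))⁻¹ * F' (x.2 * F x.1) = x.1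
      rw [inv_mul_cancel_right]
    · show x.2 * F x.1 * (F (x.1 * (F' (x.2 * F x.1))⁻¹ * F' (x.2 * F x.1)))⁻¹ = x.2
      rw [inv_mul_cancel_right, mul_inv_cancel_right]
  right_inv y := by
    ext
    · show y.1 * (F (y.2 * F' y.1))⁻¹ * F (y.2 * F' y.1) = y.1
      rw [inv_mul_cancel_right]
    · show y.2 * F' y.1 * (F' (y.1 * (F (y.2 * F' y.1))⁻¹ * F (y.2 * F' y.1)))⁻¹ = y.2
      rw [inv_mul_cancel_right, mul_inv_cancel_right]
  map_mul' x y := by
    have h : x.2 * y.2 * F (x.1 * y.1) = (x.2 * F x.1) * (y.2 * F y.1) := by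
      rw [map_mul, mul_mul_mul_comm]
    ext
    · exact h
    · show x.1 * y.1 * (F' (x.2 * y.2 * F (x.1 * y.1)))⁻¹ =
        x.1 * (F' (x.2 * F x.1))⁻¹ * (y.1 * (F' (y.2 * F y.1))⁻¹)
      rw [h, map_mul, mul_inv, mul_mul_mul_comm]

theorem th_apply {A : Type} [CommGroup A] (F F' : A →* A) (a b : A) :
    th F F' (a, b) = (b * F a, a * (F' (b * F a))⁻¹) := rfl

section act

variable {Q D : Type} [Group Q] [CommGroup D]

/-- translations of pairs of functions -/
def sh2 : Q →* MulAut ((Q → D) × (Q → D)) where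
  toFun q := MulEquiv.prodCongr (sh q) (sh q)
  map_one' := by
    apply MulEquiv.ext
    rintro ⟨a, b⟩
    show (sh (1 : Q) a, sh (1 : Q) b) = (a, b)
    rw [sh_one_apply, sh_one_apply]
  map_mul' p q := by
    apply MulEquiv.ext
    rintro ⟨a, b⟩
    show (sh (p * q) a, sh (p * q) b) = (sh p (sh q a), sh p (sh q b))
    rw [sh_mul_apply, sh_mul_apply]

theorem sh2_apply (q : Q) (a b : Q → D) : sh2 q (a, b) = (sh q a, sh q b) := rfl

variable (L : Subgroup Q) (t : Q)

/-- the HNN extension of `Q` along the conjugation by `t` on `L` -/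
abbrev Hn : Type :=
  HNNExtension Q L (L.map (MulAut.conj t).toMonoidHom)
    (L.equivMapOfInjective (MulAut.conj t).toMonoidHom (MulAut.conj t).injective)

theorem C_Hn (hC : ClosedE C) (hQ : C Q) : C (Hn L t) := by
  refine Pool.Agent.R779.FJ.t_hnn (Pool.Agent.Y961.FJ.t_perm Pool.Agent.Y529.FJ.t_ext) C hC Q Q _ _ _
    (HNNExtension.lift (MonoidHom.id Q) t ?_) ?_ hQ
  · intro a
    show t * (a : Q) = (t * (a : Q) * t⁻¹) * t
    group
  · intro a b hab
    rw [MonoidHom.comp_apply, MonoidHom.comp_apply, HNNExtension.lift_of, HNNExtension.lift_of] at hab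
    exact hab

/-- the action of the HNN extension -/
noncomputable def acth (θ : MulAut ((Q → D) × (Q → D))) (hθ : ∀ l ∈ L, ∀ x, θ (sh2 l x) = sh2 l (θ x)) :
    Hn L t →* MulAut ((Q → D) × (Q → D)) :=
  HNNExtension.lift sh2 (sh2 t * θ) (by
    intro a
    apply MulEquiv.ext
    intro x
    show sh2 t (θ (sh2 (a : Q) x)) = sh2 (t * (a : Q) * t⁻¹) (sh2 t (θ x))
    rw [hθ _ a.2]
    show (sh2 t * sh2 (a : Q) : MulAut ((Q → D) × (Q → D))) (θ x) =
      (sh2 (t * (a : Q) * t⁻¹) * sh2 t : MulAut ((Q → D) × (Q → D))) (θ x)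
    rw [← map_mul, ← map_mul, inv_mul_cancel_right])

theorem acth_of (θ : MulAut ((Q → D) × (Q → D))) (hθ : ∀ l ∈ L, ∀ x, θ (sh2 l x) = sh2 l (θ x))
    (q : Q) : acth L t θ hθ (HNNExtension.of q) = sh2 q := by
  rw [acth, HNNExtension.lift_of]

theorem acth_t (θ : MulAut ((Q → D) × (Q → D))) (hθ : ∀ l ∈ L, ∀ x, θ (sh2 l x) = sh2 l (θ x)) :
    acth L t θ hθ HNNExtension.t = sh2 t * θ := by
  rw [acth, HNNExtension.lift_t]

end act

/-- extensions with commutative kernel -/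
theorem C_abk (hC : ClosedE C)
    (hmet : ∀ (S : Type) [Group S], (∀ a ∈ commutator S, ∀ b ∈ commutator S, a * b = b * a) → C S)
    {G : Type} [Group G] (N : Subgroup G) [N.Normal] (hab : ∀ a ∈ N, ∀ b ∈ N, a * b = b * a)
    (hQ : C (G ⧸ N)) : C G := by
  refine Pool.Agent.R941.FJ.hyper hC N hQ ?_
  intro M hM hlt
  refine ⟨N, inferInstance, hlt, le_rfl, ?_⟩
  refine Pool.Agent.R941.FJ.factor_ab hC hmet M N ?_
  intro a ha b hb
  rw [hab a ha b hb]
  simp

/-- semidirect products with commutative kernel -/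
theorem C_semi (hC : ClosedE C)
    (hmet : ∀ (S : Type) [Group S], (∀ a ∈ commutator S, ∀ b ∈ commutator S, a * b = b * a) → C S)
    {A Γ : Type} [CommGroup A] [Group Γ] (a : Γ →* MulAut A) (hΓ : C Γ) : C (A ⋊[a] Γ) := by
  have hn : (SemidirectProduct.rightHom : A ⋊[a] Γ →* Γ).ker.Normal := inferInstance
  refine C_abk hC hmet (SemidirectProduct.rightHom : A ⋊[a] Γ →* Γ).ker ?_ ?_
  · intro x hx y hy
    have hx' : x.right = 1 := hx
    have hy' : y.right = 1 := hy
    apply SemidirectProduct.ext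
    · rw [SemidirectProduct.mul_left, SemidirectProduct.mul_left, hx', hy', map_one,
        MulAut.one_apply, MulAut.one_apply, mul_comm]
    · rw [SemidirectProduct.mul_right, SemidirectProduct.mul_right, hx', hy']
  · refine Pool.Agent.R941.FJ.C_equiv hC.base
      (QuotientGroup.quotientKerEquivOfSurjective _ SemidirectProduct.rightHom_surjective) hΓ

/-- **the step with commutative kernel** -/
theorem step_ab (hC : ClosedE C)
    (hmet : ∀ (S : Type) [Group S], (∀ a ∈ commutator S, ∀ b ∈ commutator S, a * b = b * a) → C S)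
    {P : Type} [Group P] {H : Subgroup P} {φ : H →* P} {M M' : Subgroup P} [hM' : M'.Normal]
    (hle : M' ≤ M) (hab : ∀ x ∈ M, ∀ y ∈ M, x * y * x⁻¹ * y⁻¹ ∈ M')
    (hφ : ∀ h : H, (h : P) ∈ M' ↔ φ h ∈ M') (hR : Rz C H φ M) : Rz C H φ M' := by
  obtain ⟨Q, _, f, t, hCQ, rfl, hft⟩ := hR
  -- the coefficients
  obtain ⟨D, _, ι, hD, hι⟩ := ex_coeff f.ker (M'.subgroupOf f.ker) (fun a b => hab a a.2 b b.2)
  obtain ⟨δ, hδ, hδk⟩ := ex_cr f ι
  have hδ1 : ∀ m : P, f m = 1 → (δ m = 1 ↔ m ∈ M') := by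
    intro m hm
    constructor
    · intro h
      obtain ⟨s, hs⟩ := hδk 1
      have h1 : δ m 1 = 1 := by rw [h]; rfl
      have h2 : (⟨s * m * s⁻¹, f.normal_ker.conj_mem m hm s⟩ : f.ker) ∈ ι.ker :=
        (hs ⟨m, hm⟩).symm.trans h1
      rw [hι, Subgroup.mem_subgroupOf] at h2
      have h3 : s * m * s⁻¹ ∈ M' := h2
      have h4 := hM'.conj_mem _ h3 s⁻¹
      have h5 : s⁻¹ * (s * m * s⁻¹) * s⁻¹⁻¹ = m := by group
      rwa [h5] at h4
    · intro h
      funext ω
      obtain ⟨s, hs⟩ := hδk ω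
      have h2 : (⟨s * m * s⁻¹, f.normal_ker.conj_mem m hm s⟩ : f.ker) ∈ ι.ker := by
        rw [hι, Subgroup.mem_subgroupOf]
        exact hM'.conj_mem _ h s
      exact (hs ⟨m, hm⟩).trans h2
  have hδ11 : δ 1 = 1 := (hδ1 1 (map_one f)).2 M'.one_mem
  have hδm : ∀ m p : P, f m = 1 → δ (m * p) = δ m * δ p := by
    intro m p hm
    rw [hδ, hm, sh_one_apply]
  have hδc : ∀ p m : P, f m = 1 → δ (p * m * p⁻¹) = sh (f p) (δ m) := by
    intro p m hm
    have h1 : δ (p * m * p⁻¹ * p) = δ (p * m * p⁻¹) * δ p := by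
      apply hδm
      rw [map_mul, map_mul, hm, mul_one, map_inv, mul_inv_cancel]
    rw [inv_mul_cancel_right, hδ, mul_comm] at h1
    exact (mul_right_cancel h1).symm
  -- the two homomorphisms of the kernel
  have hφ1 : ∀ h : H, f (h : P) = 1 → f (φ h) = 1 := by
    intro h hh
    rw [hft, hh, mul_one, mul_inv_cancel]
  let S : Subgroup H := f.ker.comap H.subtype
  have hS : ∀ s : S, f ((s : H) : P) = 1 := fun s => s.2
  let α : S →* (Q → D) :=
    { toFun := fun s => δ ((s : H) : P)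
      map_one' := hδ11
      map_mul' := fun s s' => hδm _ _ (hS s) }
  let β : S →* (Q → D) :=
    { toFun := fun s => sh t⁻¹ (δ (φ (s : H)))
      map_one' := by
        show sh t⁻¹ (δ (φ ((1 : S) : H))) = 1
        rw [Subgroup.coe_one, map_one, hδ11, map_one]
      map_mul' := fun s s' => by
        show sh t⁻¹ (δ (φ ((s * s' : S) : H))) = _
        rw [Subgroup.coe_mul, map_mul φ, hδm _ _ (hφ1 _ (hS s)), map_mul] }
  have hα1 : ∀ s : S, α s = 1 ↔ ((s : H) : P) ∈ M' := fun s => hδ1 _ (hS s)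
  have hβ1 : ∀ s : S, β s = 1 ↔ ((s : H) : P) ∈ M' := by
    intro s
    rw [hφ (s : H), ← hδ1 _ (hφ1 _ (hS s))]
    show sh t⁻¹ (δ (φ (s : H))) = 1 ↔ _
    rw [MulEquiv.map_eq_one_iff]
  obtain ⟨L, hL⟩ : ∃ L : Subgroup Q, L = H.map f := ⟨_, rfl⟩
  have hst : ∀ l ∈ L, ∀ s : S, ∃ s' : S, sh l (α s) = α s' ∧ sh l (β s) = β s' := by
    intro l hl s
    rw [hL] at hl
    obtain ⟨h, hh, rfl⟩ := hl
    have h1 : (⟨h, hh⟩ : H) * (s : H) * (⟨h, hh⟩ : H)⁻¹ ∈ S := by
      show f (h * ((s : H) : P) * h⁻¹) = 1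
      rw [map_mul, map_mul, hS s, mul_one, map_inv, mul_inv_cancel]
    refine ⟨⟨_, h1⟩, ?_, ?_⟩
    · show sh (f h) (δ ((s : H) : P)) = δ (h * ((s : H) : P) * h⁻¹)
      rw [hδc _ _ (hS s)]
    · show sh (f h) (sh t⁻¹ (δ (φ (s : H)))) =
        sh t⁻¹ (δ (φ ((⟨h, hh⟩ : H) * (s : H) * (⟨h, hh⟩ : H)⁻¹)))
      rw [map_mul φ, map_mul φ, map_inv φ, hδc _ _ (hφ1 _ (hS s)), hft, ← sh_mul_apply,
        ← sh_mul_apply]
      congr 2
      group
  obtain ⟨F, hFe, hF⟩ := ex_equi hD L α β (fun s hs => (hβ1 s).2 ((hα1 s).1 hs)) hst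
  obtain ⟨F', hFe', hF'⟩ := ex_equi hD L β α (fun s hs => (hα1 s).2 ((hβ1 s).1 hs))
    (fun l hl s => by
      obtain ⟨s', h1, h2⟩ := hst l hl s
      exact ⟨s', h2, h1⟩)
  -- the automorphism
  have hθ : ∀ l ∈ L, ∀ x, th F F' (sh2 l x) = sh2 l (th F F' x) := by
    rintro l hl ⟨a, b⟩
    have e1 : sh l b * F (sh l a) = sh l (b * F a) := by rw [hFe l hl, map_mul]
    rw [sh2_apply, th_apply, th_apply, sh2_apply, e1, hFe' l hl, map_mul (sh l) a, map_inv]
  have hθs : ∀ s : S, th F F' (α s, 1) = (β s, 1) := by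
    intro s
    rw [th_apply, hF, one_mul, hF', mul_inv_cancel]
  obtain ⟨τ, hτ⟩ : ∃ τ : MulAut ((Q → D) × (Q → D)), τ = sh2 t * (th F F' : MulAut _) := ⟨_, rfl⟩
  have hτs : ∀ h : H, f (h : P) = 1 → τ (δ (h : P), 1) = (δ (φ h), 1) := by
    intro h hh
    have h1 := hθs ⟨h, hh⟩
    rw [hτ]
    show sh2 t (th F F' (δ (h : P), 1)) = _
    have h2 : th F F' (δ (h : P), 1) = (sh t⁻¹ (δ (φ h)), 1) := h1
    rw [h2, sh2_apply, ← sh_mul_apply, mul_inv_cancel, sh_one_apply, map_one]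
  have hτe : ∀ h : H, ∀ x, τ (sh2 (f (h : P)) x) = sh2 (f (φ h)) (τ x) := by
    intro h x
    rw [hτ]
    show sh2 t (th F F' (sh2 (f (h : P)) x)) = sh2 (f (φ h)) (sh2 t (th F F' x))
    rw [hθ _ (by rw [hL]; exact ⟨h, h.2, rfl⟩)]
    show (sh2 t * sh2 (f (h : P)) : MulAut ((Q → D) × (Q → D))) _ =
      (sh2 (f (φ h)) * sh2 t : MulAut ((Q → D) × (Q → D))) _
    rw [← map_mul, ← map_mul, hft, inv_mul_cancel_right]
  -- the cocycle
  let c : H → (Q → D) × (Q → D) := fun h => τ⁻¹ (δ (φ h), 1) * (δ (h : P), 1)⁻¹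
  have hτi : ∀ h : H, ∀ x, τ⁻¹ (sh2 (f (φ h)) x) = sh2 (f (h : P)) (τ⁻¹ x) := by
    intro h x
    have h1 := hτe h (τ⁻¹ x)
    rw [MulAut.apply_inv_self] at h1
    rw [← h1, MulAut.inv_apply_self]
  have hcc : ∀ h h' : H, c (h * h') = c h * sh2 (f (h : P)) (c h') := by
    intro h h'
    show τ⁻¹ (δ (φ (h * h')), 1) * (δ ((h * h' : H) : P), 1)⁻¹ =
      τ⁻¹ (δ (φ h), 1) * (δ (h : P), 1)⁻¹ *
        sh2 (f (h : P)) (τ⁻¹ (δ (φ h'), 1) * (δ (h' : P), 1)⁻¹)
    have h1 : ((δ (φ (h * h')), 1) : (Q → D) × (Q → D)) =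
        (δ (φ h), 1) * sh2 (f (φ h)) (δ (φ h'), 1) := by
      rw [sh2_apply, map_mul, hδ, map_one, Prod.mk_mul_mk, mul_one]
    have h2 : ((δ ((h * h' : H) : P), 1) : (Q → D) × (Q → D)) =
        (δ (h : P), 1) * sh2 (f (h : P)) (δ (h' : P), 1) := by
      rw [sh2_apply, Subgroup.coe_mul, hδ, map_one, Prod.mk_mul_mk, mul_one]
    rw [h1, h2, map_mul, hτi, map_mul, map_inv, mul_inv]
    exact mul_mul_mul_comm _ _ _ _
  have hc1 : ∀ h : H, f (h : P) = 1 → c h = 1 := by
    intro h hh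
    show τ⁻¹ (δ (φ h), 1) * (δ (h : P), 1)⁻¹ = 1
    rw [← hτs h hh, MulAut.inv_apply_self, mul_inv_cancel]
  obtain ⟨v1, hv1⟩ := ex_prin (f.comp H.subtype) (fun h => (c h).1)
    (fun h h' => by
      have := congrArg Prod.fst (hcc h h')
      exact this) (fun h hh => by rw [hc1 h hh]; rfl)
  obtain ⟨v2, hv2⟩ := ex_prin (f.comp H.subtype) (fun h => (c h).2)
    (fun h h' => by
      have := congrArg Prod.snd (hcc h h')
      exact this) (fun h hh => by rw [hc1 h hh]; rfl)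
  have hv : ∀ h : H, c h = (v1, v2) * (sh2 (f (h : P)) (v1, v2))⁻¹ := by
    intro h
    rw [sh2_apply, Prod.inv_mk, Prod.mk_mul_mk]
    exact Prod.ext (hv1 h) (hv2 h)
  -- the group
  refine ⟨((Q → D) × (Q → D)) ⋊[acth L t (th F F') hθ] Hn L t, inferInstance,
    { toFun := fun p => ⟨(δ p, 1), HNNExtension.of (f p)⟩
      map_one' := by
        apply SemidirectProduct.ext
        · show (δ 1, (1 : Q → D)) = 1
          rw [hδ11]
          rfl
        · show HNNExtension.of (f 1) = 1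
          rw [map_one, map_one]
      map_mul' := fun p q => by
        apply SemidirectProduct.ext
        · rw [SemidirectProduct.mul_left]
          show (δ (p * q), (1 : Q → D)) = (δ p, 1) * acth L t (th F F') hθ
            (HNNExtension.of (f p)) (δ q, 1)
          rw [acth_of, sh2_apply, hδ, map_one, Prod.mk_mul_mk, mul_one]
        · rw [SemidirectProduct.mul_right]
          show HNNExtension.of (f (p * q)) = HNNExtension.of (f p) * HNNExtension.of (f q)
          rw [map_mul, map_mul] },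
    ⟨τ (v1, v2), HNNExtension.t⟩, C_semi hC hmet _ (C_Hn L t hC hCQ), ?_, ?_⟩
  · ext p
    rw [MonoidHom.mem_ker]
    constructor
    · intro hp
      have h1 : HNNExtension.of (f p) = (1 : Hn L t) := congrArg SemidirectProduct.right hp
      have h2 : ((δ p, 1) : (Q → D) × (Q → D)) = 1 := congrArg SemidirectProduct.left hp
      have h3 : f p = 1 := by
        have := HNNExtension.of_injective _ (h1.trans (map_one HNNExtension.of).symm)
        exact this
      exact (hδ1 p h3).1 (congrArg Prod.fst h2)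
    · intro hp
      have h3 : f p = 1 := hle hp
      apply SemidirectProduct.ext
      · show (δ p, (1 : Q → D)) = 1
        rw [(hδ1 p h3).2 hp]
        rfl
      · show HNNExtension.of (f p) = (1 : Hn L t)
        rw [h3, map_one]
  · intro h
    rw [eq_mul_inv_iff_mul_eq]
    apply SemidirectProduct.ext
    · rw [SemidirectProduct.mul_left, SemidirectProduct.mul_left]
      show (δ (φ h), 1) * acth L t (th F F') hθ (HNNExtension.of (f (φ h))) (τ (v1, v2)) =
        τ (v1, v2) * acth L t (th F F') hθ HNNExtension.t (δ (h : P), 1)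
      rw [acth_of, acth_t]
      have h1 : (sh2 t * (th F F' : MulAut ((Q → D) × (Q → D)))) = τ := hτ.symm
      rw [h1, ← hτe, ← map_mul]
      have h2 := hv h
      have h3 : τ⁻¹ (δ (φ h), 1) = (v1, v2) * (sh2 (f (h : P)) (v1, v2))⁻¹ * (δ (h : P), 1) := by
        rw [← h2]
        show _ = τ⁻¹ (δ (φ h), 1) * (δ (h : P), 1)⁻¹ * (δ (h : P), 1)
        rw [inv_mul_cancel_right]
      have h4 : ((δ (φ h), 1) : (Q → D) × (Q → D)) =
          τ ((v1, v2) * (sh2 (f (h : P)) (v1, v2))⁻¹ * (δ (h : P), 1)) := by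
        rw [← h3, MulAut.apply_inv_self]
      rw [h4, ← map_mul]
      congr 1
      rw [mul_assoc, mul_comm ((δ (h : P), 1) : (Q → D) × (Q → D)), ← mul_assoc,
        inv_mul_cancel_right]
    · rw [SemidirectProduct.mul_right, SemidirectProduct.mul_right]
      show HNNExtension.of (f (φ h)) * HNNExtension.t = HNNExtension.t * HNNExtension.of (f (h : P))
      have hmem : f (h : P) ∈ L := by rw [hL]; exact ⟨h, h.2, rfl⟩
      have h1 := HNNExtension.t_mul_of (φ := (L.equivMapOfInjective (MulAut.conj t).toMonoidHom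
        (MulAut.conj t).injective)) ⟨f (h : P), hmem⟩
      have h2 : (((L.equivMapOfInjective (MulAut.conj t).toMonoidHom
        (MulAut.conj t).injective) ⟨f (h : P), hmem⟩ : L.map (MulAut.conj t).toMonoidHom) : Q) =
          f (φ h) := by
        rw [hft]
        rfl
      rw [h2] at h1
      exact h1.symm

end Pool.Agent.Zk7.FJ
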