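import Pool.Agent.Zk7.FJ.Pos
import Pool.Agent.Zk7.FJ.Ring

/-!
# Unipotent actions with operators of finite length
-/

set_option autoImplicit false

namespace Pool.Agent.Zk7.FJ

open Pool.Agent.Y110.FJ
open Pool.Agent.Y462.SS (Closed)

variable {C : ∀ (G : Type) [Group G], Prop}

/-! ### chains in modules of finite length -/

section len

variable {R : Type} [Ring R]

theorem chain_finite {M : Type} [AddCommGroup M] [Module R M] [IsNoetherian R M] [IsArtinian R M]
    (c : Set (Submodule R M)) (hc : IsChain (· ≤ ·) c) : c.Finite := by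
  classical
  let _ : LinearOrder c :=
    { (inferInstance : PartialOrder c) with
      le_total := fun a b => hc.total a.2 b.2
      toDecidableLE := Classical.decRel _
      toDecidableEq := Classical.decEq _
      toDecidableLT := Classical.decRel _ }
  have h1 : WellFoundedLT c := (OrderEmbedding.subtype (· ∈ c)).wellFoundedLT
  have h2 : WellFoundedGT c := (OrderEmbedding.subtype (· ∈ c)).wellFoundedGT
  exact Finite.of_wellFoundedLT_wellFoundedGT c

variable {V : Type} [AddCommGroup V] [Module R V]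

theorem fin_inf {c : Set (Submodule R V)} (hc : IsChain (· ≤ ·) c) (Y : Submodule R V)
    [IsNoetherian R Y] [IsArtinian R Y] : {W | ∃ X ∈ c, W = Y ⊓ X}.Finite := by
  have h1 : ((fun X => X.comap Y.subtype) '' c).Finite := by
    apply chain_finite
    rintro _ ⟨X, hX, rfl⟩ _ ⟨X', hX', rfl⟩ _
    rcases hc.total hX hX' with h | h
    · exact Or.inl (Submodule.comap_mono h)
    · exact Or.inr (Submodule.comap_mono h)
  refine (h1.image (fun Z => Z.map Y.subtype)).subset ?_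
  rintro _ ⟨X, hX, rfl⟩
  refine ⟨_, ⟨X, hX, rfl⟩, ?_⟩
  show (X.comap Y.subtype).map Y.subtype = Y ⊓ X
  rw [Submodule.map_comap_subtype]

theorem fin_sup {c : Set (Submodule R V)} (hc : IsChain (· ≤ ·) c) {M : Type} [AddCommGroup M]
    [Module R M] [IsNoetherian R M] [IsArtinian R M] (κ : V →ₗ[R] M) :
    {W | ∃ X ∈ c, W = X ⊔ LinearMap.ker κ}.Finite := by
  have h1 : ((fun X => X.map κ) '' c).Finite := by
    apply chain_finite
    rintro _ ⟨X, hX, rfl⟩ _ ⟨X', hX', rfl⟩ _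
    rcases hc.total hX hX' with h | h
    · exact Or.inl (Submodule.map_mono h)
    · exact Or.inr (Submodule.map_mono h)
  refine (h1.image (fun Z => Z.comap κ)).subset ?_
  rintro _ ⟨X, hX, rfl⟩
  refine ⟨_, ⟨X, hX, rfl⟩, ?_⟩
  show (X.map κ).comap κ = X ⊔ LinearMap.ker κ
  rw [Submodule.comap_map_eq]

end len

section uni

variable {R V : Type} [Ring R] [AddCommGroup V] [Module R V] {G : Type} [Group G]
  (ρ : G →* AddMonoid.End V) (N : Subgroup G)

/-- the submodules invariant under `N` -/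
def Inv : Set (Submodule R V) := {X | ∀ n ∈ N, ∀ v ∈ X, ρ n v ∈ X}

/-- the submodule generated by the differences -/
def Df (X : Submodule R V) : Submodule R V :=
  sInf {Y | Y ∈ Inv ρ N ∧ ∀ n ∈ N, ∀ x ∈ X, ρ n x - x ∈ Y}

variable {ρ N}

theorem Inv_sup (A : Set (Submodule R V)) (hA : A ⊆ Inv ρ N) : sSup A ∈ Inv (R := R) ρ N := by
  intro n hn v hv
  rw [sSup_eq_iSup'] at hv ⊢
  induction hv using Submodule.iSup_induction' with
  | mem X x hx => exact Submodule.mem_iSup_of_mem X (hA X.2 n hn x hx)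
  | zero => rw [map_zero]; exact Submodule.zero_mem _
  | add x y _ _ hx hy => rw [map_add]; exact Submodule.add_mem _ hx hy

theorem Inv_inf (A : Set (Submodule R V)) (hA : A ⊆ Inv ρ N) : sInf A ∈ Inv (R := R) ρ N := by
  intro n hn v hv
  rw [Submodule.mem_sInf] at hv ⊢
  exact fun X hX => hA hX n hn v (hv X hX)

theorem Inv_sup2 {X Y : Submodule R V} (hX : X ∈ Inv ρ N) (hY : Y ∈ Inv ρ N) :
    X ⊔ Y ∈ Inv (R := R) ρ N := by
  rw [← sSup_pair]
  exact Inv_sup _ (by rintro Z (rfl | rfl); exacts [hX, hY])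

theorem Df_mem (X : Submodule R V) : Df ρ N X ∈ Inv (R := R) ρ N := Inv_inf _ fun _ h => h.1

theorem diff_mem {X : Submodule R V} {n : G} (hn : n ∈ N) {x : V} (hx : x ∈ X) :
    ρ n x - x ∈ Df ρ N X := by
  rw [Df, Submodule.mem_sInf]
  exact fun Y hY => hY.2 n hn x hx

theorem Df_le {X Y : Submodule R V} (hY : Y ∈ Inv ρ N) (h : ∀ n ∈ N, ∀ x ∈ X, ρ n x - x ∈ Y) :
    Df ρ N X ≤ Y := sInf_le ⟨hY, h⟩

/-! ### Nakayama's lemma -/

section nak

variable (ρ) (R) (F : Set V) (T : Finset G)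

/-- the submodule generated by the words in `T` applied to `F` -/
def ZT : Submodule R V :=
  Submodule.span R {v | ∃ w ∈ Submonoid.closure (T : Set G), ∃ x ∈ F, v = ρ w x}

/-- the differences -/
def DT : Submodule R V := Submodule.span R {v | ∃ n ∈ T, ∃ z ∈ ZT R ρ F T, v = ρ n z - z}

/-- the products of differences -/
def WT (k : ℕ) : Submodule R V :=
  Submodule.span R {v | ∃ l : List G, (∀ x ∈ l, x ∈ T) ∧ l.length = k ∧
    ∃ u : V, v = (l.map (fun x => ρ x - 1)).prod u}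

variable {ρ R F T}

theorem span_stable (hlin : ∀ n ∈ N, ∀ (r : R) (v : V), ρ n (r • v) = r • ρ n v) {A : Set V}
    {X : Submodule R V} {n : G} (hn : n ∈ N) (h : ∀ a ∈ A, ρ n a ∈ X) :
    ∀ v ∈ Submodule.span R A, ρ n v ∈ X := by
  intro v hv
  induction hv using Submodule.span_induction with
  | mem x hx => exact h x hx
  | zero => rw [map_zero]; exact X.zero_mem
  | add x y _ _ hx hy => rw [map_add]; exact X.add_mem hx hy
  | smul r x _ hx => rw [hlin n hn]; exact X.smul_mem r hx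

theorem ZT_stable (hlin : ∀ n ∈ N, ∀ (r : R) (v : V), ρ n (r • v) = r • ρ n v)
    (hT : ∀ n ∈ T, n ∈ N) {n : G} (hn : n ∈ T) : ∀ v ∈ ZT R ρ F T, ρ n v ∈ ZT R ρ F T := by
  refine span_stable hlin (hT n hn) ?_
  rintro _ ⟨w, hw, x, hx, rfl⟩
  exact Submodule.subset_span ⟨n * w, Submonoid.mul_mem _ (Submonoid.subset_closure hn) hw, x, hx,
    by rw [map_mul]; rfl⟩

theorem DT_le (hlin : ∀ n ∈ N, ∀ (r : R) (v : V), ρ n (r • v) = r • ρ n v)
    (hT : ∀ n ∈ T, n ∈ N) : DT R ρ F T ≤ ZT R ρ F T := by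
  rw [DT, Submodule.span_le]
  rintro _ ⟨n, hn, z, hz, rfl⟩
  exact Submodule.sub_mem _ (ZT_stable hlin hT hn z hz) hz

theorem DT_stable (hlin : ∀ n ∈ N, ∀ (r : R) (v : V), ρ n (r • v) = r • ρ n v)
    (hT : ∀ n ∈ T, n ∈ N) {n : G} (hn : n ∈ T) : ∀ v ∈ DT R ρ F T, ρ n v ∈ DT R ρ F T := by
  intro v hv
  have h1 : ρ n v - v ∈ DT R ρ F T :=
    Submodule.subset_span ⟨n, hn, v, DT_le hlin hT hv, rfl⟩
  have h2 : ρ n v = (ρ n v - v) + v := by rw [sub_add_cancel]
  rw [h2]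
  exact Submodule.add_mem _ h1 hv

theorem ZT_mono {T' : Finset G} (h : T ⊆ T') : ZT R ρ F T ≤ ZT R ρ F T' := by
  refine Submodule.span_mono ?_
  rintro _ ⟨w, hw, x, hx, rfl⟩
  exact ⟨w, Submonoid.closure_mono (by exact_mod_cast h) hw, x, hx, rfl⟩

theorem DT_mono {T' : Finset G} (h : T ⊆ T') : DT R ρ F T ≤ DT R ρ F T' := by
  refine Submodule.span_mono ?_
  rintro _ ⟨n, hn, z, hz, rfl⟩
  exact ⟨n, h hn, z, ZT_mono h hz, rfl⟩

theorem diff_span (hlin : ∀ n ∈ N, ∀ (r : R) (v : V), ρ n (r • v) = r • ρ n v) {A : Set V}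
    {X : Submodule R V} {n : G} (hn : n ∈ N) (h : ∀ a ∈ A, ρ n a - a ∈ X) :
    ∀ v ∈ Submodule.span R A, ρ n v - v ∈ X := by
  intro v hv
  induction hv using Submodule.span_induction with
  | mem x hx => exact h x hx
  | zero => rw [map_zero, sub_zero]; exact X.zero_mem
  | add x y _ _ hx hy =>
    rw [map_add, add_sub_add_comm]
    exact X.add_mem hx hy
  | smul r x _ hx =>
    rw [hlin n hn, ← smul_sub]
    exact X.smul_mem r hx

theorem WT_diff (hlin : ∀ n ∈ N, ∀ (r : R) (v : V), ρ n (r • v) = r • ρ n v)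
    (hT : ∀ n ∈ T, n ∈ N) {n : G} (hn : n ∈ T) (k : ℕ) :
    ∀ v ∈ WT R ρ T k, ρ n v - v ∈ WT R ρ T (k + 1) := by
  refine diff_span hlin (hT n hn) ?_
  rintro _ ⟨l, hl, hk, u, rfl⟩
  refine Submodule.subset_span ⟨n :: l, ?_, ?_, u, ?_⟩
  · intro x hx
    rcases List.mem_cons.1 hx with rfl | hx
    · exact hn
    · exact hl x hx
  · rw [List.length_cons, hk]
  · rw [List.map_cons, List.prod_cons]
    rfl

theorem nakT (hlin : ∀ n ∈ N, ∀ (r : R) (v : V), ρ n (r • v) = r • ρ n v)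
    (hT : ∀ n ∈ T, n ∈ N) {X : Submodule R V} (hX : X ∈ Inv ρ N) (h : ∀ x ∈ F, x ∈ X ⊔ DT R ρ F T)
    (hu : ∃ c : ℕ, ∀ l : List G, (∀ x ∈ l, x ∈ T) → l.length = c →
      (l.map (fun x => ρ x - 1)).prod = 0) : ∀ x ∈ F, x ∈ X := by
  have hst : ∀ n ∈ T, ∀ v ∈ X ⊔ DT R ρ F T, ρ n v ∈ X ⊔ DT R ρ F T := by
    intro n hn v hv
    obtain ⟨a, ha, b, hb, rfl⟩ := Submodule.mem_sup.1 hv
    rw [map_add]
    exact Submodule.add_mem _ (Submodule.mem_sup_left (hX n (hT n hn) a ha))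
      (Submodule.mem_sup_right (DT_stable hlin hT hn b hb))
  have hst2 : ∀ w ∈ Submonoid.closure (T : Set G), ∀ v ∈ X ⊔ DT R ρ F T,
      ρ w v ∈ X ⊔ DT R ρ F T := by
    intro w hw
    induction hw using Submonoid.closure_induction with
    | mem w hw => exact hst w hw
    | one => intro v hv; rw [map_one]; exact hv
    | mul a b _ _ ha hb =>
      intro v hv
      rw [map_mul]
      exact ha _ (hb v hv)
  have hZ : ZT R ρ F T ≤ X ⊔ DT R ρ F T := by
    rw [ZT, Submodule.span_le]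
    rintro _ ⟨w, hw, x, hx, rfl⟩
    exact hst2 w hw x (h x hx)
  have hk : ∀ k, ZT R ρ F T ≤ X ⊔ WT R ρ T k := by
    intro k
    induction k with
    | zero =>
      intro v _
      refine Submodule.mem_sup_right (Submodule.subset_span ⟨[], ?_, rfl, v, ?_⟩)
      · intro x hx; exact absurd hx (List.not_mem_nil)
      · rfl
    | succ k ih =>
      refine hZ.trans (sup_le le_sup_left ?_)
      rw [DT, Submodule.span_le]
      rintro _ ⟨n, hn, z, hz, rfl⟩
      obtain ⟨a, ha, b, hb, rfl⟩ := Submodule.mem_sup.1 (ih hz)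
      rw [map_add, add_sub_add_comm]
      exact Submodule.add_mem _ (Submodule.mem_sup_left (X.sub_mem (hX n (hT n hn) a ha) ha))
        (Submodule.mem_sup_right (WT_diff hlin hT hn k b hb))
  obtain ⟨c, hc⟩ := hu
  have hW : WT R ρ T c ≤ ⊥ := by
    rw [WT, Submodule.span_le]
    rintro _ ⟨l, hl, hlc, u, rfl⟩
    rw [hc l hl hlc]
    exact (Submodule.mem_bot R).2 rfl
  intro x hx
  have h1 : x ∈ ZT R ρ F T := Submodule.subset_span ⟨1, Submonoid.one_mem _, x, hx, by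
    rw [map_one]; rfl⟩
  have h2 := hk c h1
  rw [le_bot_iff.1 hW, sup_bot_eq] at h2
  exact h2

end nak

theorem nakN (hlin : ∀ n ∈ N, ∀ (r : R) (v : V), ρ n (r • v) = r • ρ n v)
    (hu : ∀ T : Finset G, (∀ n ∈ T, n ∈ N) → ∃ c : ℕ, ∀ l : List G, (∀ x ∈ l, x ∈ T) →
      l.length = c → (l.map (fun x => ρ x - 1)).prod = 0)
    (X : Submodule R V) (hX : X ∈ Inv ρ N) (F : Set V) (hF : F.Finite)
    (h : ∀ x ∈ F, x ∈ X ⊔ Df ρ N (sInf {Y | Y ∈ Inv ρ N ∧ F ⊆ Y})) : ∀ x ∈ F, x ∈ X := by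
  classical
  let I : Type := {T : Finset G // ∀ n ∈ T, n ∈ N}
  have hne : Nonempty I := ⟨⟨∅, fun n hn => absurd hn (Finset.notMem_empty _)⟩⟩
  have hdir : ∀ A : Finset G → Submodule R V, (∀ T T', T ⊆ T' → A T ≤ A T') →
      Directed (· ≤ ·) (fun T : I => A T.1) := by
    intro A hA T T'
    refine ⟨⟨T.1 ∪ T'.1, fun n hn => ?_⟩, hA _ _ Finset.subset_union_left,
      hA _ _ Finset.subset_union_right⟩
    rcases Finset.mem_union.1 hn with h | h
    · exact T.2 n h
    · exact T'.2 n h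
  have hd1 := hdir (fun T => ZT R ρ F T) fun _ _ h => ZT_mono h
  have hd2 := hdir (fun T => X ⊔ DT R ρ F T) fun _ _ h => sup_le_sup le_rfl (DT_mono h)
  have hins : ∀ (T : I) (n : G), n ∈ N → ∀ m ∈ insert n T.1, m ∈ N := by
    intro T n hn m hm
    rcases Finset.mem_insert.1 hm with rfl | hm
    · exact hn
    · exact T.2 m hm
  have hZ : (⨆ T : I, ZT R ρ F T.1) ∈ Inv (R := R) ρ N := by
    intro n hn v hv
    obtain ⟨T, hv⟩ := (Submodule.mem_iSup_of_directed _ hd1).1 hv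
    refine Submodule.mem_iSup_of_mem (⟨insert n T.1, hins T n hn⟩ : I) ?_
    exact ZT_stable hlin (hins T n hn) (Finset.mem_insert_self _ _) v
      (ZT_mono (Finset.subset_insert _ _) hv)
  have hgen : sInf {Y | Y ∈ Inv ρ N ∧ F ⊆ Y} ≤ ⨆ T : I, ZT R ρ F T.1 := by
    refine sInf_le ⟨hZ, fun x hx => ?_⟩
    refine Submodule.mem_iSup_of_mem (⟨∅, fun n hn => absurd hn (Finset.notMem_empty _)⟩ : I) ?_
    exact Submodule.subset_span ⟨1, Submonoid.one_mem _, x, hx, by rw [map_one]; rfl⟩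
  have hZ2 : (⨆ T : I, (X ⊔ DT R ρ F T.1)) ∈ Inv (R := R) ρ N := by
    intro n hn v hv
    obtain ⟨T, hv⟩ := (Submodule.mem_iSup_of_directed _ hd2).1 hv
    obtain ⟨a, ha, b, hb, rfl⟩ := Submodule.mem_sup.1 hv
    refine Submodule.mem_iSup_of_mem (⟨insert n T.1, hins T n hn⟩ : I) ?_
    rw [map_add]
    exact Submodule.add_mem _ (Submodule.mem_sup_left (hX n hn a ha)) (Submodule.mem_sup_right
      (DT_stable hlin (hins T n hn) (Finset.mem_insert_self _ _) b
        (DT_mono (Finset.subset_insert _ _) hb)))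
  have hD : X ⊔ Df ρ N (sInf {Y | Y ∈ Inv ρ N ∧ F ⊆ Y}) ≤ ⨆ T : I, (X ⊔ DT R ρ F T.1) := by
    refine sup_le ?_ (Df_le hZ2 fun n hn x hx => ?_)
    · obtain ⟨T⟩ := hne
      exact le_sup_left.trans (le_iSup (fun T : I => X ⊔ DT R ρ F T.1) T)
    · obtain ⟨T, hxT⟩ := (Submodule.mem_iSup_of_directed _ hd1).1 (hgen hx)
      refine Submodule.mem_iSup_of_mem (⟨insert n T.1, hins T n hn⟩ : I)
        (Submodule.mem_sup_right (Submodule.subset_span ⟨n, Finset.mem_insert_self _ _, x, ?_, rfl⟩))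
      exact ZT_mono (Finset.subset_insert _ _) hxT
  -- a common finite set
  have h2 : ∀ x : V, ∃ T : I, x ∈ F → x ∈ X ⊔ DT R ρ F T.1 := by
    intro x
    by_cases hx : x ∈ F
    · obtain ⟨T, hT⟩ := (Submodule.mem_iSup_of_directed _ hd2).1 (hD (h x hx))
      exact ⟨T, fun _ => hT⟩
    · obtain ⟨T⟩ := hne
      exact ⟨T, fun h => absurd h hx⟩
  choose τ hτ using h2
  obtain ⟨T, hT⟩ : ∃ T : Finset G, T = hF.toFinset.biUnion fun x => (τ x).1 := ⟨_, rfl⟩
  have hTN : ∀ n ∈ T, n ∈ N := by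
    intro n hn
    rw [hT, Finset.mem_biUnion] at hn
    obtain ⟨x, -, hn⟩ := hn
    exact (τ x).2 n hn
  refine nakT hlin hTN hX (fun x hx => ?_) (hu T hTN)
  have h3 : (τ x).1 ⊆ T := by
    rw [hT]
    exact Finset.subset_biUnion_of_mem (fun x => (τ x).1) (hF.mem_toFinset.2 hx)
  have h4 : X ⊔ DT R ρ F (τ x).1 ≤ X ⊔ DT R ρ F T := sup_le_sup le_rfl (DT_mono h3)
  exact h4 (hτ x hx)

/-! ### the system of an element -/

theorem conj_N (hN : N.Normal) (g : G) {n : G} (hn : n ∈ N) (v : V) :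
    ρ n (ρ g v) = ρ g (ρ (g⁻¹ * n * g) v) ∧ g⁻¹ * n * g ∈ N := by
  constructor
  · have h1 : ρ n * ρ g = ρ g * ρ (g⁻¹ * n * g) := by
      rw [← map_mul, ← map_mul]
      congr 1
      group
    exact DFunLike.congr_fun h1 v
  · have := hN.conj_mem n hn g⁻¹
    rwa [inv_inv] at this

/-- the system given by an element -/
theorem ex_sys (hN : N.Normal) (hperm : ∀ g : G, ∀ X : Submodule R V, ∃ Y : Submodule R V,
      ∀ v, ρ g v ∈ Y ↔ v ∈ X)
    (hlin : ∀ n ∈ N, ∀ (r : R) (v : V), ρ n (r • v) = r • ρ n v)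
    (hu : ∀ T : Finset G, (∀ n ∈ T, n ∈ N) → ∃ c : ℕ, ∀ l : List G, (∀ x ∈ l, x ∈ T) →
      l.length = c → (l.map (fun x => ρ x - 1)).prod = 0) (g : G) :
    ∃ S : Sys R V, S.Dd = Inv ρ N ∧ S.D = Df ρ N ∧ ∀ v, S.γ v = ρ g v := by
  have hinv : ∀ v, ρ g⁻¹ (ρ g v) = v := by
    intro v
    have h1 : ρ g⁻¹ * ρ g = 1 := by rw [← map_mul, inv_mul_cancel, map_one]
    exact DFunLike.congr_fun h1 v
  have hinv' : ∀ v, ρ g (ρ g⁻¹ v) = v := by
    intro v
    have h1 : ρ g * ρ g⁻¹ = 1 := by rw [← map_mul, mul_inv_cancel, map_one]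
    exact DFunLike.congr_fun h1 v
  choose f hf using hperm g
  choose f' hf' using hperm g⁻¹
  have hff : ∀ X, f' (f X) = X := by
    intro X
    ext v
    have h1 := hf' (f X) (ρ g v)
    rw [hinv] at h1
    rw [h1]
    exact hf X v
  have hff' : ∀ X, f (f' X) = X := by
    intro X
    ext v
    have h1 := hf (f' X) (ρ g⁻¹ v)
    rw [hinv'] at h1
    rw [h1]
    exact hf' X v
  have hmono : ∀ X Y, f X ≤ f Y ↔ X ≤ Y := by
    intro X Y
    constructor
    · intro h v hv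
      exact (hf Y v).1 (h ((hf X v).2 hv))
    · intro h v hv
      have h1 := (hf X (ρ g⁻¹ v)).1 (by rwa [hinv'])
      have h2 := (hf Y (ρ g⁻¹ v)).2 (h h1)
      rwa [hinv'] at h2
  let gm : Submodule R V ≃o Submodule R V :=
    { toFun := f, invFun := f', left_inv := hff, right_inv := hff',
      map_rel_iff' := fun {X Y} => hmono X Y }
  have hgm : ∀ X v, ρ g v ∈ gm X ↔ v ∈ X := hf
  have hgm' : ∀ X v, v ∈ gm X ↔ ρ g⁻¹ v ∈ X := by
    intro X v
    rw [← hgm X (ρ g⁻¹ v), hinv']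
  have hgs : ∀ X v, v ∈ gm.symm X ↔ ρ g v ∈ X := by
    intro X v
    rw [← hgm (gm.symm X) v, OrderIso.apply_symm_apply]
  have hgI : ∀ X, X ∈ Inv (R := R) ρ N → gm X ∈ Inv (R := R) ρ N := by
    intro X hX n hn v hv
    obtain ⟨h1, h2⟩ := conj_N (ρ := ρ) hN g hn (ρ g⁻¹ v)
    rw [hinv'] at h1
    rw [h1, hgm]
    exact hX _ h2 _ ((hgm' X v).1 hv)
  have hgI' : ∀ X, X ∈ Inv (R := R) ρ N → gm.symm X ∈ Inv (R := R) ρ N := by
    intro X hX n hn v hv
    rw [hgs] at hv ⊢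
    have h1 : ρ g (ρ n v) = ρ (g * n * g⁻¹) (ρ g v) := by
      have h2 : ρ g * ρ n = ρ (g * n * g⁻¹) * ρ g := by
        rw [← map_mul, ← map_mul]; congr 1; group
      exact DFunLike.congr_fun h2 v
    rw [h1]
    exact hX _ (hN.conj_mem n hn g) _ hv
  refine ⟨{ gm := gm, γ := fun v => ρ g v, gm_mem := hgm, Dd := Inv ρ N, sup := Inv_sup
            inf := Inv_inf, gmD := fun X => ⟨fun h => ?_, hgI X⟩, D := Df ρ N
            D_le := fun X hX => Df_le hX fun n hn x hx => X.sub_mem (hX n hn x hx) hx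
            D_mem := Df_mem
            D_mono := fun X Y h => Df_le (Df_mem Y) fun n hn x hx => diff_mem hn (h hx)
            D_sup := ?_, D_gm := ?_, D_el := ?_, nak := nakN hlin hu }, rfl, rfl, fun _ => rfl⟩
  · have := hgI' _ h
    rwa [OrderIso.symm_apply_apply] at this
  · intro X hX Z hZ
    refine Df_le (Inv_sup2 hX (Df_mem Z)) fun n hn x hx => ?_
    obtain ⟨a, ha, b, hb, rfl⟩ := Submodule.mem_sup.1 hx
    rw [map_add, add_sub_add_comm]
    exact Submodule.add_mem _ (Submodule.mem_sup_left (X.sub_mem (hX n hn a ha) ha))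
      (Submodule.mem_sup_right (diff_mem hn hb))
  · intro X
    refine le_antisymm ?_ ?_
    · have h1 : Df ρ N X ≤ gm.symm (Df ρ N (gm X)) := by
        refine Df_le (hgI' _ (Df_mem _)) fun n hn x hx => ?_
        rw [hgs, map_sub]
        have h2 : ρ g (ρ n x) = ρ (g * n * g⁻¹) (ρ g x) := by
          have h3 : ρ g * ρ n = ρ (g * n * g⁻¹) * ρ g := by
            rw [← map_mul, ← map_mul]; congr 1; group
          exact DFunLike.congr_fun h3 x
        rw [h2]
        exact diff_mem (hN.conj_mem n hn g) ((hgm X x).2 hx)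
      have h2 := gm.monotone h1
      rwa [OrderIso.apply_symm_apply] at h2
    · refine Df_le (hgI _ (Df_mem _)) fun n hn x hx => ?_
      obtain ⟨h1, h2⟩ := conj_N (ρ := ρ) hN g hn (ρ g⁻¹ x)
      rw [hinv'] at h1
      have h3 : ρ n x - x = ρ g (ρ (g⁻¹ * n * g) (ρ g⁻¹ x) - ρ g⁻¹ x) := by
        rw [map_sub, hinv', h1]
      rw [h3, hgm]
      exact diff_mem h2 ((hgm' X x).1 hx)
  · intro X _ W hW h
    refine Df_le hW fun n hn x hx => ?_
    refine h x hx (diff_mem hn ?_)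
    rw [Submodule.mem_sInf]
    exact fun Y hY => hY.2

/-! ### the main theorem -/

/-- the difference of an element of `N` as a linear map -/
def lin (hlin : ∀ n ∈ N, ∀ (r : R) (v : V), ρ n (r • v) = r • ρ n v) (n : N) : V →ₗ[R] V where
  toFun v := ρ n v - v
  map_add' v w := by rw [map_add, add_sub_add_comm]
  map_smul' r v := by rw [hlin n n.2, ← smul_sub]; rfl

theorem uni_main (hC : ClosedE C)
    (hmet : ∀ (S : Type) [Group S], (∀ a ∈ commutator S, ∀ b ∈ commutator S, a * b = b * a) → C S)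
    [hN : N.Normal] (hQ : C (G ⧸ N))
    (hperm : ∀ g : G, ∀ X : Submodule R V, ∃ Y : Submodule R V, ∀ v, ρ g v ∈ Y ↔ v ∈ X)
    (hinj : ∀ n ∈ N, ρ n = 1 → n = 1)
    (hlin : ∀ n ∈ N, ∀ (r : R) (v : V), ρ n (r • v) = r • ρ n v)
    (hfin : ∀ n ∈ N, IsFiniteLength R (Submodule.span R (Set.range fun v => ρ n v - v)))
    (hu : ∀ T : Finset G, (∀ n ∈ T, n ∈ N) → ∃ c : ℕ, ∀ l : List G, (∀ x ∈ l, x ∈ T) →
      l.length = c → (l.map (fun x => ρ x - 1)).prod = 0) : C G := by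
  classical
  refine crit_ring hC hmet N hQ ρ.toHomUnits (fun n hn h => hinj n hn (congrArg Units.val h)) ?_
  intro g E hE hEN
  obtain ⟨S, hSD, hSd, hSγ⟩ := ex_sys hN hperm hlin hu g
  obtain ⟨c, hc⟩ := S.ex_max
  -- the generators of the window
  obtain ⟨T, hT⟩ : ∃ T : Set N, T = {n : N | (n : G) ∈ E ∪ (fun x => g * x * g⁻¹) '' E} := ⟨_, rfl⟩
  have hTf : Finite T := by
    rw [hT]
    exact Set.Finite.preimage Subtype.val_injective.injOn (hE.union (hE.image _))
  have hgenN : E ∪ (fun x => g * x * g⁻¹) '' E ⊆ N := by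
    rintro x (hx | ⟨x, hx, rfl⟩)
    · exact hEN hx
    · exact hN.conj_mem x (hEN hx) g
  have hWN : Win g E ≤ N := (Subgroup.closure_le N).2 hgenN
  have hfl : ∀ n : N, IsNoetherian R (LinearMap.range (lin hlin n)) ∧
      IsArtinian R (LinearMap.range (lin hlin n)) := by
    intro n
    have h1 : LinearMap.range (lin hlin n) = Submodule.span R (Set.range fun v => ρ n v - v) := by
      apply le_antisymm
      · rintro _ ⟨v, rfl⟩
        exact Submodule.subset_span ⟨v, rfl⟩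
      · rw [Submodule.span_le]
        rintro _ ⟨v, rfl⟩
        exact ⟨v, rfl⟩
    rw [h1]
    exact isFiniteLength_iff_isNoetherian_isArtinian.1 (hfin n n.2)
  have hi1 : ∀ n : N, IsNoetherian R (LinearMap.range (lin hlin n)) := fun n => (hfl n).1
  have hi2 : ∀ n : N, IsArtinian R (LinearMap.range (lin hlin n)) := fun n => (hfl n).2
  obtain ⟨Y, hY⟩ : ∃ Y : Submodule R V, Y = ⨆ n : T, LinearMap.range (lin hlin n.1) := ⟨_, rfl⟩
  have hY1 : IsNoetherian R Y := by rw [hY]; exact isNoetherian_iSup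
  have hY2 : IsArtinian R Y := by rw [hY]; exact isArtinian_iSup
  let κ : V →ₗ[R] (∀ n : T, LinearMap.range (lin hlin n.1)) :=
    LinearMap.pi fun n : T => (lin hlin n.1).rangeRestrict
  have hκ : ∀ v, v ∈ LinearMap.ker κ ↔ ∀ n : T, ρ ((n : N) : G) v = v := by
    intro v
    rw [LinearMap.mem_ker]
    constructor
    · intro h n
      have h1 : κ v n = 0 := by rw [h]; rfl
      have h2 : lin hlin n.1 v = 0 := congrArg Subtype.val h1
      exact sub_eq_zero.1 h2
    · intro h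
      funext n
      apply Subtype.ext
      show lin hlin n.1 v = 0
      exact sub_eq_zero.2 (h n)
  have hYF : ∀ x ∈ Win g E, (∀ v, ρ x v - v ∈ Y) ∧ ∀ v ∈ LinearMap.ker κ, ρ x v = v := by
    intro x hx
    have hinv : ∀ (x : G) v, ρ x (ρ x⁻¹ v) = v := by
      intro x v
      have h1 : ρ x * ρ x⁻¹ = 1 := by rw [← map_mul, mul_inv_cancel, map_one]
      exact DFunLike.congr_fun h1 v
    have hinv' : ∀ (x : G) v, ρ x⁻¹ (ρ x v) = v := by
      intro x v
      have h1 : ρ x⁻¹ * ρ x = 1 := by rw [← map_mul, inv_mul_cancel, map_one]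
      exact DFunLike.congr_fun h1 v
    induction hx using Subgroup.closure_induction with
    | mem x hx =>
      have hxT : (⟨x, hgenN hx⟩ : N) ∈ T := by rw [hT]; exact hx
      constructor
      · intro v
        rw [hY]
        exact Submodule.mem_iSup_of_mem (⟨_, hxT⟩ : T) ⟨v, rfl⟩
      · intro v hv
        exact (hκ v).1 hv ⟨_, hxT⟩
    | one =>
      constructor
      · intro v
        rw [map_one]
        show v - v ∈ Y
        rw [sub_self]
        exact Y.zero_mem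
      · intro v _
        rw [map_one]
        rfl
    | mul x y _ _ hx hy =>
      constructor
      · intro v
        have h1 : ρ (x * y) v = ρ x (ρ y v) := by rw [map_mul]; rfl
        rw [h1, ← sub_add_sub_cancel (ρ x (ρ y v)) (ρ y v) v]
        exact Y.add_mem (hx.1 _) (hy.1 _)
      · intro v hv
        have h1 : ρ (x * y) v = ρ x (ρ y v) := by rw [map_mul]; rfl
        rw [h1, hy.2 v hv, hx.2 v hv]
    | inv x _ hx =>
      constructor
      · intro v
        have h1 := hx.1 (ρ x⁻¹ v)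
        rw [hinv] at h1
        have h2 := Y.neg_mem h1
        rwa [neg_sub] at h2
      · intro v hv
        have h1 := hx.2 v hv
        conv_lhs => rw [← h1]
        exact hinv' x v
  have hch : IsChain (· ≤ ·) c := hc.prop.2.1
  have hcI : ∀ X ∈ c, ∀ n ∈ N, ∀ v ∈ X, ρ n v ∈ X := by
    intro X hX n hn v hv
    have h1 := hc.prop.1 hX
    rw [hSD] at h1
    exact h1 n hn v hv
  obtain ⟨k, J, hmono, htop, hbot, hstep, hpres, hconj⟩ := Sys.window hc Y (fin_inf hch Y)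
    (fin_sup hch κ) {x | ∃ y ∈ Win g E, x = ρ y - 1}
    (by
      rintro _ ⟨y, hy, rfl⟩ X hX v hv
      rw [hSd]
      exact diff_mem (hWN hy) hv)
    (by
      rintro _ ⟨y, hy, rfl⟩ v
      exact (hYF y hy).1 v)
    (by
      rintro _ ⟨y, hy, rfl⟩ v hv
      exact sub_eq_zero.2 ((hYF y hy).2 v hv))
  have hEW : ∀ e ∈ E, e ∈ Win g E := fun e he => Subgroup.subset_closure (Or.inl he)
  refine ⟨k, J, hmono, ?_, ?_, ?_, ?_, ?_, ?_⟩
  · intro e he
    exact htop _ ⟨e, hEW e he, rfl⟩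
  · intro i a ha
    refine hconj i (ρ g) (ρ g⁻¹) (fun v => (hSγ v).symm) ?_ ?_ a ha
    · rw [← map_mul, mul_inv_cancel, map_one]
    · rw [← map_mul, inv_mul_cancel, map_one]
  · intro i e he a ha
    exact ⟨(hpres i (ρ e) (fun X hX v hv => hcI X hX e (hEN he) v hv) a ha).1,
      (hpres i (ρ e⁻¹) (fun X hX v hv => hcI X hX e⁻¹ (N.inv_mem (hEN he)) v hv) a ha).1⟩
  · intro i e he a ha
    exact ⟨(hpres i (ρ e) (fun X hX v hv => hcI X hX e (hEN he) v hv) a ha).2,
      (hpres i (ρ e⁻¹) (fun X hX v hv => hcI X hX e⁻¹ (N.inv_mem (hEN he)) v hv) a ha).2⟩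
  · intro x hx h
    exact Units.ext (sub_eq_zero.1 (hbot _ h))
  · intro i _ x hx y hy h1 h2
    exact hstep i _ ⟨x, hx, rfl⟩ _ ⟨y, hy, rfl⟩ h1 h2

end uni

end Pool.Agent.Zk7.FJ
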